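import Pool.Agent.H818Z.Spec

/-!
The analytic part: averaging over a compact open central subgroup, and iterated limits along an
ultrafilter.
-/

namespace Pool.Agent.H818Z

open MeasureTheory Filter Topology

lemma ext_l2 {P I : Type} [Fintype I] (act : I → P → P) (hact : ∀ i, Function.Injective (act i))
    (coef : I → ℝ) (D' : ℝ) (h0 : 0 ≤ D')
    (hU : ∀ (A : Finset P) (ζ : P → ℝ), (∀ y, y ∉ A → ζ y = 0) →
      ∑ i, coef i * ∑ y ∈ A, ζ y * ζ (act i y) ≤ D' * ∑ y ∈ A, ζ y ^ 2)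
    (a : P → ℝ) (ha : Summable (fun y => a y ^ 2)) :
    ∑ i, coef i * ∑' y, a y * a (act i y) ≤ D' * ∑' y, a y ^ 2 := by
  classical
  set b : Finset P → P → ℝ := fun A y => if y ∈ A then a y else 0 with hb
  have hb1 : ∀ A y, |b A y| ≤ |a y| := by
    intro A y
    simp only [hb]
    split_ifs <;> simp
  have hb2 : ∀ y, Tendsto (fun A => b A y) atTop (𝓝 (a y)) := by
    intro y
    refine tendsto_const_nhds.congr' ?_
    filter_upwards [eventually_ge_atTop {y}] with A hA
    simp only [hb]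
    rw [if_pos (hA (Finset.mem_singleton_self y))]
  have h1 : Tendsto (fun A : Finset P => ∑ i, coef i * ∑' y, b A y * b A (act i y)) atTop
      (𝓝 (∑ i, coef i * ∑' y, a y * a (act i y))) := by
    refine tendsto_finsetSum _ (fun i _ => Tendsto.const_mul _ ?_)
    refine tendsto_tsum_of_dominated_convergence (bound := fun y => a y ^ 2 + a (act i y) ^ 2)
      (ha.add (ha.comp_injective (hact i))) (fun y => (hb2 y).mul (hb2 _)) ?_
    refine Eventually.of_forall (fun A y => ?_)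
    rw [Real.norm_eq_abs, abs_mul]
    have e1 := hb1 A y
    have e2 := hb1 A (act i y)
    have e3 := mul_le_mul e1 e2 (abs_nonneg _) (abs_nonneg _)
    nlinarith [sq_nonneg (|a y| - |a (act i y)|), sq_abs (a y), sq_abs (a (act i y)),
      mul_nonneg (abs_nonneg (a y)) (abs_nonneg (a (act i y)))]
  refine le_of_tendsto' h1 (fun A => ?_)
  have h2 := hU A (b A) (fun y hy => if_neg hy)
  have h3 : ∀ i, ∑' y, b A y * b A (act i y) = ∑ y ∈ A, b A y * b A (act i y) := by
    intro i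
    apply tsum_eq_sum
    intro y hy
    have : b A y = 0 := if_neg hy
    rw [this, zero_mul]
  simp only [h3]
  refine h2.trans (mul_le_mul_of_nonneg_left ?_ h0)
  have h4 : ∑ y ∈ A, b A y ^ 2 = ∑ y ∈ A, a y ^ 2 :=
    Finset.sum_congr rfl (fun y hy => by simp only [hb]; rw [if_pos hy])
  rw [h4]
  exact ha.sum_le_tsum A (fun y _ => sq_nonneg _)

lemma ulim {G : Type} (f : ℕ → G → ℝ) (hf : ∀ᶠ n in (hyperfilter ℕ : Filter ℕ), ∀ x, |f n x| ≤ 1) :
    ∃ a : G → ℝ, (∀ x, |a x| ≤ 1) ∧ Tendsto f (hyperfilter ℕ) (𝓝 a) := by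
  have hc : IsCompact (Set.pi Set.univ (fun _ : G => Set.Icc (-1 : ℝ) 1)) :=
    isCompact_univ_pi (fun _ => isCompact_Icc)
  obtain ⟨a, ha, h⟩ := hc.ultrafilter_le_nhds ((hyperfilter ℕ).map f) (by
    rw [Ultrafilter.coe_map, le_principal_iff, mem_map]
    filter_upwards [hf] with n hn x _
    exact abs_le.1 (hn x))
  exact ⟨a, fun x => abs_le.2 (ha x trivial), h⟩

section Group

variable {G P : Type} [Group G] [TopologicalSpace G] [IsTopologicalGroup G]
  [LocallyCompactSpace G] [SecondCountableTopology G] [MeasurableSpace G] [BorelSpace G]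
  [Group P] (π : G →* P)

/-- The diagonal coefficient of the regular representation. -/
noncomputable def cof (ξ : G → ℂ) (x : G) : ℂ :=
  ∫ y, ξ y * (starRingEnd ℂ) (ξ (x⁻¹ * y)) ∂(Measure.haar : Measure G)

omit [LocallyCompactSpace G] [SecondCountableTopology G] [MeasurableSpace G] [BorelSpace G] in
lemma open_fib (hKo : IsOpen {g | π g = 1}) (hπ : Function.Surjective π) (q : P) :
    IsOpen (π ⁻¹' {q}) := by
  obtain ⟨z, rfl⟩ := hπ q
  have : π ⁻¹' {π z} = (fun x => z⁻¹ * x) ⁻¹' {g | π g = 1} := by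
    ext x
    simp only [Set.mem_preimage, Set.mem_singleton_iff, Set.mem_ofPred_eq, map_mul, map_inv,
      inv_mul_eq_one]
    exact eq_comm
  rw [this]
  exact hKo.preimage (by fun_prop)

omit [LocallyCompactSpace G] [SecondCountableTopology G] [MeasurableSpace G] [BorelSpace G] in
lemma compact_fib (hKc : IsCompact {g | π g = 1}) (hπ : Function.Surjective π) (q : P) :
    IsCompact (π ⁻¹' {q}) := by
  obtain ⟨z, rfl⟩ := hπ q
  have : π ⁻¹' {π z} = (fun x => z * x) '' {g | π g = 1} := by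
    ext x
    simp only [Set.mem_preimage, Set.mem_singleton_iff, Set.mem_image, Set.mem_ofPred_eq]
    constructor
    · intro h
      exact ⟨z⁻¹ * x, by rw [map_mul, map_inv, h, inv_mul_cancel], by group⟩
    · rintro ⟨k, hk, rfl⟩
      rw [map_mul, hk, mul_one]
  rw [this]
  exact hKc.image (by fun_prop)

lemma avg [Countable P] (hπ : Function.Surjective π) (hKc : IsCompact {g | π g = 1})
    (hKo : IsOpen {g | π g = 1}) (hcen : ∀ k, π k = 1 → ∀ g, k⁻¹ * g = g * k)
    (ξ : G → ℂ) (hm : StronglyMeasurable ξ) (hξ : MemLp ξ 2 (Measure.haar : Measure G)) (g : G) :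
    IntegrableOn (fun k => cof ξ (g * k)) {g | π g = 1} Measure.haar ∧
    HasSum (fun q => (∫ y in π ⁻¹' {q}, ξ y ∂Measure.haar) *
      (starRingEnd ℂ) (∫ y in π ⁻¹' {(π g)⁻¹ * q}, ξ y ∂Measure.haar))
      (∫ k in {g | π g = 1}, cof ξ (g * k) ∂Measure.haar) := by
  set μ : Measure G := Measure.haar with hμ
  set K : Set G := {g | π g = 1} with hK
  set H : P → ℂ := fun q => ∫ y in π ⁻¹' {q}, ξ y ∂μ with hH
  have : IsFiniteMeasure (μ.restrict K) := isFiniteMeasure_restrict.2 hKc.measure_lt_top.ne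
  set f : G → G → ℂ := fun k y => ξ y * (starRingEnd ℂ) (ξ ((g * k)⁻¹ * y)) with hf
  have hfm : StronglyMeasurable (Function.uncurry f) := by
    refine (hm.comp_measurable measurable_snd).mul ?_
    refine Complex.continuous_conj.comp_stronglyMeasurable (hm.comp_measurable ?_)
    fun_prop
  have hl : ∀ x : G, MemLp (fun y => ξ (x * y)) 2 μ := fun x =>
    hξ.comp_measurePreserving (measurePreserving_mul_left μ x)
  have hsq : ∀ x : G, Integrable (fun y => ‖ξ (x * y)‖ ^ 2) μ := fun x =>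
    (memLp_two_iff_integrable_sq_norm (hl x).1).1 (hl x)
  have hsq1 : Integrable (fun y => ‖ξ y‖ ^ 2) μ := (memLp_two_iff_integrable_sq_norm hξ.1).1 hξ
  have hi : Integrable (Function.uncurry f) ((μ.restrict K).prod μ) := by
    rw [integrable_prod_iff hfm.aestronglyMeasurable]
    constructor
    · refine Eventually.of_forall (fun k => ?_)
      have h9 : MemLp (fun y => (starRingEnd ℂ) (ξ ((g * k)⁻¹ * y))) 2 μ := (hl ((g * k)⁻¹)).star
      have h10 : Integrable (fun y => ξ y * (starRingEnd ℂ) (ξ ((g * k)⁻¹ * y))) μ :=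
        hξ.integrable_mul h9
      exact h10
    · refine Integrable.of_bound (hfm.norm.integral_prod_right').aestronglyMeasurable
        (2 * ∫ y, ‖ξ y‖ ^ 2 ∂μ) (Eventually.of_forall (fun k => ?_))
      rw [Real.norm_of_nonneg (integral_nonneg (fun _ => norm_nonneg _))]
      have e1 : ∫ y, (‖ξ y‖ ^ 2 + ‖ξ ((g * k)⁻¹ * y)‖ ^ 2) ∂μ = 2 * ∫ y, ‖ξ y‖ ^ 2 ∂μ := by
        rw [integral_add hsq1 (hsq _), integral_mul_left_eq_self (fun y => ‖ξ y‖ ^ 2)]
        ring
      rw [← e1]
      refine integral_mono_of_nonneg (Eventually.of_forall (fun _ => norm_nonneg _))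
        (hsq1.add (hsq _)) (Eventually.of_forall (fun y => ?_))
      simp only [Function.uncurry, hf, norm_mul, Complex.norm_conj]
      nlinarith [sq_nonneg (‖ξ y‖ - ‖ξ ((g * k)⁻¹ * y)‖),
        mul_nonneg (norm_nonneg (ξ y)) (norm_nonneg (ξ ((g * k)⁻¹ * y)))]
  refine ⟨hi.integral_prod_left, ?_⟩
  have e1 : ∀ z : G, ∫ k in K, ξ (z * k) ∂μ = H (π z) := by
    intro z
    simp only [hH]
    rw [← integral_indicator hKo.measurableSet,
      ← integral_indicator (open_fib π hKo hπ _).measurableSet,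
      ← integral_mul_left_eq_self (Set.indicator (π ⁻¹' {π z}) ξ) z]
    congr 1
    funext k
    by_cases hk : π k = 1
    · rw [Set.indicator_of_mem (show k ∈ K from hk), Set.indicator_of_mem]
      simp [hk]
    · rw [Set.indicator_of_notMem (show k ∉ K from hk), Set.indicator_of_notMem]
      simpa using hk
  have e2 : ∀ y : G, ∫ k in K, f k y ∂μ = ξ y * (starRingEnd ℂ) (H ((π g)⁻¹ * π y)) := by
    intro y
    simp only [hf]
    rw [integral_const_mul, integral_conj, ← map_inv, ← map_mul, ← e1]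
    congr 2
    refine setIntegral_congr_fun hKo.measurableSet (fun k hk => ?_)
    show ξ ((g * k)⁻¹ * y) = ξ (g⁻¹ * y * k)
    rw [mul_inv_rev, mul_assoc, hcen k hk]
  have e3 : ∫ k in K, cof ξ (g * k) ∂μ = ∫ y, ξ y * (starRingEnd ℂ) (H ((π g)⁻¹ * π y)) ∂μ := by
    have := integral_integral_swap hi
    simp only [e2] at this
    exact this
  have hi2 : Integrable (fun y => ξ y * (starRingEnd ℂ) (H ((π g)⁻¹ * π y))) μ := by
    have := hi.integral_prod_right
    simp only [Function.uncurry, e2] at this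
    exact this
  have hU : (⋃ q : P, π ⁻¹' {q}) = Set.univ := by
    ext x
    simp
  have h3 := hasSum_integral_iUnion (μ := μ) (s := fun q : P => π ⁻¹' {q})
    (f := fun y => ξ y * (starRingEnd ℂ) (H ((π g)⁻¹ * π y)))
    (fun q => (open_fib π hKo hπ q).measurableSet)
    (fun q q' h => Set.disjoint_left.2 (fun x h1 h2 => h (h1.symm.trans h2)))
    hi2.integrableOn
  rw [hU, Measure.restrict_univ, ← e3] at h3
  have e4 : ∀ q : P, ∫ x in π ⁻¹' {q}, ξ x * (starRingEnd ℂ) (H ((π g)⁻¹ * π x)) ∂μ =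
      H q * (starRingEnd ℂ) (H ((π g)⁻¹ * q)) := by
    intro q
    rw [← integral_mul_const]
    refine setIntegral_congr_fun (open_fib π hKo hπ q).measurableSet (fun y hy => ?_)
    show ξ y * (starRingEnd ℂ) (H ((π g)⁻¹ * π y)) = _
    rw [show π y = q from hy]
  simp only [e4] at h3
  exact h3

/-- The upper bound for the averaged coefficients. -/
lemma upper_avg [Countable P] (hπ : Function.Surjective π) (hKc : IsCompact {g | π g = 1})
    (hKo : IsOpen {g | π g = 1}) (hcen : ∀ k, π k = 1 → ∀ g, k⁻¹ * g = g * k)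
    {I : Type} [Fintype I] (gen : I → G) (coef : I → ℝ) (D' : ℝ) (h0 : 0 ≤ D')
    (hU : ∀ (A : Finset P) (ζ : P → ℝ), (∀ y, y ∉ A → ζ y = 0) →
      ∑ i, coef i * ∑ y ∈ A, ζ y * ζ (y * π (gen i)) ≤ D' * ∑ y ∈ A, ζ y ^ 2)
    (ξ : G → ℂ) (hξ : MemLp ξ 2 (Measure.haar : Measure G)) :
    (∀ g, IntegrableOn (fun k => cof ξ (g * k)) {g | π g = 1} Measure.haar) ∧
    ∑ i, coef i * (∫ k in {g | π g = 1}, cof ξ (gen i * k) ∂Measure.haar).re ≤
      D' * (∫ k in {g | π g = 1}, cof ξ (1 * k) ∂Measure.haar).re := by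
  have hc : cof ξ = cof (hξ.1.mk ξ) := by
    funext x
    unfold cof
    apply integral_congr_ae
    have h1 := hξ.1.ae_eq_mk
    have h2 := (measurePreserving_mul_left (Measure.haar : Measure G)
      x⁻¹).quasiMeasurePreserving.ae_eq_comp h1
    filter_upwards [h1, h2] with y e1 e2
    simp only [Function.comp] at e2
    rw [e1, e2]
  rw [hc]
  have hav := avg π hπ hKc hKo hcen (hξ.1.mk ξ) hξ.1.stronglyMeasurable_mk
    (hξ.ae_eq hξ.1.ae_eq_mk)
  refine ⟨fun g => (hav g).1, ?_⟩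
  set H : P → ℂ := fun q => ∫ y in π ⁻¹' {q}, hξ.1.mk ξ y ∂Measure.haar with hH
  set Ψ : G → ℂ := fun g => ∫ k in {g | π g = 1}, cof (hξ.1.mk ξ) (g * k) ∂Measure.haar with hΨ
  set a : P → ℝ := fun y => (H y⁻¹).re with ha
  set b : P → ℝ := fun y => (H y⁻¹).im with hb
  have h1 : ∀ g, HasSum (fun y => a y * a (y * π g) + b y * b (y * π g)) (Ψ g).re := by
    intro g
    have h2 := (Equiv.inv P).hasSum_iff.2 (Complex.hasSum_re (hav g).2)
    convert h2 using 2 with y
    simp [ha, hb, hH]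
  have h2 : Summable (fun y => a y ^ 2 + b y ^ 2) := by
    have := (h1 1).summable
    simpa [pow_two] using this
  have h3 : Summable (fun y => a y ^ 2) :=
    h2.of_nonneg_of_le (fun y => sq_nonneg _) (fun y => by nlinarith [sq_nonneg (b y)])
  have h4 : Summable (fun y => b y ^ 2) :=
    h2.of_nonneg_of_le (fun y => sq_nonneg _) (fun y => by nlinarith [sq_nonneg (a y)])
  have h5 : ∀ (c : P → ℝ), Summable (fun y => c y ^ 2) → ∀ q, Summable (fun y => c y * c (y * q)) := by
    intro c hc q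
    refine Summable.of_norm_bounded (g := fun y => c y ^ 2 + c (y * q) ^ 2)
      (hc.add (hc.comp_injective (mul_left_injective q))) (fun y => ?_)
    rw [Real.norm_eq_abs, abs_le]
    constructor <;> nlinarith [sq_nonneg (c y - c (y * q)), sq_nonneg (c y + c (y * q))]
  have h6 : ∀ g, (Ψ g).re = ∑' y, a y * a (y * π g) + ∑' y, b y * b (y * π g) := by
    intro g
    rw [← (h1 g).tsum_eq, (h5 a h3 _).tsum_add (h5 b h4 _)]
  have h7 := ext_l2 (fun i y => y * π (gen i)) (fun i => mul_left_injective _) coef D' h0 hU a h3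
  have h8 := ext_l2 (fun i y => y * π (gen i)) (fun i => mul_left_injective _) coef D' h0 hU b h4
  show ∑ i, coef i * (Ψ (gen i)).re ≤ D' * (Ψ 1).re
  simp only [h6, mul_add, Finset.sum_add_distrib, map_one, mul_one, ← pow_two]
  exact add_le_add h7 h8

omit [SecondCountableTopology G] in
/-- The test vectors give coefficients of the regular representation. -/
lemma test_vec (hπ : Function.Surjective π) (hKc : IsCompact {g | π g = 1})
    (hKo : IsOpen {g | π g = 1}) {I : Type} [Fintype I] (gen : I → G) (coef : I → ℝ) (D : ℝ)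
    (χ : G → ℝ) (ζ : G → ℝ) (hc : Continuous ζ) (hχ : ∀ g k, π k = 1 → ζ (g * k) = χ k * ζ g)
    (A : Finset P) (hA : A.Nonempty) (h0 : ∀ g, π g ∉ A → ζ g = 0)
    (h1 : ∀ g, π g ∈ A → ζ g ^ 2 = 1 ∧ ∑ i, coef i * (ζ g * ζ (g * gen i)) = D) :
    ∃ r : G → ℝ, (∃ ξ : G → ℂ, MemLp ξ 2 (Measure.haar : Measure G) ∧ ∀ x, (r x : ℂ) = cof ξ x) ∧
      (∀ x, |r x| ≤ 1) ∧ r 1 = 1 ∧ (∀ g k, π k = 1 → r (g * k) = χ k * r g) ∧
      ∑ i, coef i * r (gen i) = D := by
  set μ : Measure G := Measure.haar with hμ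
  set B : Set G := ⋃ q ∈ A, π ⁻¹' {q⁻¹} with hB
  have mB : ∀ y, y ∈ B ↔ π y⁻¹ ∈ A := by
    intro y
    simp only [hB, Set.mem_iUnion, Set.mem_preimage, Set.mem_singleton_iff, map_inv]
    constructor
    · rintro ⟨q, hq, h⟩
      rw [h, inv_inv]
      exact hq
    · intro h
      exact ⟨_, h, (inv_inv _).symm⟩
  have hBc : IsCompact B := A.isCompact_biUnion (fun q _ => compact_fib π hKc hπ _)
  have hBo : IsOpen B := isOpen_biUnion (fun q _ => open_fib π hKo hπ _)
  have hBn : B.Nonempty := by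
    obtain ⟨q, hq⟩ := hA
    obtain ⟨z, rfl⟩ := hπ q
    exact ⟨z⁻¹, (mB _).2 (by rwa [inv_inv])⟩
  have hc0 : 0 < μ.real B :=
    ENNReal.toReal_pos (hBo.measure_pos μ hBn).ne' hBc.measure_lt_top.ne
  set c := μ.real B with hcdef
  have hζ1 : ∀ g, |ζ g| ≤ 1 := by
    intro g
    by_cases h : π g ∈ A
    · have := (h1 g h).1
      exact (sq_le_one_iff_abs_le_one _).1 this.le
    · rw [h0 g h]; simp
  have hz : ∀ y, y ∉ B → ζ y⁻¹ = 0 := fun y hy => h0 _ (fun h => hy ((mB y).2 h))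
  have hint : ∀ x, Integrable (fun y => ζ y⁻¹ * ζ (y⁻¹ * x)) μ := by
    intro x
    refine Continuous.integrable_of_hasCompactSupport (by fun_prop) ?_
    exact HasCompactSupport.intro hBc (fun y hy => by rw [hz y hy, zero_mul])
  have hset : ∀ (F : G → ℝ) (d : ℝ), (∀ y, y ∉ B → F y = 0) → (∀ y ∈ B, F y = d) →
      ∫ y, F y ∂μ = d * c := by
    intro F d e1 e2
    rw [← setIntegral_eq_integral_of_forall_compl_eq_zero e1,
      setIntegral_congr_fun hBo.measurableSet e2, setIntegral_const, smul_eq_mul, mul_comm]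
  refine ⟨fun x => (∫ y, ζ y⁻¹ * ζ (y⁻¹ * x) ∂μ) / c,
    ⟨fun y => ((ζ y⁻¹ / √c : ℝ) : ℂ), ?_, ?_⟩, ?_, ?_, ?_, ?_⟩
  · refine Continuous.memLp_of_hasCompactSupport (by fun_prop) ?_
    exact HasCompactSupport.intro hBc (fun y hy => by rw [hz y hy]; simp)
  · intro x
    unfold cof
    simp only
    rw [← integral_div, ← integral_complex_ofReal]
    congr 1
    funext y
    rw [Complex.conj_ofReal, ← Complex.ofReal_mul, mul_inv_rev, inv_inv, div_mul_div_comm,
      Real.mul_self_sqrt hc0.le]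
  · intro x
    rw [abs_div, abs_of_pos hc0, div_le_one hc0,
      ← setIntegral_eq_integral_of_forall_compl_eq_zero (s := B)
        (fun y hy => by rw [hz y hy, zero_mul])]
    have := norm_setIntegral_le_of_norm_le_const (μ := μ) (s := B) (C := 1)
      (f := fun y => ζ y⁻¹ * ζ (y⁻¹ * x)) hBc.measure_lt_top (fun y _ => by
        rw [Real.norm_eq_abs, abs_mul]
        exact mul_le_one₀ (hζ1 _) (abs_nonneg _) (hζ1 _))
    rw [one_mul] at this
    exact this
  · simp only
    rw [hset _ 1 (fun y hy => by rw [hz y hy, zero_mul])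
      (fun y hy => by rw [mul_one, ← pow_two]; exact (h1 _ ((mB y).1 hy)).1), one_mul,
      div_self hc0.ne']
  · intro g k hk
    simp only [← mul_assoc, hχ _ k hk]
    rw [← mul_div_assoc, ← integral_const_mul]
    congr 2
    funext y
    ring
  · simp only [← mul_div_assoc, ← integral_const_mul]
    rw [← Finset.sum_div, ← integral_finsetSum _ (fun i _ => (hint _).const_mul _),
      hset _ D (fun y hy => by simp [hz y hy]) (fun y hy => (h1 _ ((mB y).1 hy)).2),
      mul_div_assoc, div_self hc0.ne', mul_one]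

omit [SecondCountableTopology G] in
/-- The limit function. -/
lemma limit_fun (hKo : IsOpen {g | π g = 1}) {I : Type} [Fintype I] (gen : I → G) (coef : I → ℝ)
    (D : ℝ) (cf : ℕ → G → ZMod 2)
    (hL : ∀ n m, n < m → ∃ r : G → ℝ, (∃ ξ : G → ℂ, MemLp ξ 2 (Measure.haar : Measure G) ∧
      ∀ x, (r x : ℂ) = cof ξ x) ∧ (∀ x, |r x| ≤ 1) ∧ r 1 = 1 ∧
      (∀ g k, π k = 1 → r (g * k) = sg2 (cf n k + cf m k) * r g) ∧ ∑ i, coef i * r (gen i) = D) :
    ∃ φ : G → ℝ, Continuous φ ∧ (fun x => (φ x : ℂ)) ∈ closure {ψ : G → ℂ | ∃ ξ : G → ℂ,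
      MemLp ξ 2 (Measure.haar : Measure G) ∧ ∀ x, ψ x = cof ξ x} ∧ φ 1 = 1 ∧
      (∀ g k, π k = 1 → φ (g * k) = φ g) ∧ ∑ i, coef i * φ (gen i) = D := by
  choose! r h1 h2 h3 h4 h5 using hL
  have hev : ∀ n, ∀ᶠ m in (hyperfilter ℕ : Filter ℕ), n < m := fun n =>
    Nat.hyperfilter_le_atTop (eventually_gt_atTop n)
  choose a ha1 ha2 using fun n => ulim (r n) ((hev n).mono (fun m hm => h2 n m hm))
  obtain ⟨φ, -, hφ⟩ := ulim a (Eventually.of_forall ha1)
  have hu : ∀ k, ∃ u : ZMod 2, ∀ᶠ m in (hyperfilter ℕ : Filter ℕ), cf m k = u := by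
    intro k
    rcases (hyperfilter ℕ).em (fun m => cf m k = 0) with h | h
    · exact ⟨0, h⟩
    · have h' : ∀ z : ZMod 2, ¬ z = 0 → z = 1 := by decide
      exact ⟨1, h.mono (fun m hm => h' _ hm)⟩
  have hcont : Continuous (fun (f : G → ℝ) (x : G) => (f x : ℂ)) := by fun_prop
  have hinv : ∀ g k, π k = 1 → φ (g * k) = φ g := by
    intro g k hk
    obtain ⟨u, hu⟩ := hu k
    have e1 : ∀ n, a n (g * k) = sg2 (cf n k + u) * a n g := by
      intro n
      refine tendsto_nhds_unique (tendsto_pi_nhds.1 (ha2 n) (g * k)) ?_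
      refine ((tendsto_pi_nhds.1 (ha2 n) g).const_mul _).congr' ?_
      filter_upwards [hev n, hu] with m hm hm'
      rw [h4 n m hm g k hk, hm']
    refine tendsto_nhds_unique (tendsto_pi_nhds.1 hφ (g * k)) ?_
    refine (tendsto_pi_nhds.1 hφ g).congr' ?_
    filter_upwards [hu] with n hn
    rw [e1, hn, sg2_add, sg2_sq, one_mul]
  have lim : ∀ (F : (G → ℝ) → ℝ) (d : ℝ), Continuous F → (∀ n m, n < m → F (r n m) = d) →
      F φ = d := by
    intro F d hF h
    have e1 : ∀ n, F (a n) = d := by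
      intro n
      refine tendsto_nhds_unique ((hF.tendsto _).comp (ha2 n)) (tendsto_const_nhds.congr' ?_)
      filter_upwards [hev n] with m hm
      exact (h n m hm).symm
    refine tendsto_nhds_unique ((hF.tendsto _).comp hφ) (tendsto_const_nhds.congr' ?_)
    exact Eventually.of_forall (fun n => (e1 n).symm)
  refine ⟨φ, ?_, ?_, lim (fun f => f 1) 1 (by fun_prop) h3, hinv,
    lim (fun f => ∑ i, coef i * f (gen i)) D (by fun_prop) h5⟩
  · rw [continuous_iff_continuousAt]
    intro g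
    refine (continuousAt_const (y := φ g)).congr ?_
    have ho : IsOpen ((fun x => g⁻¹ * x) ⁻¹' {g | π g = 1}) := hKo.preimage (by fun_prop)
    filter_upwards [ho.mem_nhds (x := g) (by simp)] with x hx
    rw [← hinv g (g⁻¹ * x) hx, mul_inv_cancel_left]
  · refine isClosed_closure.mem_of_tendsto ((hcont.tendsto _).comp hφ)
      (Eventually.of_forall (fun n => ?_))
    refine mem_closure_of_tendsto ((hcont.tendsto _).comp (ha2 n)) ?_
    filter_upwards [hev n] with m hm
    exact h1 n m hm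

omit [SecondCountableTopology G] in
/-- A function with the averaged upper bound is far from the limit function. -/
lemma far (hKc : IsCompact {g | π g = 1}) (hKo : IsOpen {g | π g = 1})
    {I : Type} [Fintype I] (gen : I → G) (coef : I → ℝ) (D D' : ℝ) (h0 : 0 ≤ D') (hD : D' < D)
    (φ : G → ℝ) (h1 : φ 1 = 1) (h2 : ∀ g k, π k = 1 → φ (g * k) = φ g)
    (h3 : ∑ i, coef i * φ (gen i) = D) :
    ∃ C : Set G, IsCompact C ∧ ∃ ε : ℝ, 0 < ε ∧ ∀ ψ : G → ℂ,
      (∀ g, IntegrableOn (fun k => ψ (g * k)) {g | π g = 1} Measure.haar) →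
      ∑ i, coef i * (∫ k in {g | π g = 1}, ψ (gen i * k) ∂Measure.haar).re ≤
        D' * (∫ k in {g | π g = 1}, ψ (1 * k) ∂Measure.haar).re →
      ¬ ∀ x ∈ C, ‖(φ x : ℂ) - ψ x‖ < ε := by
  set μ : Measure G := Measure.haar with hμ
  set K : Set G := {g | π g = 1} with hK
  set M : ℝ := ∑ i, |coef i| with hM
  have hM0 : 0 ≤ M := Finset.sum_nonneg (fun i _ => abs_nonneg _)
  have hc0 : 0 < μ.real K :=
    ENNReal.toReal_pos (hKo.measure_pos μ ⟨1, map_one π⟩).ne' hKc.measure_lt_top.ne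
  set c := μ.real K with hc
  set ε : ℝ := (D - D') / (M + D' + 1) with hε
  have hε0 : 0 < ε := div_pos (by linarith) (by linarith)
  have hε1 : ε * (M + D' + 1) = D - D' := div_mul_cancel₀ _ (by linarith)
  refine ⟨K ∪ ⋃ i, (fun k => gen i * k) '' K,
    hKc.union (isCompact_iUnion (fun i => hKc.image (by fun_prop))), ε, hε0, ?_⟩
  intro ψ hi hU h
  have key : ∀ g, (∀ k ∈ K, ‖(φ (g * k) : ℂ) - ψ (g * k)‖ < ε) →
      |(∫ k in K, ψ (g * k) ∂μ).re - c * φ g| ≤ ε * c := by
    intro g hg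
    have e1 := norm_setIntegral_le_of_norm_le_const (μ := μ) (s := K) (C := ε)
      (f := fun k => ψ (g * k) - (φ g : ℂ)) hKc.measure_lt_top (fun k hk => by
        rw [norm_sub_rev, ← h2 g k hk]
        exact (hg k hk).le)
    rw [integral_sub (hi g) (integrableOn_const hKc.measure_lt_top.ne), setIntegral_const] at e1
    have e2 := (Complex.abs_re_le_norm _).trans e1
    simpa using e2
  have k1 := key 1 (fun k hk => h _ (Or.inl (by rwa [one_mul])))
  have k2 : ∀ i, |(∫ k in K, ψ (gen i * k) ∂μ).re - c * φ (gen i)| ≤ ε * c := fun i =>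
    key _ (fun k hk => h _ (Or.inr (Set.mem_iUnion.2 ⟨i, k, hk, rfl⟩)))
  have k3 : ∀ i, c * (coef i * φ (gen i)) - ε * c * |coef i| ≤
      coef i * (∫ k in K, ψ (gen i * k) ∂μ).re := by
    intro i
    have e1 := mul_le_mul_of_nonneg_left (k2 i) (abs_nonneg (coef i))
    rw [← abs_mul] at e1
    have e2 := (abs_le.1 e1).1
    nlinarith
  have k4 := Finset.sum_le_sum (fun i (_ : i ∈ Finset.univ) => k3 i)
  rw [Finset.sum_sub_distrib, ← Finset.mul_sum, ← Finset.mul_sum, h3, ← hM] at k4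
  rw [h1] at k1
  have k5 := mul_le_mul_of_nonneg_left (abs_le.1 k1).2 h0
  have k6 : c * (D - D') ≤ c * (ε * (M + D')) := by nlinarith
  have k7 := le_of_mul_le_mul_left k6 hc0
  nlinarith

end Group

end Pool.Agent.H818Z
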