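import Pool.Agent.H818Z.Geo

/-!
The density of unfrustrated edges in the Cayley graph.
-/

namespace Pool.Agent.H818Z

open Pool.Agent.H17R2
open FreeGroup hiding map_mul map_inv map_one

namespace Sys

variable {V J S : Type} (X : Sys V J S) [DecidableEq S] [Nonempty V]

/-- The position of an element of the group in the graph. -/
noncomputable def pos (x : X.Q) : V := Classical.epsilon (fun v => X.Deep (X.om x) v 0)

lemma pos_eq {x : X.Q} {v : V} (h : X.Deep (X.om x) v 0) : X.pos x = v :=
  (Classical.epsilon_spec (p := fun v => X.Deep (X.om x) v 0) ⟨v, h⟩).uniq h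

/-- A representative of the connected component. -/
noncomputable def rep (v : V) : V := Classical.epsilon (fun r => ∃ u, X.Reach r u v)

omit [DecidableEq S] in
lemma rep_spec (v : V) : ∃ u, X.Reach (X.rep v) u v :=
  Classical.epsilon_spec (p := fun r => ∃ u, X.Reach r u v) ⟨v, 1, Reach.refl v⟩

omit [DecidableEq S] in
lemma rep_nb (j : J) (v : V) : X.rep (X.nb j v) = X.rep v := by
  unfold rep
  congr 1
  funext r
  apply propext
  constructor
  · rintro ⟨u, hu⟩
    exact ⟨_, hu.trans (Reach.step v j).symm⟩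
  · rintro ⟨u, hu⟩
    exact ⟨_, hu.trans (Reach.step v j)⟩

/-- A path from the representative. -/
noncomputable def pth (v : V) : FreeGroup S := (X.rep_spec v).choose

omit [DecidableEq S] in
lemma pth_spec (v : V) : X.Reach (X.rep v) (X.pth v) v := (X.rep_spec v).choose_spec

omit [DecidableEq S] in
lemma pr_pth_nb (j : J) (v : V) :
    X.pr (X.pth (X.nb j v)) = X.pr (X.pth v) * X.pr (el (X.lt v j)) := by
  have h1 := X.pth_spec (X.nb j v)
  rw [rep_nb] at h1
  have h2 := (X.pth_spec v).trans (Reach.step v j)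
  have h3 := X.pr_reach (h1.trans h2.symm)
  rw [map_mul, map_inv, mul_inv_eq_one, map_mul] at h3
  exact h3

/-- The copy of the graph to which an element of the group belongs. -/
noncomputable def cls (x : X.Q) : V × X.Q := (X.rep (X.pos x), x * (X.pr (X.pth (X.pos x)))⁻¹)

lemma T2_spec {x : X.Q} {a : S × Bool} (h : X.T2 x a) :
    a = X.lt (X.pos x) (X.ty a.1) ∧ X.pos (x * X.pr (el a)) = X.nb (X.ty a.1) (X.pos x) ∧
      X.cls (x * X.pr (el a)) = X.cls x := by
  obtain ⟨v, h1, h2, h3⟩ := h
  have e1 := X.pos_eq h1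
  have e2 := X.pos_eq h3
  refine ⟨e1 ▸ h2, e1 ▸ e2, ?_⟩
  unfold cls
  rw [e1, e2, rep_nb, pr_pth_nb, ← h2]
  congr 1
  group

lemma eq_of_cls (x : X.Q) : x = (X.cls x).2 * X.pr (X.pth (X.pos x)) := by
  simp [cls]

open Classical in
theorem dens [Fintype J] [Fintype S] (κ : ℕ)
    (hd : ∀ (W : Finset V) (τ : V → ZMod 2), (∀ v ∈ W, ∀ v' ∈ W, X.lev v = X.lev v') →
      ((W ×ˢ (Finset.univ : Finset J)).filter (fun p => X.nb p.2 p.1 ∈ W ∧
        X.sgn (X.lt p.1 p.2).1 + τ p.1 + τ (X.nb p.2 p.1) = 0)).card ≤ κ * W.card)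
    (A : Finset X.Q) (τ : X.Q → ZMod 2) :
    ((A ×ˢ (Finset.univ : Finset (S × Bool))).filter (fun p => p.1 * X.pr (el p.2) ∈ A ∧
      X.sgn p.2.1 + τ p.1 + τ (p.1 * X.pr (el p.2)) = 0)).card ≤ (2 + κ) * A.card := by
  set P := (A ×ˢ (Finset.univ : Finset (S × Bool))).filter (fun p => p.1 * X.pr (el p.2) ∈ A ∧
      X.sgn p.2.1 + τ p.1 + τ (p.1 * X.pr (el p.2)) = 0) with hP
  have memP : ∀ p ∈ P, p.1 ∈ A ∧ p.1 * X.pr (el p.2) ∈ A ∧
      X.sgn p.2.1 + τ p.1 + τ (p.1 * X.pr (el p.2)) = 0 := by
    intro p hp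
    rw [hP, Finset.mem_filter, Finset.mem_product] at hp
    exact ⟨hp.1.1, hp.2.1, hp.2.2⟩
  have hsplit := Finset.card_filter_add_card_filter_not (s := P) (fun p => X.T2 p.1 p.2)
  have h1 : (P.filter (fun p => ¬ X.T2 p.1 p.2)).card ≤ 2 * A.card := by
    have : (P.filter (fun p => ¬ X.T2 p.1 p.2)).card ≤
        (A ×ˢ (Finset.univ : Finset Bool)).card := by
      apply Finset.card_le_card_of_injOn
        (fun p => if X.Down p.1 p.2 then (p.1, true) else (p.1 * X.pr (el p.2), false))
      · intro p hp
        have hp' := memP p (Finset.mem_filter.1 hp).1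
        simp only [Finset.coe_product, Finset.coe_univ, Set.mem_prod, Finset.mem_coe, Set.mem_univ,
          and_true]
        split_ifs
        · exact hp'.1
        · exact hp'.2.1
      · rintro ⟨x, a⟩ hp ⟨x', a'⟩ hp' he
        have n1 : ¬ X.T2 x a := (Finset.mem_filter.1 hp).2
        have n2 : ¬ X.T2 x' a' := (Finset.mem_filter.1 hp').2
        simp only at he
        by_cases d1 : X.Down x a <;> by_cases d2 : X.Down x' a'
        · rw [if_pos d1, if_pos d2] at he
          have e : x = x' := congrArg Prod.fst he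
          subst e
          by_contra hne
          have : a ≠ a' := fun h => hne (by rw [h])
          exact n1 (X.down_T2 d1 d2 this)
        · rw [if_pos d1, if_neg d2] at he
          exact absurd (congrArg Prod.snd he) (by simp)
        · rw [if_neg d1, if_pos d2] at he
          exact absurd (congrArg Prod.snd he) (by simp)
        · rw [if_neg d1, if_neg d2] at he
          have e : x * X.pr (el a) = x' * X.pr (el a') := congrArg Prod.fst he
          have u1 := (X.down_or x a).resolve_left d1
          have u2 := (X.down_or x' a').resolve_left d2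
          rw [← e] at u2
          have e2 : bar a = bar a' := by
            by_contra hne
            exact n1 (X.T2_symm (X.down_T2 u1 u2 hne))
          have e3 : a = a' := by rw [← bar_bar a, e2, bar_bar]
          subst e3
          rw [mul_right_cancel e]
    rw [Finset.card_product, Finset.card_univ, Fintype.card_bool] at this
    omega
  have h2 : (P.filter (fun p => X.T2 p.1 p.2)).card ≤ κ * A.card := by
    have e1 : (P.filter (fun p => X.T2 p.1 p.2)).card = ∑ c ∈ A.image X.cls,
        ((P.filter (fun p => X.T2 p.1 p.2)).filter (fun p => X.cls p.1 = c)).card := by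
      apply Finset.card_eq_sum_card_fiberwise
      intro p hp
      exact Finset.mem_image_of_mem _ (memP p (Finset.mem_filter.1 hp).1).1
    have e2 : A.card = ∑ c ∈ A.image X.cls, (A.filter (fun x => X.cls x = c)).card := by
      apply Finset.card_eq_sum_card_fiberwise
      intro x hx
      exact Finset.mem_image_of_mem _ hx
    rw [e1, e2, Finset.mul_sum]
    apply Finset.sum_le_sum
    intro c _
    set W := (A.filter (fun x => X.cls x = c)).image X.pos with hW
    have hWc : W.card ≤ (A.filter (fun x => X.cls x = c)).card := Finset.card_image_le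
    have hlev : ∀ v ∈ W, X.lev v = X.lev c.1 := by
      intro v hv
      obtain ⟨x, hx, rfl⟩ := Finset.mem_image.1 hv
      rw [← (Finset.mem_filter.1 hx).2]
      exact (X.pth_spec (X.pos x)).lev
    have h3 := hd W (fun v => τ (c.2 * X.pr (X.pth v)))
      (fun v hv v' hv' => (hlev v hv).trans (hlev v' hv').symm)
    refine le_trans ?_ (h3.trans (Nat.mul_le_mul_left _ hWc))
    apply Finset.card_le_card_of_injOn (fun p => (X.pos p.1, X.ty p.2.1))
    · rintro ⟨x, a⟩ hp
      have hp1 := Finset.mem_filter.1 hp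
      have hp2 := Finset.mem_filter.1 hp1.1
      obtain ⟨m1, m2, m3⟩ := memP _ hp2.1
      obtain ⟨s1, s2, s3⟩ := X.T2_spec hp2.2
      have hc : X.cls x = c := hp1.2
      simp only at m1 m2 m3 s1 s2 s3
      simp only [Finset.coe_filter, Finset.mem_product, Finset.mem_univ, and_true,
        Set.mem_ofPred_eq]
      refine ⟨Finset.mem_image_of_mem _ (Finset.mem_filter.2 ⟨m1, hc⟩), ?_, ?_⟩
      · rw [← s2]
        exact Finset.mem_image_of_mem _ (Finset.mem_filter.2 ⟨m2, s3.trans hc⟩)
      · rw [← s1, ← s2, ← hc, ← X.eq_of_cls x, ← s3, ← X.eq_of_cls]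
        exact m3
    · rintro ⟨x, a⟩ hp ⟨x', a'⟩ hp' he
      have hp1 := Finset.mem_filter.1 hp
      have hp2 := Finset.mem_filter.1 hp1.1
      have hp1' := Finset.mem_filter.1 hp'
      have hp2' := Finset.mem_filter.1 hp1'.1
      obtain ⟨s1, -, -⟩ := X.T2_spec hp2.2
      obtain ⟨s1', -, -⟩ := X.T2_spec hp2'.2
      have hc : X.cls x = c := hp1.2
      have hc' : X.cls x' = c := hp1'.2
      have q1 : X.pos x = X.pos x' := congrArg Prod.fst he
      have q2 : X.ty a.1 = X.ty a'.1 := congrArg Prod.snd he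
      simp only at s1 s1'
      have q3 : x = x' := by rw [X.eq_of_cls x, X.eq_of_cls x', hc, hc', q1]
      have q4 : a = a' := by rw [s1, s1', q1, q2]
      rw [q3, q4]
  rw [← hsplit]
  nlinarith

end Sys

end Pool.Agent.H818Z
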