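import Mathlib

/-!
The Fourier algebra, positive definite functions, the reduced Fourier-Stieltjes algebra, the
Eberlein property, and amenability.
-/

namespace Pool.Agent.H818Z.Eb

open MeasureTheory

universe u

section

variable (G : Type) [Group G] [TopologicalSpace G] [IsTopologicalGroup G] [LocallyCompactSpace G]
  [MeasurableSpace G] [BorelSpace G]

/-- The coefficient of the left regular representation: the inner product of `λ(x) ξ` and `η`. -/
noncomputable def lamCoef (ξ η : G → ℂ) (x : G) : ℂ :=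
  ∫ y, ξ (x⁻¹ * y) * (starRingEnd ℂ) (η y) ∂(Measure.haar : Measure G)

/-- The Fourier algebra `A(G)`. -/
def FourierAlg : Set (G → ℂ) :=
  {φ | ∃ ξ η : G → ℂ, MemLp ξ 2 (Measure.haar : Measure G) ∧ MemLp η 2 (Measure.haar : Measure G) ∧
    ∀ x, φ x = lamCoef G ξ η x}

/-- The continuous positive definite functions `P(G)`. -/
def PosDef : Set (G → ℂ) :=
  {φ | Continuous φ ∧ ∀ (n : ℕ) (x : Fin n → G) (c : Fin n → ℂ),
    (∑ i, ∑ j, c i * (starRingEnd ℂ) (c j) * φ ((x j)⁻¹ * x i)).im = 0 ∧
    0 ≤ (∑ i, ∑ j, c i * (starRingEnd ℂ) (c j) * φ ((x j)⁻¹ * x i)).re}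

/-- A unitary representation is weakly contained in the left regular representation: each of its
diagonal coefficients is a limit, uniformly on compact sets, of finite sums of diagonal
coefficients of the left regular representation. -/
def WeaklyContained {H : Type u} [NormedAddCommGroup H] [InnerProductSpace ℂ H]
    (ρ : G →* (H ≃ₗᵢ[ℂ] H)) : Prop :=
  ∀ (v : H) (K : Set G), IsCompact K → ∀ ε : ℝ, 0 < ε → ∃ (n : ℕ) (ξ : Fin n → G → ℂ),
    (∀ i, MemLp (ξ i) 2 (Measure.haar : Measure G)) ∧
    ∀ x ∈ K, ‖inner ℂ v (ρ x v) - ∑ i, lamCoef G (ξ i) (ξ i) x‖ < ε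

/-- The reduced Fourier-Stieltjes algebra `B_r(G)`: the coefficient functions of the continuous
unitary representations which are weakly contained in the left regular representation. -/
def ReducedFS : Set (G → ℂ) :=
  {φ | ∃ (H : Type u) (_ : NormedAddCommGroup H) (_ : InnerProductSpace ℂ H) (_ : CompleteSpace H)
    (ρ : G →* (H ≃ₗᵢ[ℂ] H)), (∀ v, Continuous (fun x => ρ x v)) ∧ WeaklyContained G ρ ∧
    ∃ v w : H, ∀ x, φ x = inner ℂ w (ρ x v)}

/-- `B_r(G)` is an Eberlein algebra on `G`. -/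
def IsEberlein : Prop :=
  ∀ φ : G → ℂ, Continuous φ → φ ∈ closure (FourierAlg G ∩ PosDef G) → φ ∈ ReducedFS.{u} G

end

/-- Amenability: there is a left invariant mean on the bounded continuous functions. -/
def Amenable (H : Type) [Group H] [TopologicalSpace H] : Prop :=
  ∃ m : BoundedContinuousFunction H ℝ →ₗ[ℝ] ℝ, (∀ f, (∀ x, 0 ≤ f x) → 0 ≤ m f) ∧ m 1 = 1 ∧
    ∀ (g : H) (f f' : BoundedContinuousFunction H ℝ), (∀ x, f' x = f (g * x)) → m f' = m f

end Pool.Agent.H818Z.Eb
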