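import Mathlib

/-!
Walks in edge-coloured graphs: `nb j v` is the neighbour of `v` along the edge of type `j`.
-/

namespace Pool.Agent.H818Z

/-- The end point of the walk from `v` along the list of types `l`. -/
def walk {V J : Type} (nb : J → V → V) : V → List J → V
  | v, [] => v
  | v, j :: l => walk nb (nb j v) l

/-- The labels of the vertices of a walk. -/
def labs {V J Λ : Type} (nb : J → V → V) (lab : V → Λ) : V → List J → List Λ
  | v, [] => [lab v]
  | v, j :: l => lab v :: labs nb lab (nb j v) l

/-- Non-backtracking lists of types. -/
def NB {J : Type} (l : List J) : Prop := l.IsChain (· ≠ ·)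

/-- There is no closed non-backtracking walk of length between `1` and `γ`. -/
def Girth {V J : Type} (nb : J → V → V) (γ : ℕ) : Prop :=
  ∀ v l, NB l → l ≠ [] → l.length ≤ γ → walk nb v l ≠ v

end Pool.Agent.H818Z
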