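import Mathlib
import Pool.Agent.H818Z.GDefs

/-!
A bipartite edge-coloured graph with large girth whose short label words determine the start.
-/

namespace Pool.Agent.H818Z

namespace GraphAux

section Abstract

variable {R : Type} [Ring R] {J : Type}

/-- Signed generator. -/
def sN (N : J → R) (b : Bool) (j : J) : R := if b then N j else -N j

/-- Coefficient sequence with constant term one. -/
def cf (g : ℕ) (c : Fin g → R) : ℕ → R
  | 0 => 1
  | i + 1 => if h : i < g then c ⟨i, h⟩ else 0

/-- The neighbour map. -/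
def nbR (N : J → R) (g : ℕ) (j : J) (v : (Fin g → R) × Bool) : (Fin g → R) × Bool :=
  (fun i => v.1 i + cf g v.1 i * sN N v.2 j, !v.2)

theorem sN_not (N : J → R) (b : Bool) (j : J) : sN N (!b) j = -sN N b j := by
  cases b <;> simp [sN]

theorem sN_sq (N : J → R) (hN : ∀ j, N j * N j = 0) (b b' : Bool) (j : J) :
    sN N b j * sN N b' j = 0 := by
  cases b <;> cases b' <;> simp [sN, hN]

theorem mul_sN_eq_zero (N : J → R) (A : R) (b : Bool) (j : J) :
    A * sN N b j = 0 ↔ A * N j = 0 := by
  cases b <;> simp [sN]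

theorem cf_zero (g : ℕ) (c : Fin g → R) : cf g c 0 = 1 := rfl

theorem cf_succ (g : ℕ) (c : Fin g → R) (i : Fin g) : cf g c (i + 1) = c i := by
  simp [cf, i.2]

theorem cf_nb (N : J → R) (g : ℕ) (j : J) (v : (Fin g → R) × Bool) (n : ℕ) (hn : n + 1 ≤ g) :
    cf g (nbR N g j v).1 (n + 1) = cf g v.1 (n + 1) + cf g v.1 n * sN N v.2 j := by
  have h : n < g := hn
  simp [cf, h, nbR]

theorem nb_nb (N : J → R) (hN : ∀ j, N j * N j = 0) (g : ℕ) (j : J) (v : (Fin g → R) × Bool) :
    nbR N g j (nbR N g j v) = v := by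
  have key : ∀ n, n ≤ g → cf g (nbR N g j v).1 n * sN N v.2 j = cf g v.1 n * sN N v.2 j := by
    intro n hn
    cases n with
    | zero => rfl
    | succ n =>
      rw [cf_nb N g j v n hn, add_mul, mul_assoc, sN_sq N hN, mul_zero, add_zero]
  apply Prod.ext
  · funext i
    have h1 : (nbR N g j (nbR N g j v)).1 i
        = (nbR N g j v).1 i + cf g (nbR N g j v).1 i * sN N (nbR N g j v).2 j := rfl
    have h2 : (nbR N g j v).2 = !v.2 := rfl
    have h3 : (nbR N g j v).1 i = v.1 i + cf g v.1 i * sN N v.2 j := rfl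
    rw [h1, h2, sN_not, mul_neg, key i i.2.le, h3]
    simp
  · simp [nbR]

open PowerSeries

/-- The product of the elementary factors along a list. -/
noncomputable def W (N : J → R) : Bool → List J → PowerSeries R
  | _, [] => 1
  | b, j :: l => (1 + X * C (sN N b j)) * W N (!b) l

/-- The top coefficient of `W`. -/
def P (N : J → R) : Bool → List J → R
  | _, [] => 1
  | b, j :: l => sN N b j * P N (!b) l

theorem coeff_step_succ (s : R) (F : PowerSeries R) (n : ℕ) :
    coeff (n + 1) ((1 + X * C s) * F) = coeff (n + 1) F + s * coeff n F := by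
  rw [add_mul, one_mul, map_add, mul_assoc, coeff_succ_X_mul, coeff_C_mul]

theorem coeff_step_zero (s : R) (F : PowerSeries R) :
    coeff 0 ((1 + X * C s) * F) = coeff 0 F := by
  rw [add_mul, one_mul, map_add, mul_assoc, coeff_zero_X_mul, add_zero]

theorem coeff_step_succ' (s : R) (F : PowerSeries R) (n : ℕ) :
    coeff (n + 1) (F * (1 + X * C s)) = coeff (n + 1) F + coeff n F * s := by
  rw [mul_add, mul_one, map_add, ← mul_assoc, coeff_mul_C, coeff_succ_mul_X]

theorem coeff_step_zero' (s : R) (F : PowerSeries R) :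
    coeff 0 (F * (1 + X * C s)) = coeff 0 F := by
  rw [mul_add, mul_one, map_add, ← mul_assoc, coeff_mul_C, coeff_zero_mul_X, zero_mul, add_zero]

theorem W_zero (N : J → R) (l : List J) : ∀ b, coeff 0 (W N b l) = 1 := by
  induction l with
  | nil => intro b; simp [W]
  | cons j l ih => intro b; rw [W, coeff_step_zero, ih]

theorem W_high (N : J → R) (l : List J) : ∀ b n, l.length < n → coeff n (W N b l) = 0 := by
  induction l with
  | nil =>
    intro b n hn
    have : n ≠ 0 := by simp at hn; omega
    simp [W, coeff_one, this]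
  | cons j l ih =>
    intro b n hn
    simp only [List.length_cons] at hn
    obtain ⟨m, rfl⟩ : ∃ m, n = m + 1 := ⟨n - 1, by omega⟩
    rw [W, coeff_step_succ, ih _ _ (by omega), ih _ _ (by omega)]
    simp

theorem W_top (N : J → R) (l : List J) : ∀ b, coeff l.length (W N b l) = P N b l := by
  induction l with
  | nil => intro b; simp [W, P]
  | cons j l ih =>
    intro b
    rw [List.length_cons, W, coeff_step_succ, W_high N l _ _ (by omega), ih, P, zero_add]

theorem P_ne (N : J → R) (hN : ∀ j, N j * N j = 0)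
    (hk : ∀ i j, i ≠ j → ∀ A : R, A * N i = 0 → A * N j = 0 → A = 0) (l : List J) :
    ∀ (j : J) (b : Bool) (A : R), NB (j :: l) → A * N j ≠ 0 → A * P N b (j :: l) ≠ 0 := by
  induction l with
  | nil =>
    intro j b A _ hA
    simpa [P, mul_sN_eq_zero] using hA
  | cons j' l ih =>
    intro j b A hl hA
    have hl' : j ≠ j' ∧ NB (j' :: l) := by
      unfold NB at hl ⊢
      simpa using hl
    rw [P, ← mul_assoc]
    apply ih j' (!b) _ hl'.2
    intro h0
    have h1 : A * sN N b j * N j = 0 := by
      rw [← mul_sN_eq_zero N _ b, mul_assoc, sN_sq N hN, mul_zero]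
    have := hk j j' hl'.1 _ h1 h0
    exact hA ((mul_sN_eq_zero N A b j).1 this)

theorem coeff_mul_congr (A B F : PowerSeries R) (n : ℕ)
    (h : ∀ m, m ≤ n → coeff m A = coeff m B) : coeff n (A * F) = coeff n (B * F) := by
  rw [coeff_mul, coeff_mul]
  apply Finset.sum_congr rfl
  intro p hp
  rw [h p.1 (by have := Finset.HasAntidiagonal.mem_antidiagonal.1 hp; omega)]

theorem walk_coeff (N : J → R) (g : ℕ) (l : List J) :
    ∀ (v : (Fin g → R) × Bool) (n : ℕ), n ≤ g →
      cf g (walk (nbR N g) v l).1 n = coeff n (mk (cf g v.1) * W N v.2 l) := by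
  induction l with
  | nil => intro v n _; simp [walk, W]
  | cons j l ih =>
    intro v n hn
    rw [walk, ih _ _ hn, W, ← mul_assoc]
    have h2 : (nbR N g j v).2 = !v.2 := rfl
    rw [h2]
    apply coeff_mul_congr
    intro m hm
    cases m with
    | zero => rw [coeff_step_zero', coeff_mk, coeff_mk]; rfl
    | succ m =>
      rw [coeff_step_succ', coeff_mk, coeff_mk, coeff_mk, cf_nb N g j v m (by omega)]

theorem cancel_aux (F G : PowerSeries R) (hF : coeff 0 F = 1) (_hG : coeff 0 G = 1) (g : ℕ)
    (h : ∀ n, n ≤ g → coeff n F = coeff n (F * G)) :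
    ∀ n, n + 1 ≤ g → coeff (n + 1) G = 0 := by
  have key : ∀ n, n ≤ g → coeff n (G - 1) = 0 := by
    intro n
    induction n using Nat.strong_induction_on with
    | _ n ih =>
      intro hn
      have h1 : coeff n (F * (G - 1)) = 0 := by
        rw [mul_sub, mul_one, map_sub, ← h n hn, sub_self]
      rw [coeff_mul, Finset.sum_eq_single (0, n)] at h1
      · simpa [hF] using h1
      · intro p hp hne
        have hp' := Finset.HasAntidiagonal.mem_antidiagonal.1 hp
        have : p.2 < n := by
          by_contra hc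
          apply hne
          ext <;> simp <;> omega
        rw [ih p.2 this (by omega), mul_zero]
      · intro hc
        exact absurd (Finset.HasAntidiagonal.mem_antidiagonal.2 (by simp)) hc
  intro n hn
  have := key (n + 1) hn
  simpa [coeff_one] using this

theorem girth (N : J → R) (hN : ∀ j, N j * N j = 0) (h0 : ∀ j, N j ≠ 0)
    (hk : ∀ i j, i ≠ j → ∀ A : R, A * N i = 0 → A * N j = 0 → A = 0) (g : ℕ) :
    Girth (nbR N g) g := by
  intro v l hl hne hlen hw
  have key : ∀ n, n + 1 ≤ g → coeff (n + 1) (W N v.2 l) = 0 := by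
    apply cancel_aux (mk (cf g v.1)) _ (by rw [coeff_mk]; rfl) (W_zero N l v.2) g
    intro n hn
    have h := walk_coeff N g l v n hn
    rw [hw] at h
    rw [coeff_mk, h]
  obtain ⟨j, l', rfl⟩ := List.exists_cons_of_ne_nil hne
  have h1 := key l'.length (by simpa using hlen)
  have h2 := W_top N (j :: l') v.2
  rw [List.length_cons, h1] at h2
  have h3 := P_ne N hN hk l' j v.2 1 hl (by simpa using h0 j)
  rw [one_mul] at h3
  exact h3 h2.symm

/-- The abstract form of the label argument. -/
theorem labels_abs (u q : ℕ) (hu : 1 ≤ u) (d : ℕ → ℕ → R) (e : ℕ → R)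
    (h0 : ∀ s, s ≤ 2 * u → d s 0 = 0)
    (hs : ∀ s i, s < 2 * u → i + 1 ≤ q * u → d (s + 1) (i + 1) = d s (i + 1) + d s i * e s)
    (he : ∀ s, s < 2 * u → e s * e s = 0)
    (hk : ∀ s, s + 1 < 2 * u → ∀ A : R, A * e s = 0 → A * e (s + 1) = 0 → A = 0)
    (hl : ∀ s r, s ≤ 2 * u → r < q → d s (u * (r + 1)) = 0) :
    ∀ i, i ≤ q * u → ∀ s, s ≤ 2 * u → d s i = 0 := by
  intro i
  induction i with
  | zero => intro _ s hs'; exact h0 s hs'
  | succ i ih =>
    intro hi
    have ih' := ih (by omega)
    have hconst : ∀ s, s ≤ 2 * u → d s (i + 1) = d 0 (i + 1) := by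
      intro s
      induction s with
      | zero => intro _; rfl
      | succ s ihs =>
        intro hs'
        rw [hs s i (by omega) hi, ih' s (by omega), zero_mul, add_zero, ihs (by omega)]
    set r := i / u with hr
    have hdm := Nat.div_add_mod i u
    have hmod := Nat.mod_lt i (show u > 0 by omega)
    have hrq : r < q := by
      rw [hr, Nat.div_lt_iff_lt_mul (by omega)]
      omega
    set m := u * (r + 1) with hm
    have hm1 : i + 1 ≤ m := by rw [hm, mul_add, mul_one, hr]; omega
    have hm2 : m ≤ i + u := by rw [hm, mul_add, mul_one, hr]; omega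
    have hm3 : m ≤ q * u := by rw [hm, mul_comm]; exact Nat.mul_le_mul_right u hrq
    have claim : ∀ ρ, ρ + (i + 1) ≤ m → ∀ s, ρ ≤ s → s + ρ ≤ 2 * u → d s (m - ρ) = 0 := by
      intro ρ
      induction ρ with
      | zero => intro _ s _ hs2; exact hl s r (by omega) hrq
      | succ ρ ihρ =>
        intro hρ s hs1 hs2
        have ihρ' := ihρ (by omega)
        obtain ⟨s', rfl⟩ : ∃ s', s = s' + 1 := ⟨s - 1, by omega⟩
        obtain ⟨k, hk'⟩ : ∃ k, m - (ρ + 1) = k + 1 := ⟨m - (ρ + 1) - 1, by omega⟩
        have hk2 : m - ρ = k + 1 + 1 := by omega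
        rw [hk2] at ihρ'
        rw [hk']
        have a1 : d (s' + 1) (k + 1) * e (s' + 1) = 0 := by
          have := hs (s' + 1) (k + 1) (by omega) (by omega)
          rw [ihρ' (s' + 1 + 1) (by omega) (by omega), ihρ' (s' + 1) (by omega) (by omega),
            zero_add] at this
          exact this.symm
        have a2 : d s' (k + 1) * e s' = 0 := by
          have := hs s' (k + 1) (by omega) (by omega)
          rw [ihρ' (s' + 1) (by omega) (by omega), ihρ' s' (by omega) (by omega),
            zero_add] at this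
          exact this.symm
        have a3 : d (s' + 1) (k + 1) * e s' = 0 := by
          rw [hs s' k (by omega) (by omega), add_mul, a2, mul_assoc, he s' (by omega), mul_zero,
            add_zero]
        exact hk s' (by omega) _ a3 a1
    have hz := claim (m - (i + 1)) (by omega) (m - (i + 1)) le_rfl (by omega)
    have hz2 : m - (m - (i + 1)) = i + 1 := by omega
    rw [hz2, hconst _ (by omega)] at hz
    intro s hs'
    rw [hconst s hs', hz]

end Abstract

section Lists

variable {V J Λ : Type}

theorem walk_take_succ (nb : J → V → V) (l : List J) :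
    ∀ (v : V) (s : ℕ) (h : s < l.length),
      walk nb v (l.take (s + 1)) = nb l[s] (walk nb v (l.take s)) := by
  induction l with
  | nil => intro v s h; simp at h
  | cons j l ih =>
    intro v s h
    cases s with
    | zero => simp [walk]
    | succ s =>
      simp only [List.take_succ_cons, walk, List.getElem_cons_succ]
      exact ih _ _ (by simpa using h)

theorem labs_eq (nb : J → V → V) (la : V → Λ) (l : List J) :
    ∀ (v v' : V), labs nb la v l = labs nb la v' l → ∀ s,
      la (walk nb v (l.take s)) = la (walk nb v' (l.take s)) := by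
  induction l with
  | nil => intro v v' h s; simpa [labs, walk] using h
  | cons j l ih =>
    intro v v' h s
    simp only [labs, List.cons.injEq] at h
    cases s with
    | zero => simpa [walk] using h.1
    | succ s =>
      simp only [List.take_succ_cons, walk]
      exact ih _ _ h.2 s

theorem par_eq (nb : J → V → V) (par : V → Bool) (hp : ∀ j v, par (nb j v) = !par v)
    (l : List J) :
    ∀ (v v' : V), par v = par v' → par (walk nb v l) = par (walk nb v' l) := by
  induction l with
  | nil => intro v v' h; exact h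
  | cons j l ih =>
    intro v v' h
    simp only [walk]
    apply ih
    rw [hp, hp, h]

end Lists

theorem labels {R : Type} [Ring R] {J : Type} (N : J → R) (hN : ∀ j, N j * N j = 0)
    (hk : ∀ i j, i ≠ j → ∀ A : R, A * N i = 0 → A * N j = 0 → A = 0) (u q : ℕ) (hu : 1 ≤ u)
    (v v' : (Fin (q * u) → R) × Bool) (l : List J) (hl : NB l) (hlen : l.length = 2 * u)
    (hpar : v.2 = v'.2)
    (hlab : labs (nbR N (q * u)) (fun w (r : Fin q) => cf (q * u) w.1 (u * (r + 1))) v l
      = labs (nbR N (q * u)) (fun w (r : Fin q) => cf (q * u) w.1 (u * (r + 1))) v' l) :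
    v = v' := by
  set x : ℕ → (Fin (q * u) → R) × Bool := fun s => walk (nbR N (q * u)) v (l.take s) with hx
  set y : ℕ → (Fin (q * u) → R) × Bool := fun s => walk (nbR N (q * u)) v' (l.take s) with hy
  have hxy : ∀ s, (x s).2 = (y s).2 := fun s =>
    par_eq (nbR N (q * u)) Prod.snd (fun _ _ => rfl) _ v v' hpar
  have key := labels_abs u q hu (fun s i => cf (q * u) (x s).1 i - cf (q * u) (y s).1 i)
    (fun s => if h : s < l.length then sN N (x s).2 l[s] else 0) ?_ ?_ ?_ ?_ ?_
  · apply Prod.ext _ hpar
    funext i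
    have := key (i + 1) i.2 0 (by omega)
    simp only [cf_succ, hx, hy, List.take_zero, walk] at this
    exact sub_eq_zero.1 this
  · intro s _
    simp [cf_zero]
  · intro s i hs hi
    have h : s < l.length := by omega
    have e1 : x (s + 1) = nbR N (q * u) l[s] (x s) := walk_take_succ _ l v s h
    have e2 : y (s + 1) = nbR N (q * u) l[s] (y s) := walk_take_succ _ l v' s h
    simp only [h, dif_pos]
    rw [e1, e2, cf_nb N _ _ _ i hi, cf_nb N _ _ _ i hi, ← hxy s, sub_mul]
    abel
  · intro s hs
    have h : s < l.length := by omega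
    simp only [h, dif_pos]
    exact sN_sq N hN _ _ _
  · intro s hs A h1 h2
    have h : s < l.length := by omega
    have h' : s + 1 < l.length := by omega
    simp only [h, h', dif_pos, mul_sN_eq_zero] at h1 h2
    exact hk _ _ (List.IsChain.getElem hl s h') A h1 h2
  · intro s r _ hr
    have := congrFun (labs_eq _ _ l v v' hlab s) ⟨r, hr⟩
    exact sub_eq_zero.2 this

instance prime2003 : Fact (Nat.Prime 2003) := ⟨by norm_num⟩

/-- The nilpotent matrices. -/
def NM (j : Fin 2000) : Matrix (Fin 2) (Fin 2) (ZMod 2003) :=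
  !![-((j : ℕ) : ZMod 2003), 1; -(((j : ℕ) : ZMod 2003) * ((j : ℕ) : ZMod 2003)),
    ((j : ℕ) : ZMod 2003)]

theorem NM_sq (j : Fin 2000) : NM j * NM j = 0 := by
  ext a b
  fin_cases a <;> fin_cases b <;> simp [NM, Matrix.mul_apply, Fin.sum_univ_two]
  ring

theorem NM_ne (j : Fin 2000) : NM j ≠ 0 := by
  intro h
  have := congrFun (congrFun h 0) 1
  simp [NM] at this

theorem NM_kill (i j : Fin 2000) (hij : i ≠ j) (A : Matrix (Fin 2) (Fin 2) (ZMod 2003))
    (h1 : A * NM i = 0) (h2 : A * NM j = 0) : A = 0 := by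
  have hne : ((i : ℕ) : ZMod 2003) ≠ ((j : ℕ) : ZMod 2003) := by
    intro h
    have := congrArg ZMod.val h
    rw [ZMod.val_cast_of_lt (by omega), ZMod.val_cast_of_lt (by omega)] at this
    exact hij (Fin.ext this)
  have row : ∀ r, A r 0 = 0 ∧ A r 1 = 0 := by
    intro r
    have a1 := congrFun (congrFun h1 r) 1
    have a2 := congrFun (congrFun h2 r) 1
    simp [NM, Matrix.mul_apply, Fin.sum_univ_two] at a1 a2
    have a3 : A r 1 * (((i : ℕ) : ZMod 2003) - ((j : ℕ) : ZMod 2003)) = 0 := by
      linear_combination a1 - a2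
    have a4 : A r 1 = 0 := (mul_eq_zero.1 a3).resolve_right (sub_ne_zero.2 hne)
    refine ⟨?_, a4⟩
    rw [a4] at a1
    simpa using a1
  ext r c
  fin_cases c
  · exact (row r).1
  · exact (row r).2

end GraphAux

open GraphAux in
theorem exists_graph (u : ℕ) (hu : 1 ≤ u) :
    ∃ (V : Type) (_ : Fintype V) (_ : DecidableEq V) (_ : Nonempty V) (nb : Fin 2000 → V → V)
      (par : V → Bool) (la : V → (Fin 40 → Matrix (Fin 2) (Fin 2) (ZMod 2003))),
      (∀ j v, nb j (nb j v) = v) ∧ (∀ j v, par (nb j v) = !par v) ∧ Girth nb (40 * u) ∧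
      Fintype.card V ≤ 2 * 2003 ^ (160 * u) ∧
      ∀ v v' l, NB l → l.length = 2 * u → par v = par v' → labs nb la v l = labs nb la v' l → v = v' := by
  refine ⟨(Fin (40 * u) → Matrix (Fin 2) (Fin 2) (ZMod 2003)) × Bool, inferInstance,
    Classical.decEq _, inferInstance, nbR NM (40 * u), Prod.snd,
    fun w r => cf (40 * u) w.1 (u * (r + 1)), nb_nb NM NM_sq _, fun _ _ => rfl,
    girth NM NM_sq NM_ne NM_kill _, ?_, ?_⟩
  · have hM : Fintype.card (Matrix (Fin 2) (Fin 2) (ZMod 2003)) = 2003 ^ 4 := by
      have : Fintype.card (Matrix (Fin 2) (Fin 2) (ZMod 2003))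
          = Fintype.card (Fin 2 → Fin 2 → ZMod 2003) := Fintype.card_congr (Equiv.refl _)
      rw [this, Fintype.card_fun, Fintype.card_fun, ZMod.card, Fintype.card_fin, ← pow_mul]
    rw [Fintype.card_prod, Fintype.card_fun, hM, Fintype.card_fin, Fintype.card_bool, ← pow_mul,
      mul_comm]
    have h4 : 4 * (40 * u) = 160 * u := by ring
    rw [h4]
  · intro v v' l hl hlen hpar hlab
    exact labels NM NM_sq NM_kill u 40 hu v v' l hl hlen hpar hlab

end Pool.Agent.H818Z
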