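import Pool.Agent.H818Z.GDefs
import Pool.Agent.H839Z.CE.LLL

set_option autoImplicit false

namespace Pool.Agent.H818Z

namespace Lab
open Finset

variable {W J Λ : Type} (nb : J → W → W)

lemma labs_eq (r : W → Λ) (v : W) (l : List J) : labs nb r v l = (labs nb id v l).map r := by
  induction l generalizing v with
  | nil => rfl
  | cons j l ih => simp [labs, ih]

lemma length_labs (r : W → Λ) (v : W) (l : List J) : (labs nb r v l).length = l.length + 1 := by
  induction l generalizing v with
  | nil => rfl
  | cons j l ih => simp [labs, ih]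

lemma mem_labs (v x : W) (l : List J) (h : x ∈ labs nb id v l) : ∃ k, x = walk nb v (l.take k) := by
  induction l generalizing v with
  | nil => exact ⟨0, by simpa [labs, walk] using h⟩
  | cons j l ih =>
    simp only [labs, id, List.mem_cons] at h
    rcases h with rfl | h
    · exact ⟨0, rfl⟩
    · obtain ⟨k, hk⟩ := ih _ h
      exact ⟨k + 1, hk⟩

lemma nodup_labs {γ : ℕ} (hg : Girth nb γ) (v : W) (l : List J) (h : NB l) (hl : l.length ≤ γ) :
    (labs nb id v l).Nodup := by
  induction l generalizing v with
  | nil => simp [labs]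
  | cons j l ih =>
    simp only [labs, id, List.nodup_cons]
    refine ⟨fun h' => ?_, ih _ (List.IsChain.tail h) (by simp at hl; omega)⟩
    obtain ⟨k, hk⟩ := mem_labs nb _ _ _ h'
    refine hg v ((j :: l).take (k + 1)) (List.IsChain.take h _) (by simp) ?_ hk.symm
    exact (List.length_take_le' _ _).trans hl

lemma card_through [Fintype W] [DecidableEq W] (hinv : ∀ j v, nb j (nb j v) = v) (x : W)
    (l : List J) : #(univ.filter fun v => x ∈ labs nb id v l) ≤ l.length + 1 := by
  induction l with
  | nil =>
    refine (card_le_card (t := {x}) fun v hv => ?_).trans (by simp)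
    simp only [labs, id, List.mem_singleton, mem_filter, mem_univ, true_and] at hv
    simp [hv]
  | cons j l ih =>
    refine (card_le_card (t := insert x ((univ.filter fun v => x ∈ labs nb id v l).image (nb j)))
      fun v hv => ?_).trans ((card_insert_le _ _).trans ?_)
    · simp only [labs, id, List.mem_cons, mem_filter, mem_univ, true_and] at hv
      rcases hv with rfl | hv
      · simp
      · exact mem_insert_of_mem (mem_image.2 ⟨nb j v, by simpa using hv, hinv j v⟩)
    · simpa using card_image_le.trans ih

lemma step [Fintype W] [Fintype J] (c x0 : ℕ) (hx0 : x0 = Fintype.card J * c)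
    (hinv : ∀ j v, nb j (nb j v) = v) {γ : ℕ}
    (hg : Girth nb γ) (F : List J → Finset (List (Fin (8 * x0 + 7 + 1))))
    (hF : ∀ l, #(F l) ≤ c ^ l.length) :
    ∃ r : W → Fin (8 * x0 + 7 + 1), ∀ v l, NB l → l.length ≤ γ →
      labs nb r v l ∉ F l := by
  classical
  let Ls : ℕ → Finset (List J) := fun t =>
    ((univ : Finset (Fin t → J)).image List.ofFn).filter NB
  have hLs : ∀ t l, l ∈ Ls t ↔ l.length = t ∧ NB l := by
    intro t l
    simp only [Ls, mem_filter, mem_image, mem_univ, true_and]
    refine and_congr_left fun _ => ⟨?_, ?_⟩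
    · rintro ⟨f, rfl⟩; simp
    · rintro rfl; exact ⟨l.get, List.ofFn_get l⟩
  have hLc : ∀ t, #(Ls t) ≤ Fintype.card J ^ t := fun t =>
    (card_filter_le _ _).trans (card_image_le.trans (by simp))
  obtain ⟨r, _, hr⟩ := Pool.Agent.H839Z.CE.rosenfeld (Λ := W) (R := Fin (8 * x0 + 7 + 1))
    (B := Σ _ : ℕ, Σ _ : List J, W × List (Fin (8 * x0 + 7 + 1))) univ (fun _ => 0)
    ((range (γ + 1)).sigma fun t => (Ls t).sigma fun l => univ ×ˢ F l)
    (fun b => (labs nb id b.2.2.1 b.2.1).toFinset) (fun b => (labs nb id b.2.2.1 b.2.1).toFinset)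
    (fun b r => labs nb r b.2.2.1 b.2.1 = b.2.2.2)
    (fun b _ r r' h hb => by
      rw [← hb, labs_eq nb r, labs_eq nb r']
      exact List.map_congr_left fun a ha => (h a (List.mem_toFinset.2 ha)).symm)
    (fun _ _ => subset_univ _) (fun _ _ => subset_rfl)
    (fun b _ => by
      rw [List.toFinset_nonempty_iff, ← List.length_pos_iff, length_labs]; omega)
    (fun b _ r r' h hb hb' => by
      funext x
      by_cases hx : x ∈ (labs nb id b.2.2.1 b.2.1).toFinset
      · have := hb.trans hb'.symm
        rw [labs_eq nb r, labs_eq nb r', List.map_inj_left] at this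
        exact this x (List.mem_toFinset.1 hx)
      · exact h x hx)
    (fun x _ => by
      set N : ℝ := (Fintype.card (Fin (8 * x0 + 7 + 1)) : ℝ) with hN
      have hN' : N = 8 * (x0 : ℝ) + 8 := by rw [hN, Fintype.card_fin]; push_cast; ring
      have hx : (0 : ℝ) ≤ x0 := by positivity
      have hN0 : 0 < N := by linarith
      rw [sum_filter, sum_sigma]
      calc _ ≤ ∑ t ∈ range (γ + 1), (1 / 4 : ℝ) * (1 / 2) ^ t := by
            refine sum_le_sum fun t ht => ?_
            rw [sum_sigma]
            calc _ ≤ ∑ l ∈ Ls t, ((t + 1) * c ^ t * (2 / N) ^ (t + 1) : ℝ) := by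
                  refine sum_le_sum fun l hl => ?_
                  obtain ⟨h1, h2⟩ := (hLs t l).1 hl
                  have h3 : ∀ v, #(labs nb id v l).toFinset = t + 1 := fun v => by
                    rw [List.toFinset_card_of_nodup
                      (nodup_labs nb hg v l h2 (by have := mem_range.1 ht; omega)), length_labs, h1]
                  rw [sum_product_right]
                  simp only [h3, ← sum_filter, sum_const, nsmul_eq_mul, List.mem_toFinset]
                  have a1 : (#(F l) : ℝ) ≤ c ^ t := by rw [← h1]; exact_mod_cast hF l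
                  have a2 : (#(univ.filter fun v => x ∈ labs nb id v l) : ℝ) ≤ t + 1 := by
                    rw [← h1]; exact_mod_cast card_through nb hinv x l
                  calc _ ≤ (c : ℝ) ^ t * ((t + 1) * (2 / N) ^ (t + 1)) := by gcongr
                    _ = _ := by ring
              _ ≤ (Fintype.card J : ℝ) ^ t * ((t + 1) * c ^ t * (2 / N) ^ (t + 1)) := by
                  rw [sum_const, nsmul_eq_mul]
                  gcongr
                  exact_mod_cast hLc t
              _ = (t + 1) * (2 / N) * (x0 * (2 / N)) ^ t := by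
                  rw [hx0]; push_cast; rw [mul_pow, mul_pow]; ring
              _ ≤ 2 ^ t * (1 / 4) * (1 / 4) ^ t := by
                  have b1 : ((t : ℝ) + 1) ≤ 2 ^ t := by exact_mod_cast Nat.lt_two_pow_self
                  have b2 : 2 / N ≤ 1 / 4 := by rw [div_le_iff₀ hN0]; linarith
                  have b3 : x0 * (2 / N) ≤ 1 / 4 := by
                    rw [← mul_div_assoc, div_le_iff₀ hN0]; linarith
                  exact mul_le_mul (mul_le_mul b1 b2 (by positivity) (by positivity))
                    (pow_le_pow_left₀ (by positivity) b3 _) (by positivity) (by positivity)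
              _ = _ := by
                  rw [mul_right_comm, ← mul_pow, mul_comm]; norm_num
        _ ≤ _ := by
            rw [← mul_sum]
            have := sum_le_hasSum (range (γ + 1)) (fun t _ => by positivity) hasSum_geometric_two
            linarith)
  refine ⟨r, fun v l h1 h2 h3 => hr ⟨l.length, l, v, labs nb r v l⟩ ?_ rfl⟩
  simp only [mem_sigma, mem_range, mem_product, mem_univ, true_and, hLs]
  exact ⟨by omega, h1, h3⟩

end Lab

theorem exists_labels {J : Type} [Fintype J] (c : ℕ) (V : ℕ → Type) [∀ n, Fintype (V n)]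
    (nb : ∀ n, J → V n → V n) (hinv : ∀ n j v, nb n j (nb n j v) = v)
    (hg : ∀ n, Girth (nb n) (40 * (n + 1))) (hc : ∀ n, Fintype.card (V n) ≤ c ^ (2 * (n + 1))) :
    ∃ (N : ℕ) (lb : ∀ n, V n → Fin N), ∀ m n, m < n → ∀ (v : V m) (v' : V n) (l : List J), NB l →
      l.length = 2 * (m + 1) → labs (nb m) (lb m) v l ≠ labs (nb n) (lb n) v' l := by
  classical
  choose! S hS using fun n => Lab.step (nb n) c _ rfl (hinv n) (hg n)
  let F : ℕ → List J → Finset (List (Fin (8 * (Fintype.card J * c) + 7 + 1))) := fun n =>
    Nat.rec (fun _ => ∅) (fun n G l => if l.length = 2 * (n + 1) then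
      Finset.univ.image fun v => labs (nb n) (S n G) v l else G l) n
  have hF : ∀ n l, F (n + 1) l = if l.length = 2 * (n + 1) then
      Finset.univ.image fun v => labs (nb n) (S n (F n)) v l else F n l := fun _ _ => rfl
  have h1 : ∀ n l, (F n l).card ≤ c ^ l.length := by
    intro n
    induction n with
    | zero => intro l; exact Nat.zero_le _
    | succ n ih =>
      intro l
      rw [hF]
      split_ifs with h
      · rw [h]; exact Finset.card_image_le.trans (hc n)
      · exact ih l
  have h2 : ∀ m n, m < n → ∀ (v : V m) l, l.length = 2 * (m + 1) →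
      labs (nb m) (S m (F m)) v l ∈ F n l := by
    intro m n hmn v l hl
    induction n, hmn using Nat.le_induction with
    | base => rw [hF, if_pos hl]; exact Finset.mem_image_of_mem _ (Finset.mem_univ v)
    | succ n hn ih => rw [hF, if_neg (by omega)]; exact ih
  refine ⟨_, fun n => S n (F n), fun m n hmn v v' l h hl e => ?_⟩
  exact hS n (F n) (h1 n) v' l h (by omega) (e ▸ h2 m n hmn v l hl)

end Pool.Agent.H818Z
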