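import Pool.Agent.H818Z.GDefs

/-!
A random signing of the edges of a bipartite edge-coloured graph of large girth and moderate size:
no vertex set with a switching satisfies more than three quarters of the possible edges.
-/

namespace Pool.Agent.H818Z

namespace SignAux

open Finset

variable {V J : Type}

/-- The vertices visited by a walk. -/
def vis [DecidableEq V] (nb : J → V → V) : V → List J → Finset V
  | v, [] => {v}
  | v, j :: l => insert v (vis nb (nb j v) l)

theorem self_mem_vis [DecidableEq V] (nb : J → V → V) (v : V) (l : List J) : v ∈ vis nb v l := by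
  cases l <;> simp [vis]

theorem vis_detour [DecidableEq V] (nb : J → V → V) (hinv : ∀ j v, nb j (nb j v) = v) (j : J)
    (u : V) : ∀ (l : List J) (r : V), u ∈ vis nb r l →
      ∃ l' : List J, l'.length = l.length + 2 ∧ vis nb r l' = insert (nb j u) (vis nb r l) := by
  have base : ∀ l : List J, ∃ l' : List J, l'.length = l.length + 2 ∧
      vis nb u l' = insert (nb j u) (vis nb u l) := by
    intro l
    refine ⟨j :: j :: l, by simp, ?_⟩
    simp only [vis, hinv]
    rw [Finset.insert_comm, Finset.insert_eq_of_mem (self_mem_vis nb u l)]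
  intro l
  induction l with
  | nil =>
    intro r hr
    simp only [vis, Finset.mem_singleton] at hr
    subst hr
    exact base []
  | cons i l ih =>
    intro r hr
    by_cases h : u = r
    · subst h; exact base _
    · simp only [vis, Finset.mem_insert, h, false_or] at hr
      obtain ⟨l', h1, h2⟩ := ih _ hr
      refine ⟨i :: l', by simp [h1], ?_⟩
      simp only [vis, h2]
      rw [Finset.insert_comm]

/-- Sets swept by a walk of length `2 (w - 1)`. -/
def Swept [DecidableEq V] (nb : J → V → V) (W : Finset V) : Prop :=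
  ∃ (r : V) (l : List J), l.length + 2 = 2 * W.card ∧ vis nb r l = W

theorem exists_closed [DecidableEq V] (nb : J → V → V) (hinv : ∀ j v, nb j (nb j v) = v)
    (W : Finset V) (hW : W.Nonempty) :
    ∃ W' ⊆ W, W'.Nonempty ∧ Swept nb W' ∧ ∀ u ∈ W', ∀ j, nb j u ∈ W → nb j u ∈ W' := by
  classical
  obtain ⟨r, hr⟩ := hW
  have hne : (W.powerset.filter (fun W' => W'.Nonempty ∧ Swept nb W')).Nonempty := by
    refine ⟨{r}, ?_⟩
    simp only [Finset.mem_filter, Finset.mem_powerset, Finset.singleton_subset_iff]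
    exact ⟨hr, Finset.singleton_nonempty r, r, [], by simp, rfl⟩
  obtain ⟨W', hW', hmax⟩ := Finset.exists_max_image _ Finset.card hne
  simp only [Finset.mem_filter, Finset.mem_powerset] at hW' hmax
  obtain ⟨hsub, hne', r', l, hl, hv⟩ := hW'
  refine ⟨W', hsub, hne', ⟨r', l, hl, hv⟩, ?_⟩
  intro u hu j hj
  by_contra hn
  obtain ⟨l', h1, h2⟩ := vis_detour nb hinv j u l r' (hv ▸ hu)
  rw [hv] at h2
  have hc : (insert (nb j u) W').card = W'.card + 1 := Finset.card_insert_of_notMem hn
  have := hmax (insert (nb j u) W') ⟨Finset.insert_subset hj hsub, Finset.insert_nonempty _ _,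
    r', l', by rw [h1, hc]; omega, h2⟩
  omega

/-- A segment of a sequence of types. -/
def seg (c : ℕ → J) : ℕ → ℕ → List J
  | _, 0 => []
  | i, m + 1 => c i :: seg c (i + 1) m

theorem seg_length (c : ℕ → J) : ∀ m i, (seg c i m).length = m := by
  intro m
  induction m with
  | zero => intro i; rfl
  | succ m ih => intro i; simp [seg, ih]

theorem seg_walk (nb : J → V → V) (x : ℕ → V) (c : ℕ → J) (h : ∀ n, x (n + 1) = nb (c n) (x n)) :
    ∀ m i, walk nb (x i) (seg c i m) = x (i + m) := by
  intro m
  induction m with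
  | zero => intro i; rfl
  | succ m ih =>
    intro i
    simp only [seg, walk]
    rw [← h i, ih (i + 1)]
    congr 1
    omega

theorem seg_nb (c : ℕ → J) (h : ∀ n, c n ≠ c (n + 1)) : ∀ m i, NB (seg c i m) := by
  intro m
  induction m with
  | zero => intro i; exact List.IsChain.nil
  | succ m ih =>
    intro i
    cases m with
    | zero => exact List.IsChain.singleton _
    | succ m =>
      have := ih (i + 1)
      simp only [seg, NB] at this ⊢
      exact List.IsChain.cons_cons (h i) this

theorem card_ge_of_girth [DecidableEq V] (nb : J → V → V) (γ : ℕ) (hg : Girth nb γ)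
    (W : Finset V) (hW : W.Nonempty)
    (h2 : ∀ v ∈ W, ∃ j k, j ≠ k ∧ nb j v ∈ W ∧ nb k v ∈ W) : γ + 1 ≤ W.card := by
  classical
  have h3 : ∀ p : {p : V × J // p.1 ∈ W ∧ nb p.2 p.1 ∈ W},
      ∃ q : {p : V × J // p.1 ∈ W ∧ nb p.2 p.1 ∈ W}, q.1.1 = nb p.1.2 p.1.1 ∧ p.1.2 ≠ q.1.2 := by
    rintro ⟨⟨v, i⟩, hv, hi⟩
    obtain ⟨j, k, hjk, hj, hk⟩ := h2 _ hi
    by_cases h : i = j
    · exact ⟨⟨(nb i v, k), hi, hk⟩, rfl, by simpa [h] using hjk⟩
    · exact ⟨⟨(nb i v, j), hi, hj⟩, rfl, h⟩
  choose F hF1 hF2 using h3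
  obtain ⟨r, hr⟩ := hW
  obtain ⟨j0, -, -, hj0, -⟩ := h2 r hr
  let s : ℕ → {p : V × J // p.1 ∈ W ∧ nb p.2 p.1 ∈ W} := fun n => F^[n] ⟨(r, j0), hr, hj0⟩
  have hs : ∀ n, s (n + 1) = F (s n) := fun n => Function.iterate_succ_apply' F n _
  let x : ℕ → V := fun n => (s n).1.1
  let c : ℕ → J := fun n => (s n).1.2
  have hx : ∀ n, x (n + 1) = nb (c n) (x n) := by
    intro n
    show (s (n + 1)).1.1 = _
    rw [hs]; exact hF1 _
  have hc : ∀ n, c n ≠ c (n + 1) := by
    intro n
    show _ ≠ (s (n + 1)).1.2
    rw [hs]; exact hF2 _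
  have key : ∀ a b, a < b → b ≤ γ → x a ≠ x b := by
    intro a b hab hb h
    have h1 := seg_walk nb x c hx (b - a) a
    have h4 : a + (b - a) = b := by omega
    rw [h4, ← h] at h1
    refine hg (x a) (seg c a (b - a)) (seg_nb c hc _ _) ?_ ?_ h1
    · intro h5
      have := seg_length c (b - a) a
      rw [h5] at this
      simp at this
      omega
    · rw [seg_length]; omega
  have hinj : Set.InjOn x (Finset.range (γ + 1) : Finset ℕ) := by
    intro a ha b hb hab
    simp only [Finset.coe_range, Set.mem_Iio] at ha hb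
    rcases lt_trichotomy a b with h | h | h
    · exact absurd hab (key a b h (by omega))
    · exact h
    · exact absurd hab.symm (key b a h (by omega))
  have := Finset.card_le_card_of_injOn x (t := W) (fun n _ => (s n).2.1) hinj
  simpa using this

/-- The satisfied pairs. -/
def good [DecidableEq V] [Fintype J] (nb : J → V → V) (σ : V → J → ZMod 2) (W : Finset V)
    (τ : V → ZMod 2) : Finset (V × J) :=
  (W ×ˢ (Finset.univ : Finset J)).filter
    (fun p => nb p.2 p.1 ∈ W ∧ σ p.1 p.2 + τ p.1 + τ (nb p.2 p.1) = 0)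

theorem mem_good [DecidableEq V] [Fintype J] {nb : J → V → V} {σ : V → J → ZMod 2} {W : Finset V}
    {τ : V → ZMod 2} {p : V × J} : p ∈ good nb σ W τ ↔
      p.1 ∈ W ∧ nb p.2 p.1 ∈ W ∧ σ p.1 p.2 + τ p.1 + τ (nb p.2 p.1) = 0 := by
  simp [good]

/-- Reduction to swept sets of size exceeding the girth. -/
theorem reduce [DecidableEq V] [Fintype J] [DecidableEq J] (nb : J → V → V)
    (hinv : ∀ j v, nb j (nb j v) = v) (γ : ℕ) (hg : Girth nb γ) (σ : V → J → ZMod 2)
    (τ : V → ZMod 2)
    (H : ∀ W : Finset V, γ + 1 ≤ W.card → Swept nb W → (good nb σ W τ).card ≤ 1500 * W.card)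
    (W : Finset V) : (good nb σ W τ).card ≤ 1500 * W.card := by
  classical
  induction W using Finset.strongInduction with
  | H W ih =>
    rcases W.eq_empty_or_nonempty with rfl | hW
    · simp [good]
    by_cases h2 : ∀ v ∈ W, ∃ j k, j ≠ k ∧ nb j v ∈ W ∧ nb k v ∈ W
    · obtain ⟨W', hsub, hne, hsw, hcl⟩ := exists_closed nb hinv W hW
      by_cases hE : W' = W
      · exact H W (card_ge_of_girth nb γ hg W hW h2) (hE ▸ hsw)
      · have i1 := ih W' (Finset.ssubset_iff_subset_ne.2 ⟨hsub, hE⟩)
        have i2 := ih (W \ W') (Finset.sdiff_ssubset hsub hne)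
        have hs : good nb σ W τ ⊆ good nb σ W' τ ∪ good nb σ (W \ W') τ := by
          intro p hp
          rw [mem_good] at hp
          rw [Finset.mem_union, mem_good, mem_good]
          by_cases h : p.1 ∈ W'
          · exact Or.inl ⟨h, hcl _ h _ hp.2.1, hp.2.2⟩
          · refine Or.inr ⟨Finset.mem_sdiff.2 ⟨hp.1, h⟩, Finset.mem_sdiff.2 ⟨hp.2.1, ?_⟩, hp.2.2⟩
            intro h'
            have := hcl _ h' p.2 (by rw [hinv]; exact hp.1)
            rw [hinv] at this
            exact h this
        have c1 := (Finset.card_le_card hs).trans (Finset.card_union_le _ _)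
        have c2 := Finset.card_sdiff_add_card_eq_card hsub
        omega
    · push Not at h2
      obtain ⟨v, hv, hv2⟩ := h2
      have i1 := ih (W.erase v) (Finset.erase_ssubset hv)
      let D : Finset J := Finset.univ.filter (fun j => nb j v ∈ W)
      have hD : D.card ≤ 1 := by
        rw [Finset.card_le_one]
        intro a ha b hb
        simp only [D, Finset.mem_filter, Finset.mem_univ, true_and] at ha hb
        by_contra hab
        exact hv2 a b hab ha hb
      have hs : good nb σ W τ ⊆ good nb σ (W.erase v) τ ∪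
          (D.image (fun j => (v, j)) ∪ D.image (fun j => (nb j v, j))) := by
        intro p hp
        rw [mem_good] at hp
        simp only [Finset.mem_union, mem_good, Finset.mem_image, Finset.mem_erase, D,
          Finset.mem_filter, Finset.mem_univ, true_and]
        by_cases h1 : p.1 = v
        · exact Or.inr (Or.inl ⟨p.2, h1 ▸ hp.2.1, by rw [← h1]⟩)
        · by_cases h3 : nb p.2 p.1 = v
          · refine Or.inr (Or.inr ⟨p.2, ?_, ?_⟩)
            · rw [← h3, hinv]; exact hp.1
            · rw [← h3, hinv]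
          · exact Or.inl ⟨⟨h1, hp.1⟩, ⟨h3, hp.2.1⟩, hp.2.2⟩
      have c1 := (Finset.card_le_card hs).trans (Finset.card_union_le _ _)
      have c2 := Finset.card_union_le (D.image (fun j => (v, j))) (D.image (fun j => (nb j v, j)))
      have c3 : (D.image (fun j => (v, j))).card ≤ D.card := Finset.card_image_le
      have c4 : (D.image (fun j => (nb j v, j))).card ≤ D.card := Finset.card_image_le
      have c5 := Finset.card_erase_add_one hv
      omega

/-- The symmetric signing attached to a sample point. -/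
def sg (nb : J → V → V) (par : V → Bool) (ω : V × J → ZMod 2) (v : V) (j : J) : ZMod 2 :=
  if par v = true then ω (v, j) else ω (nb j v, j)

theorem sg_symm (nb : J → V → V) (par : V → Bool) (hinv : ∀ j v, nb j (nb j v) = v)
    (hpar : ∀ j v, par (nb j v) = !par v) (ω : V × J → ZMod 2) (v : V) (j : J) :
    sg nb par ω (nb j v) j = sg nb par ω v j := by
  unfold sg
  rw [hpar, hinv]
  cases par v <;> simp

/-- Edges inside `W`, seen from the even side. -/
def edg [DecidableEq V] [Fintype J] (nb : J → V → V) (par : V → Bool) (W : Finset V) :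
    Finset (V × J) :=
  (W ×ˢ (Finset.univ : Finset J)).filter (fun p => nb p.2 p.1 ∈ W ∧ par p.1 = true)

theorem mem_edg [DecidableEq V] [Fintype J] {nb : J → V → V} {par : V → Bool} {W : Finset V}
    {p : V × J} : p ∈ edg nb par W ↔ p.1 ∈ W ∧ nb p.2 p.1 ∈ W ∧ par p.1 = true := by
  simp [edg]

theorem edg_card [DecidableEq V] [Fintype J] [DecidableEq J] (nb : J → V → V) (par : V → Bool)
    (hinv : ∀ j v, nb j (nb j v) = v) (hpar : ∀ j v, par (nb j v) = !par v) (W : Finset V) :
    2 * (edg nb par W).card ≤ W.card * Fintype.card J := by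
  let φ : V × J → V × J := fun p => (nb p.2 p.1, p.2)
  have hφ : Function.Injective φ := by
    apply Function.Involutive.injective
    intro p
    simp [φ, hinv]
  have hd : Disjoint (edg nb par W) ((edg nb par W).image φ) := by
    rw [Finset.disjoint_left]
    intro p hp hq
    obtain ⟨q, hq', rfl⟩ := Finset.mem_image.1 hq
    rw [mem_edg] at hp hq'
    have h1 := hp.2.2
    simp only [φ] at h1
    rw [hpar, hq'.2.2] at h1
    simp at h1
  have hs : edg nb par W ∪ (edg nb par W).image φ ⊆ W ×ˢ (Finset.univ : Finset J) := by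
    intro p hp
    rw [Finset.mem_product]
    refine ⟨?_, Finset.mem_univ _⟩
    rcases Finset.mem_union.1 hp with h | h
    · exact (mem_edg.1 h).1
    · obtain ⟨q, hq, rfl⟩ := Finset.mem_image.1 h
      exact (mem_edg.1 hq).2.1
  have := Finset.card_le_card hs
  rw [Finset.card_union_of_disjoint hd, Finset.card_image_of_injective _ hφ, Finset.card_product,
    Finset.card_univ] at this
  omega

/-- Satisfied edges, seen from the even side. -/
def hit [DecidableEq V] [Fintype J] (nb : J → V → V) (par : V → Bool) (W : Finset V)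
    (τ : V → ZMod 2) (ω : V × J → ZMod 2) : Finset (V × J) :=
  (edg nb par W).filter (fun p => ω p + τ p.1 + τ (nb p.2 p.1) = 0)

theorem good_le [DecidableEq V] [Fintype J] [DecidableEq J] (nb : J → V → V) (par : V → Bool)
    (hinv : ∀ j v, nb j (nb j v) = v) (hpar : ∀ j v, par (nb j v) = !par v) (W : Finset V)
    (τ : V → ZMod 2) (ω : V × J → ZMod 2) :
    (good nb (sg nb par ω) W τ).card ≤ 2 * (hit nb par W τ ω).card := by
  let φ : V × J → V × J := fun p => (nb p.2 p.1, p.2)
  have hs : good nb (sg nb par ω) W τ ⊆ hit nb par W τ ω ∪ (hit nb par W τ ω).image φ := by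
    intro p hp
    rw [mem_good] at hp
    obtain ⟨h1, h2, h3⟩ := hp
    rw [Finset.mem_union]
    by_cases h : par p.1 = true
    · left
      unfold hit
      rw [Finset.mem_filter, mem_edg]
      refine ⟨⟨h1, h2, h⟩, ?_⟩
      simpa [sg, h] using h3
    · right
      rw [Finset.mem_image]
      refine ⟨φ p, ?_, by simp [φ, hinv]⟩
      unfold hit
      rw [Finset.mem_filter, mem_edg]
      simp only [φ, hinv]
      refine ⟨⟨h2, h1, ?_⟩, ?_⟩
      · rw [hpar]; simpa using h
      · simp only [sg, h] at h3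
        rw [← h3]
        simp only [Bool.false_eq_true, if_false]
        ring
  have c1 := (Finset.card_le_card hs).trans (Finset.card_union_le _ _)
  have c2 : ((hit nb par W τ ω).image φ).card ≤ (hit nb par W τ ω).card := Finset.card_image_le
  omega

theorem moment {I : Type} [Fintype I] [DecidableEq I] (E : Finset I) (t : I → ZMod 2) :
    ∑ ω : I → ZMod 2, (2 : ℝ) ^ (E.filter (fun p => ω p + t p = 0)).card =
      2 ^ Fintype.card I * (3 / 2) ^ E.card := by
  have h1 : ∀ ω : I → ZMod 2, (2 : ℝ) ^ (E.filter (fun p => ω p + t p = 0)).card =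
      ∏ p, (if p ∈ E ∧ ω p + t p = 0 then (2 : ℝ) else 1) := by
    intro ω
    rw [Finset.prod_ite, Finset.prod_const, Finset.prod_const_one, mul_one]
    congr 2
    ext p
    simp
  simp only [h1]
  have h2 := Finset.prod_univ_sum (fun _ : I => (Finset.univ : Finset (ZMod 2)))
    (fun p x => if p ∈ E ∧ x + t p = 0 then (2 : ℝ) else 1)
  rw [Fintype.piFinset_univ] at h2
  rw [← h2]
  have h3 : ∀ p : I, (∑ x : ZMod 2, if p ∈ E ∧ x + t p = 0 then (2 : ℝ) else 1) =
      2 * (if p ∈ E then (3 / 2 : ℝ) else 1) := by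
    intro p
    have hu : (Finset.univ : Finset (ZMod 2)) = {0, 1} := by decide
    have h01 : (0 : ZMod 2) ≠ 1 := by decide
    rw [hu, Finset.sum_pair h01]
    have ht : t p = 0 ∨ t p = 1 := by
      generalize t p = a
      revert a
      decide
    have h11 : (1 : ZMod 2) + 1 = 0 := by decide
    by_cases hp : p ∈ E
    · rcases ht with ht | ht
      · simp [hp, ht]; norm_num
      · simp [hp, ht, h11]; norm_num
    · simp [hp]; norm_num
  simp only [h3]
  rw [Finset.prod_mul_distrib, Finset.prod_const, Finset.card_univ, Finset.prod_ite,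
    Finset.prod_const, Finset.prod_const_one, mul_one]
  congr 3
  ext p
  simp

theorem tail {I : Type} [Fintype I] [DecidableEq I] (E : Finset I) (t : I → ZMod 2) (w : ℕ)
    (hE : E.card ≤ 1000 * w) :
    (((Finset.univ : Finset (I → ZMod 2)).filter
      (fun ω => 750 * w ≤ (E.filter (fun p => ω p + t p = 0)).card)).card : ℝ) ≤
      2 ^ Fintype.card I / (2 ^ 150) ^ w := by
  set B := (Finset.univ : Finset (I → ZMod 2)).filter
      (fun ω => 750 * w ≤ (E.filter (fun p => ω p + t p = 0)).card) with hB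
  have h1 : (B.card : ℝ) * 2 ^ (750 * w) ≤ 2 ^ Fintype.card I * (3 / 2) ^ E.card := by
    rw [← moment E t]
    calc (B.card : ℝ) * 2 ^ (750 * w) = ∑ _ω ∈ B, (2 : ℝ) ^ (750 * w) := by
          rw [Finset.sum_const, nsmul_eq_mul]
      _ ≤ ∑ ω ∈ B, (2 : ℝ) ^ (E.filter (fun p => ω p + t p = 0)).card := by
          apply Finset.sum_le_sum
          intro ω hω
          exact pow_le_pow_right₀ (by norm_num) (Finset.mem_filter.1 hω).2
      _ ≤ _ := by
          apply Finset.sum_le_sum_of_subset_of_nonneg (Finset.subset_univ _)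
          intro _ _ _
          positivity
  have h2 : (3 / 2 : ℝ) ^ E.card ≤ 2 ^ (600 * w) := by
    calc (3 / 2 : ℝ) ^ E.card ≤ (3 / 2) ^ (5 * (200 * w)) :=
          pow_le_pow_right₀ (by norm_num) (by omega)
      _ = ((3 / 2) ^ 5) ^ (200 * w) := pow_mul _ _ _
      _ ≤ (2 ^ 3) ^ (200 * w) := pow_le_pow_left₀ (by positivity) (by norm_num) _
      _ = 2 ^ (600 * w) := by
          rw [← pow_mul]; congr 1; omega
  rw [le_div_iff₀ (by positivity), ← pow_mul]
  have h3 : (2 : ℝ) ^ (750 * w) = 2 ^ (150 * w) * 2 ^ (600 * w) := by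
    rw [← pow_add]; congr 1; omega
  rw [h3, ← mul_assoc] at h1
  have h4 : (B.card : ℝ) * 2 ^ (150 * w) * 2 ^ (600 * w) ≤ 2 ^ Fintype.card I * 2 ^ (600 * w) :=
    h1.trans (mul_le_mul_of_nonneg_left h2 (by positivity))
  exact le_of_mul_le_mul_right h4 (by positivity)

open Classical in
theorem swept_card [Fintype V] [DecidableEq V] [Fintype J] [Nonempty J] (nb : J → V → V)
    (w : ℕ) :
    ((Finset.univ : Finset (Finset V)).filter (fun W => Swept nb W ∧ W.card = w)).card ≤
      Fintype.card V * (Fintype.card J ^ 2) ^ w := by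
  have hs : (Finset.univ : Finset (Finset V)).filter (fun W => Swept nb W ∧ W.card = w) ⊆
      (Finset.univ : Finset (V × (Fin (2 * w - 2) → J))).image
        (fun q => vis nb q.1 (List.ofFn q.2)) := by
    intro W hW
    obtain ⟨⟨r, l, hl, hv⟩, hw⟩ := (Finset.mem_filter.1 hW).2
    have hl' : l.length = 2 * w - 2 := by omega
    rw [Finset.mem_image]
    refine ⟨(r, fun i => l.get (i.cast hl'.symm)), Finset.mem_univ _, ?_⟩
    rw [← hv]
    congr 1
    apply List.ext_get
    · simp [hl']
    · intro n h1 h2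
      simp
  refine (Finset.card_le_card hs).trans (Finset.card_image_le.trans ?_)
  rw [Finset.card_univ, Fintype.card_prod, Fintype.card_fun, Fintype.card_fin, ← pow_mul]
  apply Nat.mul_le_mul_left
  exact Nat.pow_le_pow_right Fintype.card_pos (by omega)

end SignAux

open SignAux in
theorem exists_sign {V : Type} [Fintype V] [DecidableEq V] (nb : Fin 2000 → V → V) (par : V → Bool)
    (hinv : ∀ j v, nb j (nb j v) = v) (hpar : ∀ j v, par (nb j v) = !par v) (γ : ℕ) (hγ : 1 ≤ γ)
    (hg : Girth nb γ) (hc : Fintype.card V ≤ 2 * 2003 ^ (4 * γ)) :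
    ∃ σ : V → Fin 2000 → ZMod 2, (∀ v j, σ (nb j v) j = σ v j) ∧
      ∀ (W : Finset V) (τ : V → ZMod 2),
        ((W ×ˢ (Finset.univ : Finset (Fin 2000))).filter
          (fun p => nb p.2 p.1 ∈ W ∧ σ p.1 p.2 + τ p.1 + τ (nb p.2 p.1) = 0)).card
            ≤ 1500 * W.card := by
  classical
  let ind : Finset V → V → ZMod 2 := fun P v => if v ∈ P then 1 else 0
  let bad : Finset V → Finset V → Finset (V × Fin 2000 → ZMod 2) := fun W P =>
    Finset.univ.filter (fun ω => 750 * W.card ≤ ((edg nb par W).filter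
      (fun p => ω p + (ind P p.1 + ind P (nb p.2 p.1)) = 0)).card)
  let S : Finset (Finset V) := Finset.univ.filter (fun W => γ + 1 ≤ W.card ∧ Swept nb W)
  set N := Fintype.card (V × Fin 2000) with hN
  set n := Fintype.card V with hn
  have hbad : ∀ W P, ((bad W P).card : ℝ) ≤ 2 ^ N / (2 ^ 150) ^ W.card := by
    intro W P
    apply tail (edg nb par W) (fun p => ind P p.1 + ind P (nb p.2 p.1)) W.card
    have := edg_card nb par hinv hpar W
    rw [Fintype.card_fin] at this
    omega
  have h1 : ((S.biUnion (fun W => W.powerset.biUnion (fun P => bad W P))).card : ℝ) ≤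
      ∑ W ∈ S, (2 : ℝ) ^ N / (2 ^ 149) ^ W.card := by
    refine le_trans (Nat.cast_le.2 Finset.card_biUnion_le) ?_
    rw [Nat.cast_sum]
    apply Finset.sum_le_sum
    intro W _
    refine le_trans (Nat.cast_le.2 Finset.card_biUnion_le) ?_
    rw [Nat.cast_sum]
    refine le_trans (Finset.sum_le_sum (fun P _ => hbad W P)) ?_
    rw [Finset.sum_const, Finset.card_powerset, nsmul_eq_mul]
    have h150 : ((2 : ℝ) ^ 150) ^ W.card = 2 ^ W.card * (2 ^ 149) ^ W.card := by
      rw [← mul_pow, ← pow_succ']
    rw [h150]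
    push_cast
    apply le_of_eq
    field_simp
  have h2 : ∑ W ∈ S, (2 : ℝ) ^ N / (2 ^ 149) ^ W.card ≤
      ((n : ℝ) + 1) * ((n : ℝ) * ((2 : ℝ) ^ N / (2 ^ 127) ^ (γ + 1))) := by
    rw [← Finset.sum_fiberwise_of_maps_to (s := S) (t := Finset.range (n + 1)) (g := Finset.card)
      (fun W _ => Finset.mem_range.2 (Nat.lt_succ_of_le (Finset.card_le_univ W)))]
    refine le_trans (Finset.sum_le_card_nsmul _ _ ((n : ℝ) * ((2 : ℝ) ^ N / (2 ^ 127) ^ (γ + 1))) ?_) ?_
    · intro w _
      have e1 : ∑ W ∈ S with W.card = w, (2 : ℝ) ^ N / (2 ^ 149) ^ W.card =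
          ((S.filter (fun W => W.card = w)).card : ℝ) * (2 ^ N / (2 ^ 149) ^ w) := by
        rw [← nsmul_eq_mul, ← Finset.sum_const]
        apply Finset.sum_congr rfl
        intro W hW
        rw [(Finset.mem_filter.1 hW).2]
      rw [e1]
      by_cases hw : γ + 1 ≤ w
      · have e2 : (S.filter (fun W => W.card = w)).card ≤ n * (2 ^ 22) ^ w := by
          refine le_trans (Finset.card_le_card ?_) ((swept_card nb w).trans ?_)
          · intro W hW
            simp only [S, Finset.mem_filter, Finset.mem_univ, true_and] at hW ⊢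
            exact ⟨hW.1.2, hW.2⟩
          · apply Nat.mul_le_mul_left
            apply Nat.pow_le_pow_left
            rw [Fintype.card_fin]
            norm_num
        have e3 : ((S.filter (fun W => W.card = w)).card : ℝ) ≤ n * (2 ^ 22) ^ w := by
          exact_mod_cast e2
        refine le_trans (mul_le_mul_of_nonneg_right e3 (by positivity)) ?_
        rw [mul_assoc]
        apply mul_le_mul_of_nonneg_left _ (by positivity)
        have h149 : ((2 : ℝ) ^ 149) ^ w = (2 ^ 22) ^ w * (2 ^ 127) ^ w := by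
          rw [← mul_pow, ← pow_add]
        have e4 : ((2 : ℝ) ^ 22) ^ w * (2 ^ N / (2 ^ 149) ^ w) = 2 ^ N / (2 ^ 127) ^ w := by
          rw [h149]
          field_simp
        rw [e4]
        apply div_le_div_of_nonneg_left (by positivity) (by positivity)
        exact pow_le_pow_right₀ (one_le_pow₀ (by norm_num)) hw
      · have e2 : S.filter (fun W => W.card = w) = ∅ := by
          rw [Finset.filter_eq_empty_iff]
          intro W hW hWw
          simp only [S, Finset.mem_filter, Finset.mem_univ, true_and] at hW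
          omega
        rw [e2]
        simp only [Finset.card_empty, Nat.cast_zero, zero_mul]
        positivity
    · rw [Finset.card_range, nsmul_eq_mul]
      push_cast
      exact le_rfl
  have h3 : (n + 1) * n < (2 ^ 127) ^ (γ + 1) := by
    have a1 : n ≤ 2 ^ (44 * γ + 1) := by
      refine hc.trans ?_
      have b1 : 2003 ^ (4 * γ) ≤ (2 ^ 11) ^ (4 * γ) :=
        Nat.pow_le_pow_left (show 2003 ≤ 2 ^ 11 by norm_num) _
      have b2 : (2 ^ 11) ^ (4 * γ) = 2 ^ (44 * γ) := by
        rw [← pow_mul]; congr 1; omega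
      rw [pow_succ', ← b2]
      exact Nat.mul_le_mul_left _ b1
    have a2 : n + 1 ≤ 2 ^ (44 * γ + 2) := by
      have : 1 ≤ 2 ^ (44 * γ + 1) := Nat.one_le_two_pow
      rw [pow_succ 2 (44 * γ + 1)]
      omega
    calc (n + 1) * n ≤ 2 ^ (44 * γ + 2) * 2 ^ (44 * γ + 1) := Nat.mul_le_mul a2 a1
      _ = 2 ^ (88 * γ + 3) := by rw [← pow_add]; congr 1; omega
      _ < 2 ^ (127 * (γ + 1)) := Nat.pow_lt_pow_right (by norm_num) (by omega)
      _ = (2 ^ 127) ^ (γ + 1) := pow_mul _ _ _
  have h4 : ((n : ℝ) + 1) * (n * (2 ^ N / (2 ^ 127) ^ (γ + 1))) < 2 ^ N := by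
    have a1 : ((n : ℝ) + 1) * n < (2 ^ 127) ^ (γ + 1) := by exact_mod_cast h3
    rw [← mul_assoc, ← mul_div_assoc, div_lt_iff₀ (by positivity), mul_comm ((2 : ℝ) ^ N)]
    exact mul_lt_mul_of_pos_right a1 (by positivity)
  have h5 : (S.biUnion (fun W => W.powerset.biUnion (fun P => bad W P))).card <
      (Finset.univ : Finset (V × Fin 2000 → ZMod 2)).card := by
    rw [Finset.card_univ, Fintype.card_fun, ZMod.card]
    have := (h1.trans h2).trans_lt h4
    exact_mod_cast this
  obtain ⟨ω, -, hω⟩ := Finset.exists_mem_notMem_of_card_lt_card h5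
  refine ⟨sg nb par ω, fun v j => sg_symm nb par hinv hpar ω v j, fun W τ => ?_⟩
  refine reduce nb hinv γ hg (sg nb par ω) τ ?_ W
  intro W hW hsw
  refine (good_le nb par hinv hpar W τ ω).trans ?_
  have hWS : W ∈ S := by
    simp only [S, Finset.mem_filter, Finset.mem_univ, true_and]
    exact ⟨hW, hsw⟩
  let P : Finset V := W.filter (fun v => τ v = 1)
  have hP : ∀ v ∈ W, ind P v = τ v := by
    intro v hv
    have ht : τ v = 0 ∨ τ v = 1 := by
      generalize τ v = a
      revert a
      decide
    have h01 : (0 : ZMod 2) ≠ 1 := by decide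
    rcases ht with ht | ht
    · simp [ind, P, ht]
    · simp [ind, P, ht, hv]
  have hnot : ω ∉ bad W P := by
    intro h
    apply hω
    rw [Finset.mem_biUnion]
    refine ⟨W, hWS, ?_⟩
    rw [Finset.mem_biUnion]
    exact ⟨P, Finset.mem_powerset.2 (Finset.filter_subset _ _), h⟩
  simp only [bad, Finset.mem_filter, Finset.mem_univ, true_and, not_le] at hnot
  have heq : hit nb par W τ ω = (edg nb par W).filter
      (fun p => ω p + (ind P p.1 + ind P (nb p.2 p.1)) = 0) := by
    unfold hit
    apply Finset.filter_congr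
    intro p hp
    rw [mem_edg] at hp
    rw [hP _ hp.1, hP _ hp.2.1, add_assoc]
  rw [heq]
  omega

end Pool.Agent.H818Z
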