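import Pool.Agent.H818Z.Grp
import Pool.Agent.H818Z.Graph
import Pool.Agent.H818Z.Labels
import Pool.Agent.H818Z.Sign

/-!
The labelled graphs exist, and the final assembly.
-/

namespace Pool.Agent.H818Z

open Pool.Agent.H17R2 MeasureTheory

section

variable {W J Λ : Type} (nb : J → W → W) (par : W → Bool) (lab : W → Λ) (σ : W → J → ZMod 2)

/-- The letter of an edge. -/
def ltr (v : W) (j : J) : (J × Λ × Λ × ZMod 2) × Bool :=
  if par v = true then ((j, lab v, lab (nb j v), σ v j), true)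
  else ((j, lab (nb j v), lab v, σ v j), false)

lemma ltr_par (v : W) (j : J) : (ltr nb par lab σ v j).2 = par v := by
  unfold ltr
  cases par v <;> simp

lemma ltr_ty (v : W) (j : J) : (ltr nb par lab σ v j).1.1 = j := by
  unfold ltr
  cases par v <;> simp

lemma ltr_sgn (v : W) (j : J) : (ltr nb par lab σ v j).1.2.2.2 = σ v j := by
  unfold ltr
  cases par v <;> simp

lemma ltr_nb (hinv : ∀ j v, nb j (nb j v) = v) (hpar : ∀ j v, par (nb j v) = !par v)
    (hσ : ∀ v j, σ (nb j v) j = σ v j) (j : J) (v : W) :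
    ltr nb par lab σ (nb j v) j = ((ltr nb par lab σ v j).1, !(ltr nb par lab σ v j).2) := by
  unfold ltr
  rw [hpar, hinv, hσ]
  cases par v <;> simp

lemma ltr_eq {v v' : W} {j : J} (h : ltr nb par lab σ v j = ltr nb par lab σ v' j) :
    par v = par v' ∧ lab v = lab v' ∧ lab (nb j v) = lab (nb j v') := by
  unfold ltr at h
  cases h1 : par v <;> cases h2 : par v' <;> simp [h1, h2] at h ⊢
  · exact ⟨h.2.1, h.1⟩
  · exact ⟨h.1, h.2.1⟩

lemma labs_eq (l : List J) : ∀ v v' : W, word nb (ltr nb par lab σ) v l =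
    word nb (ltr nb par lab σ) v' l → lab v = lab v' → labs nb lab v l = labs nb lab v' l := by
  induction l with
  | nil => intro v v' _ h; simp [labs, h]
  | cons j l ih =>
    intro v v' h1 h2
    simp only [word, List.cons.injEq] at h1
    simp only [labs, h2, List.cons.injEq, true_and]
    exact ih _ _ h1.2 (ltr_eq nb par lab σ h1.1).2.2

lemma word_take {S : Type} (lt : W → J → S × Bool) (l : List J) : ∀ (k : ℕ) (v : W),
    word nb lt v (l.take k) = (word nb lt v l).take k := by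
  induction l with
  | nil => intro k v; simp [word]
  | cons j l ih =>
    intro k v
    cases k with
    | zero => simp [word]
    | succ k => simp [word, ih]

end

lemma labs_sigma {J Λ Λ' : Type} {V : ℕ → Type} (nb : ∀ n, J → V n → V n) (lab : (Σ n, V n) → Λ)
    (f : Λ → Λ') (n : ℕ) (l : List J) : ∀ v : V n,
    (labs (fun j (w : Σ n, V n) => (⟨w.1, nb w.1 j w.2⟩ : Σ n, V n)) lab ⟨n, v⟩ l).map f =
      labs (nb n) (fun a => f (lab ⟨n, a⟩)) v l := by
  induction l with
  | nil => intro v; rfl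
  | cons j l ih => intro v; simp only [labs, List.map_cons, ih]

lemma walk_sigma {J : Type} {V : ℕ → Type} (nb : ∀ n, J → V n → V n) (n : ℕ) (l : List J) :
    ∀ v : V n, walk (fun j (w : Σ n, V n) => (⟨w.1, nb w.1 j w.2⟩ : Σ n, V n)) ⟨n, v⟩ l =
      ⟨n, walk (nb n) v l⟩ := by
  induction l with
  | nil => intro v; rfl
  | cons j l ih => intro v; simp only [walk, ih]

open Classical in
theorem exists_sys : ∃ (V S : Type) (_ : Fintype S) (X : Sys V (Fin 2000) S),
    (∀ n, {v | X.lev v = n}.Finite) ∧ (∀ n, ∃ v, X.lev v = n) ∧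
    ∀ (W : Finset V) (τ : V → ZMod 2), (∀ v ∈ W, ∀ v' ∈ W, X.lev v = X.lev v') →
      ((W ×ˢ (Finset.univ : Finset (Fin 2000))).filter (fun p => X.nb p.2 p.1 ∈ W ∧
        X.sgn (X.lt p.1 p.2).1 + τ p.1 + τ (X.nb p.2 p.1) = 0)).card ≤ 1500 * W.card := by
  choose V iF iD iN nb par la hinv hpar hg hc hla using fun n => exists_graph (n + 1) (by omega)
  obtain ⟨N, lb, hlb⟩ := exists_labels (2 * 2003 ^ 80) V nb hinv hg (fun n => (hc n).trans (by
    rw [mul_pow, ← pow_mul, show 80 * (2 * (n + 1)) = 160 * (n + 1) by ring]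
    apply Nat.mul_le_mul_right
    calc 2 = 2 ^ 1 := rfl
      _ ≤ _ := Nat.pow_le_pow_right (by norm_num) (by omega)))
  choose σ hσ hsg using fun n => exists_sign (nb n) (par n) (hinv n) (hpar n) (40 * (n + 1))
    (by omega) (hg n) (by rw [show 4 * (40 * (n + 1)) = 160 * (n + 1) by ring]; exact hc n)
  set nbW : Fin 2000 → (Σ n, V n) → (Σ n, V n) := fun j w => ⟨w.1, nb w.1 j w.2⟩ with hnbW
  set parW : (Σ n, V n) → Bool := fun w => par w.1 w.2 with hparW
  set lab : (Σ n, V n) → (Fin 40 → Matrix (Fin 2) (Fin 2) (ZMod 2003)) × Fin N :=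
    fun w => (la w.1 w.2, lb w.1 w.2) with hlab
  set σW : (Σ n, V n) → Fin 2000 → ZMod 2 := fun w j => σ w.1 w.2 j with hσW
  have hinvW : ∀ j w, nbW j (nbW j w) = w := by
    rintro j ⟨n, v⟩
    simp only [hnbW, hinv]
  have key : ∀ (n m : ℕ) (a : V n) (b : V m) (l : List (Fin 2000)), n ≤ m → NB l →
      word nbW (ltr nbW parW lab σW) ⟨n, a⟩ l = word nbW (ltr nbW parW lab σW) ⟨m, b⟩ l →
      2 * (n + 1) ≤ l.length → (⟨n, a⟩ : Σ n, V n) = ⟨m, b⟩ := by
    intro n m a b l hnm hl hw hlen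
    have hl0 : NB (l.take (2 * (n + 1))) := List.IsChain.take hl _
    have hlen0 : (l.take (2 * (n + 1))).length = 2 * (n + 1) := by
      rw [List.length_take, min_eq_left hlen]
    have hw0 : word nbW (ltr nbW parW lab σW) ⟨n, a⟩ (l.take (2 * (n + 1))) =
        word nbW (ltr nbW parW lab σW) ⟨m, b⟩ (l.take (2 * (n + 1))) := by
      rw [word_take, word_take, hw]
    obtain ⟨j, l', rfl⟩ : ∃ j l', l = j :: l' := by
      cases l with
      | nil => simp at hlen
      | cons j l' => exact ⟨j, l', rfl⟩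
    simp only [word, List.cons.injEq] at hw
    obtain ⟨e1, e2, -⟩ := ltr_eq nbW parW lab σW hw.1
    have e3 := labs_eq nbW parW lab σW _ _ _ hw0 e2
    rcases hnm.eq_or_lt with rfl | hlt
    · have e4 := congrArg (List.map Prod.fst) e3
      rw [hnbW, labs_sigma, labs_sigma] at e4
      rw [hla n a b _ hl0 hlen0 e1 e4]
    · have e4 := congrArg (List.map Prod.snd) e3
      rw [hnbW, labs_sigma, labs_sigma] at e4
      exact absurd e4 (hlb n m hlt a b _ hl0 hlen0)
  refine ⟨Σ n, V n, _, inferInstance, Sys.make nbW (ltr nbW parW lab σW) (fun s => s.1) Sigma.fst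
    parW (fun n => 40 * (n + 1)) (fun s => s.2.2.2) 0 1 (by decide) hinvW
    (ltr_nb nbW parW lab σW hinvW (fun j w => hpar _ _ _) (fun w j => hσ _ _ _))
    (ltr_ty nbW parW lab σW) (ltr_par nbW parW lab σW) (fun _ _ => rfl) (fun n => by omega) ?_ ?_,
    ?_, ?_, ?_⟩
  · rintro ⟨n, v⟩ l h1 h2 h3
    rw [hnbW, walk_sigma] at h3
    have h4 : walk (nb n) v l = v := eq_of_heq (Sigma.mk.inj_iff.1 h3).2
    by_contra h5
    exact hg n v l h1 h2 (by simp only at h5; omega) h4
  · rintro ⟨n, a⟩ ⟨m, b⟩ l h1 h2 h3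
    simp only at h3
    rcases le_total n m with h | h
    · exact key n m a b l h h1 h2 (by omega)
    · exact (key m n b a l h h1 h2.symm (by omega)).symm
  · intro n
    refine (Set.finite_range (fun a : V n => (⟨n, a⟩ : Σ n, V n))).subset ?_
    rintro ⟨m, a⟩ h
    obtain rfl : m = n := h
    exact ⟨a, rfl⟩
  · intro n
    exact ⟨⟨n, (iN n).some⟩, rfl⟩
  · intro W τ hW
    rcases W.eq_empty_or_nonempty with rfl | ⟨⟨n, a0⟩, h0⟩
    · simp
    · set W' : Finset (V n) := Finset.univ.filter (fun a => (⟨n, a⟩ : Σ n, V n) ∈ W) with hW'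
      have h1 := hsg n W' (fun a => τ ⟨n, a⟩)
      have h2 : W'.card ≤ W.card := by
        apply Finset.card_le_card_of_injOn (fun a => (⟨n, a⟩ : Σ n, V n))
        · intro a ha
          exact (Finset.mem_filter.1 ha).2
        · intro a _ b _ h
          exact eq_of_heq (Sigma.mk.inj_iff.1 h).2
      refine le_trans ?_ (h1.trans (Nat.mul_le_mul_left _ h2))
      apply Finset.card_le_card_of_surjOn
        (fun p : V n × Fin 2000 => ((⟨n, p.1⟩ : Σ n, V n), p.2))
      rintro ⟨⟨m, a⟩, j⟩ hp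
      simp only [Finset.coe_filter, Finset.mem_product, Finset.mem_univ, and_true,
        Set.mem_ofPred_eq, ltr_sgn] at hp
      obtain ⟨h3, h4, h5⟩ := hp
      obtain rfl : m = n := hW _ h3 _ h0
      refine ⟨(a, j), ?_, rfl⟩
      simp only [Finset.coe_filter, Finset.mem_product, Finset.mem_univ, and_true,
        Set.mem_ofPred_eq, hW', Finset.mem_filter, true_and]
      exact ⟨h3, h4, h5⟩

/-- The group, the limit function, and the inequality which separates it from the regular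
representation. -/
theorem main : ∃ (G : Type) (_ : Group G) (_ : TopologicalSpace G) (_ : IsTopologicalGroup G)
    (_ : LocallyCompactSpace G) (_ : T2Space G) (_ : SecondCountableTopology G)
    (_ : MeasurableSpace G) (_ : BorelSpace G) (P : Type) (_ : Group P) (π : G →* P)
    (I : Type) (_ : Fintype I) (gen : I → G) (coef : I → ℝ) (D D' : ℝ) (φ : G → ℝ),
    IsCompact {g | π g = 1} ∧ IsOpen {g | π g = 1} ∧ (∀ k, π k = 1 → ∀ g, k⁻¹ * g = g * k) ∧
    0 ≤ D' ∧ D' < D ∧
    (∀ ξ : G → ℂ, MemLp ξ 2 (Measure.haar : Measure G) →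
      (∀ g, IntegrableOn (fun k => cof ξ (g * k)) {g | π g = 1} Measure.haar) ∧
      ∑ i, coef i * (∫ k in {g | π g = 1}, cof ξ (gen i * k) ∂Measure.haar).re ≤
        D' * (∫ k in {g | π g = 1}, cof ξ (1 * k) ∂Measure.haar).re) ∧
    Continuous φ ∧ (fun x => (φ x : ℂ)) ∈ closure {ψ : G → ℂ | ∃ ξ : G → ℂ,
      MemLp ξ 2 (Measure.haar : Measure G) ∧ ∀ x, ψ x = cof ξ x} ∧ φ 1 = 1 ∧
      (∀ g k, π k = 1 → φ (g * k) = φ g) ∧ ∑ i, coef i * φ (gen i) = D := by
  classical
  obtain ⟨V, S, iS, X, h1, h2, h3⟩ := exists_sys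
  have : Nonempty V := ⟨(h2 0).choose⟩
  have hL : ∀ n m, n < m → ∃ r : X.GG → ℝ, (∃ ξ : X.GG → ℂ,
      MemLp ξ 2 (Measure.haar : Measure X.GG) ∧ ∀ x, (r x : ℂ) = cof ξ x) ∧ (∀ x, |r x| ≤ 1) ∧
      r 1 = 1 ∧ (∀ g k, X.piG k = 1 → r (g * k) = sg2 (X.cf n k + X.cf m k) * r g) ∧
      ∑ i, X.coef i * r (X.genG i) = Fintype.card (Fin 2000) := by
    intro n m hnm
    obtain ⟨x0, rfl⟩ := h2 n
    exact X.lowG x0 m (h1 _) hnm.ne'
  obtain ⟨φ, k1, k2, k3, k4, k5⟩ := limit_fun X.piG X.ker_open X.genG X.coef _ X.cf hL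
  have h0 : (0 : ℝ) ≤ 9 / 40 * ((2 + 1500 : ℕ) : ℝ) + 4 / 5 * Fintype.card (Fin 2000) := by
    positivity
  refine ⟨X.GG, inferInstance, inferInstance, inferInstance, inferInstance, inferInstance,
    inferInstance, inferInstance, inferInstance, X.PP, inferInstance, X.piG, Sys.II S,
    inferInstance, X.genG, X.coef, _, _, φ, X.ker_compact, X.ker_open, X.ker_central, h0, ?_,
    upper_avg X.piG X.piG_surj X.ker_compact X.ker_open X.ker_central X.genG X.coef _ h0
      (X.upper 1500 h3), k1, k2, k3, k4, k5⟩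
  rw [Fintype.card_fin]
  norm_num

end Pool.Agent.H818Z
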