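import Pool.Agent.H818Z.EbDefs
import Pool.Agent.H818Z.Main

/-!
The limit function is not a coefficient of a representation weakly contained in the regular one.
-/

namespace Pool.Agent.H818Z.Eb

open MeasureTheory Filter Topology

universe u

lemma amenable_of_compact (H : Type) [Group H] [TopologicalSpace H] [IsTopologicalGroup H]
    [CompactSpace H] : Amenable H := by
  borelize H
  set μ : Measure H := Measure.haar with hμ
  have hc : 0 < μ.real Set.univ :=
    ENNReal.toReal_pos (isOpen_univ.measure_pos μ Set.univ_nonempty).ne' (measure_ne_top _ _)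
  refine ⟨⟨⟨fun f => (∫ x, f x ∂μ) / μ.real Set.univ, ?_⟩, ?_⟩, ?_, ?_, ?_⟩
  · intro f g
    simp only [BoundedContinuousFunction.add_apply]
    rw [integral_add (f.integrable μ) (g.integrable μ), add_div]
  · intro c f
    simp only [BoundedContinuousFunction.smul_apply, smul_eq_mul, RingHom.id_apply]
    rw [integral_const_mul, mul_div_assoc]
  · intro f hf
    exact div_nonneg (integral_nonneg hf) hc.le
  · simp [hc.ne']
  · intro g f f' h
    simp only [LinearMap.coe_mk, AddHom.coe_mk, h]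
    rw [integral_mul_left_eq_self (fun x => f x) g]

section Group

variable {G : Type} [Group G] [TopologicalSpace G] [IsTopologicalGroup G] [LocallyCompactSpace G]
  [MeasurableSpace G] [BorelSpace G]

lemma lam_cof (ξ : G → ℂ) : lamCoef G ξ ξ = cof (fun y => (starRingEnd ℂ) (ξ y)) := by
  funext x
  unfold lamCoef cof
  simp only [Complex.conj_conj, mul_comm]

lemma cof_lam (ξ : G → ℂ) (x : G) : cof ξ x =
    lamCoef G (fun y => (starRingEnd ℂ) (ξ y)) (fun y => (starRingEnd ℂ) (ξ y)) x := by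
  rw [lam_cof]
  simp only [Complex.conj_conj]

lemma cof_inner [T2Space G] [SecondCountableTopology G] (ξ : G → ℂ)
    (hξ : MemLp ξ 2 (Measure.haar : Measure G)) :
    ∃ L : G → Lp ℂ 2 (Measure.haar : Measure G), Continuous L ∧
      ∀ x y, cof ξ (y⁻¹ * x) = inner ℂ (L x) (L y) := by
  set μ : Measure G := Measure.haar with hμ
  refine ⟨fun x => DomMulAct.mk x⁻¹ • hξ.toLp ξ, ?_, ?_⟩
  · have : Fact ((2 : ENNReal) ≠ ⊤) := ⟨by norm_num⟩
    have : μ.Regular := Measure.regular_haarMeasure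
    exact (DomMulAct.continuous_mk.comp continuous_inv).smul continuous_const
  · intro x y
    have h1 : ∀ x : G, ((DomMulAct.mk x⁻¹ • hξ.toLp ξ : Lp ℂ 2 μ) : G → ℂ) =ᵐ[μ]
        fun z => ξ (x⁻¹ * z) := by
      intro x
      have e1 := DomMulAct.smul_Lp_ae_eq (DomMulAct.mk x⁻¹) (hξ.toLp ξ)
      have e2 := (measurePreserving_mul_left μ x⁻¹).quasiMeasurePreserving.ae_eq_comp
        hξ.coeFn_toLp
      exact e1.trans e2
    rw [L2.inner_def]
    unfold cof
    rw [← integral_mul_left_eq_self _ y⁻¹]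
    apply integral_congr_ae
    filter_upwards [h1 x, h1 y] with z e1 e2
    rw [e1, e2, mul_inv_rev, inv_inv, mul_assoc, mul_inv_cancel_left]
    simp

omit [TopologicalSpace G] [IsTopologicalGroup G] [LocallyCompactSpace G] [MeasurableSpace G]
  [BorelSpace G] in
lemma pd_inner {E : Type} [NormedAddCommGroup E] [InnerProductSpace ℂ E] (ψ : G → ℂ) (L : G → E)
    (h : ∀ x y, ψ (y⁻¹ * x) = inner ℂ (L x) (L y)) {ι : Type} (s : Finset ι) (x : ι → G)
    (c : ι → ℂ) : ∑ i ∈ s, ∑ j ∈ s, c i * (starRingEnd ℂ) (c j) * ψ ((x j)⁻¹ * x i) =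
      ((‖∑ i ∈ s, (starRingEnd ℂ) (c i) • L (x i)‖ ^ 2 : ℝ) : ℂ) := by
  have := inner_self_eq_norm_sq_to_K (𝕜 := ℂ) (∑ i ∈ s, (starRingEnd ℂ) (c i) • L (x i))
  rw [Complex.ofReal_pow]
  refine Eq.trans ?_ this
  rw [sum_inner]
  apply Finset.sum_congr rfl
  intro i _
  rw [inner_sum]
  apply Finset.sum_congr rfl
  intro j _
  rw [inner_smul_left, inner_smul_right, h, Complex.conj_conj, mul_assoc]

lemma cof_mem [T2Space G] [SecondCountableTopology G] (ξ : G → ℂ)
    (hξ : MemLp ξ 2 (Measure.haar : Measure G)) : cof ξ ∈ FourierAlg G ∩ PosDef G := by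
  obtain ⟨L, h1, h2⟩ := cof_inner ξ hξ
  refine ⟨⟨_, _, hξ.star, hξ.star, cof_lam ξ⟩, ?_, ?_⟩
  · have : cof ξ = fun x => inner ℂ (L x) (L 1) := by
      funext x
      rw [← h2, inv_one, one_mul]
    rw [this]
    exact h1.inner continuous_const
  · intro n x c
    rw [pd_inner _ L h2]
    exact ⟨Complex.ofReal_im _, by rw [Complex.ofReal_re]; positivity⟩

lemma bound {P : Type} [Group P] (π : G →* P) (hKc : IsCompact {g | π g = 1})
    (hKo : IsOpen {g | π g = 1}) {I : Type} [Fintype I] (gen : I → G) (coef : I → ℝ) (D' : ℝ)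
    (h0 : 0 ≤ D') (Φ : G → ℂ) (h2 : ∀ g k, π k = 1 → Φ (g * k) = Φ g)
    (hap : ∀ C : Set G, IsCompact C → ∀ ε : ℝ, 0 < ε → ∃ ψ : G → ℂ,
      (∀ g, IntegrableOn (fun k => ψ (g * k)) {g | π g = 1} Measure.haar) ∧
      ∑ i, coef i * (∫ k in {g | π g = 1}, ψ (gen i * k) ∂Measure.haar).re ≤
        D' * (∫ k in {g | π g = 1}, ψ (1 * k) ∂Measure.haar).re ∧
      ∀ x ∈ C, ‖Φ x - ψ x‖ < ε) :
    ∑ i, coef i * (Φ (gen i)).re ≤ D' * (Φ 1).re := by
  set μ : Measure G := Measure.haar with hμ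
  set K : Set G := {g | π g = 1} with hK
  set M : ℝ := ∑ i, |coef i| with hM
  have hM0 : 0 ≤ M := Finset.sum_nonneg (fun i _ => abs_nonneg _)
  have hc0 : 0 < μ.real K :=
    ENNReal.toReal_pos (hKo.measure_pos μ ⟨1, map_one π⟩).ne' hKc.measure_lt_top.ne
  set c := μ.real K with hc
  apply le_of_forall_pos_le_add
  intro δ hδ
  set ε : ℝ := δ / (M + D' + 1) with hε
  have hε0 : 0 < ε := div_pos hδ (by linarith)
  have hε1 : ε * (M + D' + 1) = δ := div_mul_cancel₀ _ (by linarith)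
  obtain ⟨ψ, hi, hU, h⟩ := hap (K ∪ ⋃ i, (fun k => gen i * k) '' K)
    (hKc.union (isCompact_iUnion (fun i => hKc.image (by fun_prop)))) ε hε0
  have key : ∀ g, (∀ k ∈ K, ‖Φ (g * k) - ψ (g * k)‖ < ε) →
      |(∫ k in K, ψ (g * k) ∂μ).re - c * (Φ g).re| ≤ ε * c := by
    intro g hg
    have e1 := norm_setIntegral_le_of_norm_le_const (μ := μ) (s := K) (C := ε)
      (f := fun k => ψ (g * k) - Φ g) hKc.measure_lt_top (fun k hk => by
        rw [norm_sub_rev, ← h2 g k hk]
        exact (hg k hk).le)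
    rw [integral_sub (hi g) (integrableOn_const hKc.measure_lt_top.ne), setIntegral_const] at e1
    have e2 := (Complex.abs_re_le_norm _).trans e1
    simpa using e2
  have k1 := key 1 (fun k hk => h _ (Or.inl (by rwa [one_mul])))
  have k2 : ∀ i, |(∫ k in K, ψ (gen i * k) ∂μ).re - c * (Φ (gen i)).re| ≤ ε * c := fun i =>
    key _ (fun k hk => h _ (Or.inr (Set.mem_iUnion.2 ⟨i, k, hk, rfl⟩)))
  have k3 : ∀ i, c * (coef i * (Φ (gen i)).re) - ε * c * |coef i| ≤
      coef i * (∫ k in K, ψ (gen i * k) ∂μ).re := by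
    intro i
    have e1 := mul_le_mul_of_nonneg_left (k2 i) (abs_nonneg (coef i))
    rw [← abs_mul] at e1
    have e2 := (abs_le.1 e1).1
    nlinarith
  have k4 := Finset.sum_le_sum (fun i (_ : i ∈ Finset.univ) => k3 i)
  rw [Finset.sum_sub_distrib, ← Finset.mul_sum, ← Finset.mul_sum, ← hM] at k4
  have k5 := mul_le_mul_of_nonneg_left (abs_le.1 k1).2 h0
  have k6 : c * (∑ i, coef i * (Φ (gen i)).re) ≤ c * (D' * (Φ 1).re + ε * (M + D')) := by
    nlinarith
  have k7 := le_of_mul_le_mul_left k6 hc0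
  nlinarith

end Group

/-- The abstract power trick. -/
lemma power {G : Type} [Group G] {H : Type u} [NormedAddCommGroup H] [InnerProductSpace ℂ H]
    [CompleteSpace H] (ρ : G →* (H ≃ₗᵢ[ℂ] H)) (K : Set G) (hK : ∀ k ∈ K, ∀ g, k * g = g * k)
    {I : Type} [Fintype I] (gen : I → G) (coef : I → ℝ) (D D' : ℝ) (h0 : 0 ≤ D') (hD : D' < D)
    (hU : ∀ a : H, (∀ k ∈ K, ρ k a = a) →
      ∑ i, coef i * (inner ℂ a (ρ (gen i) a)).re ≤ D' * ‖a‖ ^ 2)
    (φ : G → ℝ) (h1 : φ 1 = 1) (h2 : ∀ g, ∀ k ∈ K, φ (g * k) = φ g)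
    (h3 : ∑ i, coef i * φ (gen i) = D) (h4 : ∀ g, φ g⁻¹ = φ g)
    (h5 : ∀ (s : Finset G) (c : G → ℂ),
      0 ≤ (∑ x ∈ s, ∑ y ∈ s, c x * (starRingEnd ℂ) (c y) * φ (y⁻¹ * x)).re)
    (v w : H) (h6 : ∀ x, (φ x : ℂ) = inner ℂ w (ρ x v)) : False := by
  have hmul : ∀ x y a, ρ (x * y) a = ρ x (ρ y a) := by
    intro x y a
    rw [map_mul]
    rfl
  have hone : ∀ a, ρ 1 a = a := by
    intro a
    rw [map_one]
    rfl
  have hadj : ∀ x a b, inner ℂ (ρ x a) b = inner ℂ a (ρ x⁻¹ b) := by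
    intro x a b
    rw [← (ρ x).inner_map_map a (ρ x⁻¹ b), ← hmul, mul_inv_cancel, hone]
  -- an invariant vector
  obtain ⟨b, hb1, hb2⟩ : ∃ b : H, (∀ k ∈ K, ρ k b = b) ∧ ∀ x, (φ x : ℂ) = inner ℂ w (ρ x b) := by
    set N : Submodule ℂ H := ⨅ x, (ℂ ∙ (ρ x w))ᗮ with hN
    have mN : ∀ a, a ∈ N ↔ ∀ x, inner ℂ (ρ x w) a = 0 := by
      intro a
      simp only [hN, Submodule.mem_iInf, Submodule.mem_orthogonal_singleton_iff_inner_right]
    have hcl : IsClosed (N : Set H) := by
      rw [hN, Submodule.coe_iInf]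
      exact isClosed_iInter (fun x => Submodule.isClosed_orthogonal _)
    have := hcl.completeSpace_coe
    obtain ⟨a, ha, b, hb, hab⟩ := N.exists_add_mem_mem_orthogonal v
    have hNi : ∀ x a, a ∈ N → ρ x a ∈ N := by
      intro x a ha
      rw [mN] at ha ⊢
      intro y
      have := ha (x⁻¹ * y)
      rw [hmul, hadj, inv_inv] at this
      exact this
    have e1 : ∀ x, (φ x : ℂ) = inner ℂ w (ρ x b) := by
      intro x
      have := (mN _).1 (hNi x a ha) 1
      rw [hone] at this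
      rw [h6, hab, map_add, inner_add_right, this, zero_add]
    refine ⟨b, fun k hk => ?_, e1⟩
    have e2 : ρ k b - b ∈ N := by
      rw [mN]
      intro x
      rw [inner_sub_right, hadj, hadj, ← hmul, ← e1, ← e1, h2 _ k hk, sub_self]
    have e3 : ρ k b - b ∈ Nᗮ := by
      refine Submodule.sub_mem _ ?_ hb
      rw [Submodule.mem_orthogonal]
      intro a ha
      have := (Submodule.mem_orthogonal _ _).1 hb _ (hNi k⁻¹ a ha)
      rwa [hadj, inv_inv] at this
    have e4 := (Submodule.mem_orthogonal _ _).1 e3 _ e2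
    exact sub_eq_zero.1 (inner_self_eq_zero.1 e4)
  set R : G → Module.End ℂ H := fun x => (ρ x).toLinearEquiv.toLinearMap with hR
  have hR1 : ∀ x a, R x a = ρ x a := fun _ _ => rfl
  set M : ℝ := ∑ i, |coef i| + 1 with hM
  have hM0 : 0 < M := by
    have : 0 ≤ ∑ i, |coef i| := Finset.sum_nonneg (fun i _ => abs_nonneg _)
    linarith
  set T : Module.End ℂ H := (M : ℂ) • R 1 +
    ∑ i, ((coef i / 2 : ℝ) : ℂ) • (R (gen i) + R (gen i)⁻¹) with hT
  have hT1 : ∀ a, T a = (M : ℂ) • a +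
      ∑ i, ((coef i / 2 : ℝ) : ℂ) • (ρ (gen i) a + ρ (gen i)⁻¹ a) := by
    intro a
    simp only [hT, LinearMap.add_apply, LinearMap.smul_apply, LinearMap.sum_apply, hR1, hone]
  have hTs : ∀ a c, inner ℂ (T a) c = inner ℂ a (T c) := by
    intro a c
    simp only [hT1, inner_add_left, inner_add_right, sum_inner, inner_sum, inner_smul_left,
      inner_smul_right, Complex.conj_ofReal, hadj, inv_inv]
    congr 1
    apply Finset.sum_congr rfl
    intro i _
    ring
  have hTK : ∀ a, (∀ k ∈ K, ρ k a = a) → ∀ k ∈ K, ρ k (T a) = T a := by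
    intro a ha k hk
    simp only [hT1, map_add, map_smul, map_sum, ← hmul, hK k hk]
    simp only [hmul, ha k hk]
  have hq : ∀ a, (inner ℂ a (T a)).re =
      M * ‖a‖ ^ 2 + ∑ i, coef i * (inner ℂ a (ρ (gen i) a)).re := by
    intro a
    have e0 : (inner ℂ a a).re = ‖a‖ ^ 2 := inner_self_eq_norm_sq (𝕜 := ℂ) a
    simp only [hT1, inner_add_right, inner_sum, inner_smul_right, Complex.add_re, Complex.re_sum,
      Complex.re_ofReal_mul, e0]
    congr 1
    apply Finset.sum_congr rfl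
    intro i _
    rw [← hadj, ← inner_conj_symm (ρ (gen i) a) a, Complex.conj_re]
    ring
  have hq0 : ∀ a, 0 ≤ (inner ℂ a (T a)).re := by
    intro a
    rw [hq, hM, add_mul, Finset.sum_mul]
    have e1 : ∀ i, -(|coef i| * ‖a‖ ^ 2) ≤ coef i * (inner ℂ a (ρ (gen i) a)).re := by
      intro i
      have e2 : |(inner ℂ a (ρ (gen i) a)).re| ≤ ‖a‖ ^ 2 := by
        refine (Complex.abs_re_le_norm _).trans ((norm_inner_le_norm _ _).trans ?_)
        rw [LinearIsometryEquiv.norm_map, pow_two]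
      have e3 := mul_le_mul_of_nonneg_left e2 (abs_nonneg (coef i))
      rw [← abs_mul] at e3
      exact (abs_le.1 e3).1
    have e4 := Finset.sum_le_sum (fun i (_ : i ∈ Finset.univ) => e1 i)
    rw [Finset.sum_neg_distrib] at e4
    nlinarith [sq_nonneg ‖a‖]
  have hC0 : 0 < M + D' := by linarith
  have hn : ∀ a, (∀ k ∈ K, ρ k a = a) → ‖T a‖ ≤ (M + D') * ‖a‖ := by
    intro a ha
    set C := M + D' with hC
    have e1 := hq ((C : ℂ) • a + T a)
    have e2 := hU ((C : ℂ) • a + T a) (fun k hk => by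
      rw [map_add, map_smul, ha k hk, hTK a ha k hk])
    have e3 := hq0 ((C : ℂ) • a - T a)
    have e0 : (inner ℂ (T a) (T a)).re = ‖T a‖ ^ 2 := inner_self_eq_norm_sq (𝕜 := ℂ) (T a)
    have e4 : (inner ℂ ((C : ℂ) • a + T a) (T ((C : ℂ) • a + T a))).re -
        (inner ℂ ((C : ℂ) • a - T a) (T ((C : ℂ) • a - T a))).re = 4 * C * ‖T a‖ ^ 2 := by
      simp only [map_add, map_sub, map_smul, inner_add_left, inner_add_right, inner_sub_left,
        inner_sub_right, inner_smul_left, inner_smul_right, Complex.conj_ofReal, Complex.add_re,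
        Complex.sub_re, Complex.re_ofReal_mul, ← hTs a (T a), e0]
      ring
    have e5 : ‖(C : ℂ) • a + T a‖ ≤ C * ‖a‖ + ‖T a‖ := by
      refine (norm_add_le _ _).trans ?_
      rw [norm_smul, Complex.norm_real, Real.norm_of_nonneg hC0.le]
    have e6 := pow_le_pow_left₀ (norm_nonneg _) e5 2
    have e7 : C * (4 * ‖T a‖ ^ 2) ≤ C * (C * ‖a‖ + ‖T a‖) ^ 2 := by
      have := mul_le_mul_of_nonneg_left e6 hC0.le
      nlinarith
    have e8 := le_of_mul_le_mul_left e7 hC0
    have e9 : 2 * ‖T a‖ ≤ C * ‖a‖ + ‖T a‖ :=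
      abs_le_of_sq_le_sq' (by nlinarith) (by positivity) |>.2
    linarith
  have hpow : ∀ n : ℕ, (∀ k ∈ K, ρ k ((T ^ n) b) = (T ^ n) b) ∧
      ‖(T ^ n) b‖ ≤ (M + D') ^ n * ‖b‖ := by
    intro n
    induction n with
    | zero => exact ⟨hb1, by simp⟩
    | succ n ih =>
      rw [pow_succ', Module.End.mul_apply]
      refine ⟨hTK _ ih.1, (hn _ ih.1).trans ?_⟩
      rw [pow_succ', mul_assoc]
      exact mul_le_mul_of_nonneg_left ih.2 hC0.le
  set 𝒜 : Submodule ℂ (Module.End ℂ H) := Submodule.span ℂ (Set.range R) with h𝒜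
  have mA : ∀ x, R x ∈ 𝒜 := fun x => Submodule.subset_span ⟨x, rfl⟩
  have mA1 : ∀ x, ∀ S ∈ 𝒜, R x * S ∈ 𝒜 := by
    intro x S hS
    induction hS using Submodule.span_induction with
    | mem S hS =>
      obtain ⟨y, rfl⟩ := hS
      have : R x * R y = R (x * y) := LinearMap.ext (fun a => (hmul x y a).symm)
      rw [this]
      exact mA _
    | zero => rw [mul_zero]; exact 𝒜.zero_mem
    | add S S' _ _ i1 i2 => rw [mul_add]; exact 𝒜.add_mem i1 i2
    | smul c S _ i1 => rw [mul_smul_comm]; exact 𝒜.smul_mem c i1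
  have hR0 : R 1 = 1 := LinearMap.ext hone
  have mA2 : ∀ n : ℕ, T ^ n ∈ 𝒜 := by
    intro n
    induction n with
    | zero => rw [pow_zero, ← hR0]; exact mA 1
    | succ n ih =>
      rw [pow_succ']
      nth_rewrite 1 [hT]
      rw [add_mul, Finset.sum_mul, smul_mul_assoc]
      refine 𝒜.add_mem (𝒜.smul_mem _ (mA1 _ _ ih)) (𝒜.sum_mem (fun i _ => ?_))
      rw [smul_mul_assoc, add_mul]
      exact 𝒜.smul_mem _ (𝒜.add_mem (mA1 _ _ ih) (mA1 _ _ ih))
  have psd : ∀ S ∈ 𝒜, 0 ≤ (inner ℂ (S w) (S b)).re := by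
    intro S hS
    obtain ⟨c, rfl⟩ := Finsupp.mem_span_range_iff_exists_finsupp.1 hS
    have e1 := h5 c.support c
    convert e1 using 2
    simp only [Finsupp.sum, LinearMap.sum_apply, LinearMap.smul_apply, hR1, sum_inner, inner_sum,
      inner_smul_left, inner_smul_right, hadj, ← hmul, ← hb2, Finset.mul_sum]
    apply Finset.sum_congr rfl
    intro x _
    apply Finset.sum_congr rfl
    intro y _
    ring
  have hTn : ∀ (n : ℕ) a c, inner ℂ ((T ^ n) a) c = inner ℂ a ((T ^ n) c) := by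
    intro n
    induction n with
    | zero => intro a c; rfl
    | succ n ih =>
      intro a c
      conv_lhs => rw [pow_succ', Module.End.mul_apply, hTs, ih]
      rw [pow_succ, Module.End.mul_apply]
  set t : ℕ → ℝ := fun n => (inner ℂ w ((T ^ n) b)).re with ht
  have t0 : (inner ℂ w b).re = 1 := by
    have := hb2 1
    rw [hone, h1] at this
    rw [← this]
    rfl
  have t1 : t 1 = M + D := by
    simp only [ht, pow_one, hT1, inner_add_right, inner_sum, inner_smul_right, ← hb2, h4,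
      Complex.add_re, Complex.re_sum, Complex.re_ofReal_mul, t0, Complex.ofReal_re, ← h3]
    congr 1
    · ring
    · apply Finset.sum_congr rfl
      intro i _
      ring
  have t2 : ∀ n, t n ^ 2 ≤ t (2 * n) := by
    intro n
    have e1 := psd (T ^ n - (t n : ℂ) • R 1) (𝒜.sub_mem (mA2 n) (𝒜.smul_mem _ (mA 1)))
    simp only [LinearMap.sub_apply, LinearMap.smul_apply, hR1, hone, inner_sub_left,
      inner_sub_right, inner_smul_left, inner_smul_right, Complex.conj_ofReal, hTn,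
      Complex.sub_re, Complex.re_ofReal_mul, t0, ← Module.End.mul_apply, ← pow_add,
      ← two_mul] at e1
    have e2 : (inner ℂ w ((T ^ n) b)).re = t n := rfl
    have e3 : (inner ℂ w ((T ^ (2 * n)) b)).re = t (2 * n) := rfl
    rw [e2, e3] at e1
    nlinarith
  have t3 : ∀ j : ℕ, (M + D) ^ (2 ^ j) ≤ t (2 ^ j) := by
    intro j
    induction j with
    | zero => simp [t1]
    | succ j ih =>
      rw [pow_succ', pow_mul']
      exact (pow_le_pow_left₀ (pow_nonneg (by linarith) _) ih 2).trans (t2 _)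
  have t4 : ∀ n, t n ≤ ‖w‖ * ‖b‖ * (M + D') ^ n := by
    intro n
    refine (Complex.re_le_norm _).trans ((norm_inner_le_norm _ _).trans ?_)
    have := mul_le_mul_of_nonneg_left (hpow n).2 (norm_nonneg w)
    linarith
  have hq1 : 1 < (M + D) / (M + D') := (one_lt_div hC0).2 (by linarith)
  obtain ⟨j, hj⟩ := pow_unbounded_of_one_lt (‖w‖ * ‖b‖) hq1
  have e1 : ((M + D) / (M + D')) ^ j ≤ ((M + D) / (M + D')) ^ (2 ^ j) :=
    pow_le_pow_right₀ hq1.le (Nat.lt_two_pow_self).le
  have e2 : ((M + D) / (M + D')) ^ (2 ^ j) ≤ ‖w‖ * ‖b‖ := by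
    rw [div_pow, div_le_iff₀ (by positivity)]
    exact (t3 j).trans (t4 _)
  linarith

/-- The counterexample. -/
theorem counter : ∃ (G : Type) (_ : Group G) (_ : TopologicalSpace G) (_ : IsTopologicalGroup G)
    (_ : LocallyCompactSpace G) (_ : T2Space G) (_ : SecondCountableTopology G)
    (_ : MeasurableSpace G) (_ : BorelSpace G),
    (∃ K : Subgroup G, IsOpen (K : Set G) ∧ IsCompact (K : Set G) ∧ K ≤ Subgroup.center G ∧
      Amenable K) ∧ ¬ IsEberlein.{u} G := by
  obtain ⟨G, _, _, _, _, _, _, _, _, P, _, π, I, _, gen, coef, D, D', φ, h1, h2, h3, h4, h5, h6, h7,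
    h8, h9, h10, h11⟩ := Pool.Agent.H818Z.main
  have hcen : ∀ k, π k = 1 → ∀ g, k * g = g * k := by
    intro k hk g
    have e1 := h3 k hk 1
    rw [mul_one, one_mul] at e1
    have e2 := h3 k hk g
    rwa [e1] at e2
  refine ⟨G, _, _, inferInstance, inferInstance, inferInstance, inferInstance, _, inferInstance,
    ⟨π.ker, h2, h1, fun k hk => Subgroup.mem_center_iff.2 (fun g => (hcen k hk g).symm), ?_⟩, ?_⟩
  · have : CompactSpace π.ker := isCompact_iff_compactSpace.1 h1
    exact amenable_of_compact _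
  · intro hE
    have hcl : ∀ s : Set (G → ℂ), IsClosed s → (∀ ξ : G → ℂ,
        MemLp ξ 2 (Measure.haar : Measure G) → cof ξ ∈ s) → (fun x => (φ x : ℂ)) ∈ s := by
      intro s hs h
      refine closure_minimal ?_ hs h8
      rintro ψ ⟨ξ, e1, e2⟩
      rw [show ψ = cof ξ from funext e2]
      exact h ξ e1
    obtain ⟨H, _, _, _, ρ, -, hW, v, w, hφ⟩ := hE (fun x => (φ x : ℂ))
      (Complex.continuous_ofReal.comp h7)
      (hcl _ isClosed_closure (fun ξ hξ => subset_closure (cof_mem ξ hξ)))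
    refine power ρ {g | π g = 1} hcen gen coef D D' h4 h5 ?_ φ h9 h10 h11 ?_ ?_ v w hφ
    · intro a ha
      have e1 := bound π h1 h2 gen coef D' h4 (fun x => inner ℂ a (ρ x a)) ?_ ?_
      · have e2 : (inner ℂ a (ρ 1 a)).re = ‖a‖ ^ 2 := by
          rw [map_one]
          exact inner_self_eq_norm_sq (𝕜 := ℂ) a
        simp only [e2] at e1
        exact e1
      · intro g k hk
        rw [map_mul]
        show inner ℂ a (ρ g (ρ k a)) = _
        rw [ha k hk]
      · intro C hC ε hε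
        obtain ⟨n, ξ, k1, k2⟩ := hW a C hC ε hε
        have k3 := fun i => h6 _ (k1 i).star
        have k4 : ∀ g, ∫ k in {g | π g = 1}, ∑ i, lamCoef G (ξ i) (ξ i) (g * k) ∂Measure.haar =
            ∑ i, ∫ k in {g | π g = 1}, cof (star (ξ i)) (g * k) ∂Measure.haar := by
          intro g
          simp only [lam_cof]
          exact integral_finsetSum _ (fun i _ => (k3 i).1 g)
        refine ⟨fun x => ∑ i, lamCoef G (ξ i) (ξ i) x, fun g => ?_, ?_, k2⟩
        · simp only [lam_cof]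
          exact integrable_finsetSum _ (fun i _ => (k3 i).1 g)
        · simp only [k4, Complex.re_sum, Finset.mul_sum]
          rw [Finset.sum_comm]
          exact Finset.sum_le_sum (fun i _ => (k3 i).2)
    · intro g
      have e1 := hcl {ψ | ψ g⁻¹ = (starRingEnd ℂ) (ψ g)}
        (isClosed_eq (by fun_prop) (by fun_prop)) (fun ξ hξ => by
          obtain ⟨L, -, k2⟩ := cof_inner ξ hξ
          have k3 := k2 1 g
          have k4 := k2 g 1
          rw [mul_one] at k3
          rw [inv_one, one_mul] at k4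
          show cof ξ g⁻¹ = (starRingEnd ℂ) (cof ξ g)
          rw [k3, k4, inner_conj_symm])
      have e2 : ((φ g⁻¹ : ℝ) : ℂ) = (starRingEnd ℂ) (φ g : ℂ) := e1
      rw [Complex.conj_ofReal] at e2
      exact_mod_cast e2
    · intro s c
      exact hcl {ψ | 0 ≤ (∑ x ∈ s, ∑ y ∈ s, c x * (starRingEnd ℂ) (c y) * ψ (y⁻¹ * x)).re}
        (isClosed_le (by fun_prop) (by fun_prop)) (fun ξ hξ => by
          obtain ⟨L, -, k2⟩ := cof_inner ξ hξ
          show 0 ≤ (∑ x ∈ s, ∑ y ∈ s, c x * (starRingEnd ℂ) (c y) * cof ξ (y⁻¹ * x)).re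
          rw [pd_inner _ L k2 s (fun x => x) c, Complex.ofReal_re]
          positivity)

end Pool.Agent.H818Z.Eb
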