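import Pool.Agent.H17R2.Tree

/-!
Gates of convex subsets of the tree of a free group.
-/

namespace Pool.Agent.H818Z

open Pool.Agent.H17R2 FreeGroup

variable {α : Type} [DecidableEq α]

lemma fd_four (p q r s : FreeGroup α) :
    fd p q + fd r s ≤ max (fd p r + fd q s) (fd p s + fd q r) := (fTree α).four p q r s

lemma fd_def (p q : FreeGroup α) : fd p q = (norm (p⁻¹ * q) : ℤ) := rfl

lemma norm_mk_red {w : List (α × Bool)} (h : FreeGroup.IsReduced w) :
    norm (mk w) = w.length := by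
  rw [FreeGroup.norm, toWord_mk, h.reduce_eq]

lemma exists_median (c p y : FreeGroup α) : ∃ m, fd c m + fd m p = fd c p ∧
    fd c m + fd m y = fd c y ∧ fd p y = fd c p + fd c y - 2 * fd c m := by
  obtain ⟨w, u, v, h1, h2, h3, -⟩ := lcp_spec (c⁻¹ * p).toWord (c⁻¹ * y).toWord
  have r1 := isReduced_toWord (x := c⁻¹ * p)
  have r2 := isReduced_toWord (x := c⁻¹ * y)
  rw [h1] at r1
  rw [h2] at r2
  have rw1 : FreeGroup.IsReduced w := (List.isChain_append.1 r1).1
  have ru : FreeGroup.IsReduced u := (List.isChain_append.1 r1).2.1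
  have rv : FreeGroup.IsReduced v := (List.isChain_append.1 r2).2.1
  have e1 : c⁻¹ * p = mk w * mk u := by rw [mul_mk, ← h1, mk_toWord]
  have e2 : c⁻¹ * y = mk w * mk v := by rw [mul_mk, ← h2, mk_toWord]
  have n0 : fd c (c * mk w) = w.length := by
    rw [fd_def, inv_mul_cancel_left, norm_mk_red rw1]
  have n1 : fd (c * mk w) p = u.length := by
    have : (c * mk w)⁻¹ * p = mk u := by
      rw [mul_inv_rev, mul_assoc, e1, inv_mul_cancel_left]
    rw [fd_def, this, norm_mk_red ru]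
  have n2 : fd (c * mk w) y = v.length := by
    have : (c * mk w)⁻¹ * y = mk v := by
      rw [mul_inv_rev, mul_assoc, e2, inv_mul_cancel_left]
    rw [fd_def, this, norm_mk_red rv]
  have n3 : fd c p = w.length + u.length := by
    rw [fd_def, FreeGroup.norm, h1]; simp
  have n4 : fd c y = w.length + v.length := by
    rw [fd_def, FreeGroup.norm, h2]; simp
  refine ⟨c * mk w, by rw [n0, n1, n3], by rw [n0, n2, n4], ?_⟩
  rw [fd_base c p y, ← h3, n0]

/-- `z` lies between `p` and `q`. -/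
def Btw (p z q : FreeGroup α) : Prop := fd p z + fd z q = fd p q

/-- Convex sets. -/
def Cvx (Y : Set (FreeGroup α)) : Prop := ∀ p ∈ Y, ∀ q ∈ Y, ∀ z, Btw p z q → z ∈ Y

lemma Btw.symm {p z q : FreeGroup α} (h : Btw p z q) : Btw q z p := by
  unfold Btw at *
  rw [fd_comm q z, fd_comm z p, fd_comm q p]; omega

lemma Btw.mul {p z q : FreeGroup α} (h : Btw p z q) (g : FreeGroup α) :
    Btw (g * p) (g * z) (g * q) := by
  unfold Btw at *
  rwa [fd_mul, fd_mul, fd_mul]

/-- Two points between `p` and `q` are comparable. -/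
lemma Btw.dist {p q z z' : FreeGroup α} (h : Btw p z q) (h' : Btw p z' q)
    (hle : fd p z ≤ fd p z') : fd z z' = fd p z' - fd p z := by
  unfold Btw at *
  have h1 := fd_four p q z z'
  have h2 := fd_tri p z z'
  have h3 := fd_comm q z'
  have h4 := fd_comm q z
  rcases le_max_iff.1 h1 with h5 | h5 <;> omega

/-- The nearest point projection. -/
noncomputable def gate (Y : Set (FreeGroup α)) (p : FreeGroup α) : FreeGroup α :=
  Classical.epsilon (fun c => c ∈ Y ∧ ∀ y ∈ Y, fd p y = fd p c + fd c y)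

lemma exists_gate {Y : Set (FreeGroup α)} (hY : Cvx Y) (hne : Y.Nonempty) (p : FreeGroup α) :
    ∃ c, c ∈ Y ∧ ∀ y ∈ Y, fd p y = fd p c + fd c y := by
  classical
  obtain ⟨c, hc, hmin⟩ : ∃ c ∈ Y, ∀ y ∈ Y, fd p c ≤ fd p y := by
    have hex : ∃ n : ℕ, ∃ c ∈ Y, fd p c = n := by
      obtain ⟨y, hy⟩ := hne
      exact ⟨_, y, hy, rfl⟩
    obtain ⟨c, hc, hcn⟩ := Nat.find_spec hex
    refine ⟨c, hc, fun y hy => ?_⟩
    have := Nat.find_min' hex (m := norm (p⁻¹ * y)) ⟨y, hy, rfl⟩
    rw [hcn, fd_def]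
    exact_mod_cast this
  refine ⟨c, hc, fun y hy => ?_⟩
  obtain ⟨m, h1, h2, h3⟩ := exists_median c p y
  have hm : m ∈ Y := hY c hc y hy m h2
  have h4 := hmin m hm
  have h5 := fd_comm m p
  have h6 := fd_comm c p
  have h7 := fd_nonneg c m
  omega

section

variable {Y Z : Set (FreeGroup α)}

lemma gate_mem (hY : Cvx Y) (hne : Y.Nonempty) (p : FreeGroup α) : gate Y p ∈ Y :=
  (Classical.epsilon_spec (exists_gate hY hne p)).1

lemma gate_spec (hY : Cvx Y) (hne : Y.Nonempty) (p : FreeGroup α) {y : FreeGroup α} (hy : y ∈ Y) :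
    fd p y = fd p (gate Y p) + fd (gate Y p) y :=
  (Classical.epsilon_spec (exists_gate hY hne p)).2 y hy

lemma gate_eq (hY : Cvx Y) (p : FreeGroup α) {c : FreeGroup α} (hc : c ∈ Y)
    (h : ∀ y ∈ Y, fd p c ≤ fd p y) : gate Y p = c := by
  have hne : Y.Nonempty := ⟨c, hc⟩
  have h1 := gate_spec hY hne p hc
  have h2 := h _ (gate_mem hY hne p)
  have h3 := fd_nonneg (gate Y p) c
  exact fd_zero _ _ (by omega)

lemma gate_self (hY : Cvx Y) {p : FreeGroup α} (hp : p ∈ Y) : gate Y p = p :=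
  gate_eq hY p hp (fun y _ => by rw [fd_self]; exact fd_nonneg _ _)

lemma gate_d_eq (hY : Cvx Y) (hne : Y.Nonempty) (p q : FreeGroup α) (h : gate Y p ≠ gate Y q) :
    fd p q = fd p (gate Y p) + fd (gate Y p) (gate Y q) + fd (gate Y q) q := by
  set a := gate Y p with ha
  set b := gate Y q with hb
  have h1 := gate_spec hY hne p (gate_mem hY hne q)
  have h2 := gate_spec hY hne q (gate_mem hY hne p)
  rw [← ha, ← hb] at h1 h2
  have h3 := fd_four p b q a
  have h5 : fd a b ≠ 0 := fun h0 => h (fd_zero _ _ h0)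
  have h5' := fd_nonneg a b
  have h6 := fd_tri p a q
  have h7 := fd_tri a b q
  have h9 := fd_comm b q
  have h10 := fd_comm a b
  rcases le_max_iff.1 h3 with h11 | h11 <;> omega

lemma gate_lip (hY : Cvx Y) (hne : Y.Nonempty) (p q : FreeGroup α) :
    fd (gate Y p) (gate Y q) ≤ fd p q := by
  by_cases h : gate Y p = gate Y q
  · rw [h, fd_self]; exact fd_nonneg _ _
  · rw [gate_d_eq hY hne p q h]
    have h1 := fd_nonneg p (gate Y p)
    have h2 := fd_nonneg (gate Y q) q
    omega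

lemma gate_behrstock (hY : Cvx Y) (hne : Y.Nonempty) (hZ : Cvx Z) (hne' : Z.Nonempty)
    (p : FreeGroup α) : gate Y p = gate Y (gate Z p) ∨ gate Z p = gate Z (gate Y p) := by
  by_contra hcon
  push Not at hcon
  obtain ⟨h1, h2⟩ := hcon
  have e1 := gate_d_eq hY hne p (gate Z p) h1
  have e2 := gate_d_eq hZ hne' p (gate Y p) h2
  have p1 : fd (gate Y p) (gate Y (gate Z p)) ≠ 0 := fun h0 => h1 (fd_zero _ _ h0)
  have n0 := fd_nonneg (gate Y p) (gate Y (gate Z p))
  have n1 := fd_nonneg (gate Y (gate Z p)) (gate Z p)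
  have n2 := fd_nonneg (gate Z p) (gate Z (gate Y p))
  have n3 := fd_nonneg (gate Z (gate Y p)) (gate Y p)
  omega

/-- If two points of `Z` have different gates in `Y`, then these gates lie in `Z`. -/
lemma gate_mem_other (hY : Cvx Y) (hne : Y.Nonempty) (hZ : Cvx Z) {y y' : FreeGroup α}
    (hy : y ∈ Z) (hy' : y' ∈ Z) (h : gate Y y ≠ gate Y y') : gate Y y ∈ Z ∧ gate Y y' ∈ Z := by
  have e := gate_d_eq hY hne y y' h
  have t1 := fd_tri (gate Y y) (gate Y y') y'
  have t2 := fd_tri y (gate Y y) y'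
  have t3 := fd_tri y (gate Y y) (gate Y y')
  have t4 := fd_tri y (gate Y y') y'
  constructor
  · apply hZ y hy y' hy'
    unfold Btw
    omega
  · apply hZ y hy y' hy'
    unfold Btw
    omega

lemma gate_mul (hY : Cvx Y) (hne : Y.Nonempty) (hZ : Cvx Z) (g : FreeGroup α)
    (h : ∀ p, g * p ∈ Z ↔ p ∈ Y) (p : FreeGroup α) : gate Z (g * p) = g * gate Y p := by
  apply gate_eq hZ
  · exact (h _).2 (gate_mem hY hne p)
  · intro y hy
    have hy' : g⁻¹ * y ∈ Y := (h _).1 (by simpa using hy)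
    have h1 := gate_spec hY hne p hy'
    have h2 := fd_mul g p (g⁻¹ * y)
    rw [mul_inv_cancel_left] at h2
    rw [fd_mul, h2, h1]
    have := fd_nonneg (gate Y p) (g⁻¹ * y)
    omega

end

/-- A point between `1` and `u` is given by a prefix of the reduced word of `u`. -/
lemma Btw.pref {z u : FreeGroup α} (h : Btw 1 z u) : ∃ b, u.toWord = z.toWord ++ b := by
  obtain ⟨c, a, b, h1, h2, h3, -⟩ := lcp_spec z.toWord u.toWord
  have h4 := norm_inv_mul z u
  unfold Btw at h
  rw [fd_one, fd_one, fd_def, h4] at h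
  have h5 : (lcp z.toWord u.toWord : ℤ) = norm z := by omega
  have h6 : norm z = c.length + a.length := by rw [FreeGroup.norm, h1]; simp
  have h7 : a.length = 0 := by omega
  have h8 : a = [] := List.length_eq_zero_iff.1 h7
  refine ⟨b, ?_⟩
  rw [h2, h1, h8, List.append_nil]

end Pool.Agent.H818Z
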