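import Pool.Agent.H818Z.Sys

/-!
The quotient group: geodesics, descending edges, and the density of unfrustrated edges.
-/

namespace Pool.Agent.H818Z

open Pool.Agent.H17R2
open FreeGroup hiding map_mul map_inv map_one

/-- A letter as an element of the free group. -/
def el {S : Type} (a : S × Bool) : FreeGroup S := FreeGroup.mk [a]

/-- The inverse letter. -/
def bar {S : Type} (a : S × Bool) : S × Bool := (a.1, !a.2)

lemma bar_bar {S : Type} (a : S × Bool) : bar (bar a) = a := by simp [bar]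

lemma el_bar {S : Type} (a : S × Bool) : el (bar a) = (el a)⁻¹ := by
  unfold el
  rw [inv_mk]; rfl

lemma toWord_el {S : Type} [DecidableEq S] (a : S × Bool) : (el a).toWord = [a] := by
  simp [el, toWord_mk]

lemma norm_el {S : Type} [DecidableEq S] (a : S × Bool) : (el a).norm = 1 := by
  rw [FreeGroup.norm, toWord_el]; rfl

lemma norm_glue {S : Type} [DecidableEq S] {w w' : FreeGroup S} {a a' : S × Bool}
    (h : (w * el a).norm + 1 = w.norm) (h' : (w' * el a').norm + 1 = w'.norm) (hne : a ≠ a') :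
    ((w * w'⁻¹).norm : ℤ) = w.norm + w'.norm := by
  have key : ∀ (w : FreeGroup S) (a : S × Bool), (w * el a).norm + 1 = w.norm →
      ∃ b, w⁻¹.toWord = a :: b := by
    intro w a h
    have hb : Btw 1 (el a) w⁻¹ := by
      unfold Btw
      rw [fd_one, fd_one, fd_def, norm_el, ← mul_inv_rev, norm_inv_eq, norm_inv_eq]
      omega
    obtain ⟨b, hb⟩ := hb.pref
    exact ⟨b, by rw [hb, toWord_el]; rfl⟩
  obtain ⟨b, hb⟩ := key w a h
  obtain ⟨b', hb'⟩ := key w' a' h'
  have h1 := norm_inv_mul w⁻¹ w'⁻¹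
  rw [inv_inv, hb, hb', norm_inv_eq, norm_inv_eq] at h1
  rw [h1]
  simp [lcp, hne]

lemma exists_last {S : Type} [DecidableEq S] {w : FreeGroup S} (h : w.norm ≠ 0) :
    ∃ b, (w * el b).norm + 1 = w.norm := by
  rcases List.eq_nil_or_concat w.toWord with h0 | ⟨l, a, hl⟩
  · exfalso
    apply h
    simp [FreeGroup.norm, h0]
  · have hn : w.norm = l.length + 1 := by rw [FreeGroup.norm, hl]; simp
    have e : w = FreeGroup.mk l * el a := by
      rw [el, mul_mk, ← List.concat_eq_append, ← hl, mk_toWord]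
    have hr : FreeGroup.IsReduced l := by
      have h5 := isReduced_toWord (x := w)
      rw [hl, List.concat_eq_append] at h5
      exact (List.isChain_append.1 h5).1
    refine ⟨bar a, ?_⟩
    have e2 : w * el (bar a) = FreeGroup.mk l := by
      rw [el_bar]
      conv_lhs => rw [e]
      rw [mul_inv_cancel_right]
    rw [e2, norm_mk_red hr, hn]

namespace Sys

variable {V J S : Type} (X : Sys V J S)

/-- The normal subgroup of the relations. -/
noncomputable def RR : Subgroup (FreeGroup S) := X.NN.map (MonoidHom.fst _ _)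

instance RR_normal : X.RR.Normal :=
  Subgroup.Normal.map X.NN_normal _ (fun u => ⟨(u, 1), rfl⟩)

/-- The small cancellation group. -/
abbrev Q : Type := FreeGroup S ⧸ X.RR

/-- The projection. -/
noncomputable def pr : FreeGroup S →* X.Q := QuotientGroup.mk' X.RR

lemma pr_surj : Function.Surjective X.pr := QuotientGroup.mk'_surjective _

lemma pr_eq_one {u : FreeGroup S} : X.pr u = 1 ↔ ∃ κ, (u, κ) ∈ X.NN := by
  rw [pr, QuotientGroup.mk'_apply, QuotientGroup.eq_one_iff]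
  constructor
  · rintro ⟨⟨u', κ⟩, h, rfl⟩
    exact ⟨κ, h⟩
  · rintro ⟨κ, h⟩
    exact ⟨(u, κ), h, rfl⟩

lemma pr_reach {v : V} {u : FreeGroup S} (h : X.Reach v u v) : X.pr u = 1 :=
  X.pr_eq_one.2 ⟨_, X.mem_NN_of_reach h⟩

lemma pr_Hs {g : FreeGroup S} {v : V} {k : FreeGroup S × Kg} (h : k ∈ X.Hs g v) : X.pr k.1 = 1 :=
  X.pr_eq_one.2 ⟨k.2, X.Hs_le g v h⟩

lemma par_nb (j : J) (v : V) : X.par (X.nb j v) = !X.par v := by
  rw [← X.lt_par (X.nb j v) j, X.lt_nb, X.lt_par]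

lemma lt_nb' (j : J) (v : V) : X.lt (X.nb j v) j = bar (X.lt v j) := X.lt_nb j v

/-- The parity of the length. -/
noncomputable def ln (u : FreeGroup S) : ZMod 2 :=
  Multiplicative.toAdd (FreeGroup.lift (fun _ : S => Multiplicative.ofAdd (1 : ZMod 2)) u)

lemma ln_mul (u u' : FreeGroup S) : ln (u * u') = ln u + ln u' := by simp [ln]

lemma ln_one : ln (1 : FreeGroup S) = 0 := by simp [ln]

lemma ln_inv (u : FreeGroup S) : ln u⁻¹ = ln u := by
  have h := ln_mul u u⁻¹
  rw [mul_inv_cancel, ln_one] at h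
  have h2 : ∀ a b : ZMod 2, 0 = a + b → b = a := by decide
  exact h2 _ _ h

lemma ln_el (a : S × Bool) : ln (el a) = 1 := by
  obtain ⟨s, b⟩ := a
  cases b
  · have : (el (s, false) : FreeGroup S) = (of s)⁻¹ := by rw [el, of, inv_mk]; rfl
    rw [this, ln_inv]; simp [ln]
  · have : (el (s, true) : FreeGroup S) = of s := rfl
    rw [this]; simp [ln]

lemma ln_mk (l : List (S × Bool)) : ln (FreeGroup.mk l) = (l.length : ZMod 2) := by
  induction l with
  | nil => exact ln_one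
  | cons a l ih =>
    have e : FreeGroup.mk (a :: l) = el a * FreeGroup.mk l := by rw [el, mul_mk]; rfl
    rw [e, ln_mul, ln_el, ih, List.length_cons]
    push_cast
    ring

lemma ln_reach {v v' : V} {u : FreeGroup S} (h : X.Reach v u v') :
    ln u = if X.par v = X.par v' then 0 else 1 := by
  obtain ⟨l, rfl, rfl⟩ := h
  induction l generalizing v with
  | nil => exact ln_one.trans (if_pos rfl).symm
  | cons j l ih =>
    have e : (FreeGroup.mk (X.wd v (j :: l)) : FreeGroup S) =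
        el (X.lt v j) * FreeGroup.mk (X.wd (X.nb j v) l) := by
      rw [el, mul_mk]; rfl
    have e2 : X.wk v (j :: l) = X.wk (X.nb j v) l := rfl
    rw [e, ln_mul, ln_el, ih, e2, par_nb]
    cases X.par v <;> cases X.par (X.wk (X.nb j v) l) <;> decide

lemma ln_NN {x : FreeGroup S × Kg} (hx : x ∈ X.NN) : ln x.1 = 0 := by
  unfold NN at hx
  induction hx using Subgroup.iSup_induction' with
  | hp i x hx =>
    have h1 := X.ln_reach hx.1
    rw [if_pos rfl, ln_mul, ln_mul, ln_inv] at h1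
    have h2 : ∀ a b : ZMod 2, a + b + a = 0 → b = 0 := by decide
    exact h2 _ _ h1
  | h1 => exact ln_one
  | hmul x y _ _ hx hy => rw [Prod.fst_mul, ln_mul, hx, hy, add_zero]

lemma ln_eq_of_pr {w w' : FreeGroup S} (h : X.pr w = X.pr w') : ln w = ln w' := by
  have h1 : X.pr (w⁻¹ * w') = 1 := by rw [map_mul, map_inv, h, inv_mul_cancel]
  obtain ⟨κ, hκ⟩ := X.pr_eq_one.1 h1
  have h2 := X.ln_NN hκ
  rw [ln_mul, ln_inv] at h2
  have h3 : ∀ a b : ZMod 2, a + b = 0 → a = b := by decide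
  exact h3 _ _ h2

variable [DecidableEq S]

lemma ln_norm (w : FreeGroup S) : ln w = (w.norm : ZMod 2) := by
  conv_lhs => rw [← mk_toWord (x := w)]
  rw [ln_mk]; rfl

lemma exists_om (x : X.Q) : ∃ w, X.pr w = x ∧ ∀ w', X.pr w' = x → w.norm ≤ w'.norm := by
  classical
  have hex : ∃ n, ∃ w, X.pr w = x ∧ w.norm = n := by
    obtain ⟨w, hw⟩ := X.pr_surj x
    exact ⟨_, w, hw, rfl⟩
  obtain ⟨w, hw, hn⟩ := Nat.find_spec hex
  exact ⟨w, hw, fun w' hw' => hn ▸ Nat.find_min' hex ⟨w', hw', rfl⟩⟩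

/-- A geodesic word. -/
noncomputable def om (x : X.Q) : FreeGroup S := (X.exists_om x).choose

/-- The word length in the quotient. -/
noncomputable def nQ (x : X.Q) : ℕ := (X.om x).norm

lemma pr_om (x : X.Q) : X.pr (X.om x) = x := (X.exists_om x).choose_spec.1

lemma nQ_le (w : FreeGroup S) : X.nQ (X.pr w) ≤ w.norm := (X.exists_om _).choose_spec.2 w rfl

lemma nQ_lip (p q : FreeGroup S) : (X.nQ (X.pr q) : ℤ) ≤ X.nQ (X.pr p) + fd p q := by
  have h1 := X.nQ_le (X.om (X.pr p) * (p⁻¹ * q))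
  rw [map_mul, pr_om, ← map_mul, mul_inv_cancel_left] at h1
  have h2 := FreeGroup.norm_mul_le (X.om (X.pr p)) (p⁻¹ * q)
  rw [fd_def]
  unfold nQ at *
  omega

/-- Geodesic words. -/
def Geod (w : FreeGroup S) : Prop := w.norm = X.nQ (X.pr w)

lemma geod_om (x : X.Q) : X.Geod (X.om x) := by
  unfold Geod
  rw [pr_om]; rfl

lemma Geod.pre {w z : FreeGroup S} (h : X.Geod w) (hz : Btw 1 z w) :
    (X.nQ (X.pr z) : ℤ) = fd 1 z := by
  have h1 := X.nQ_lip z w
  have h2 := X.nQ_le z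
  unfold Btw at hz
  unfold Geod at h
  rw [fd_one, fd_one] at hz
  rw [fd_one]
  omega

/-- The end of `w` runs for a long time in the graph, and ends at `v`. -/
def Deep (w : FreeGroup S) (v : V) (m : ℤ) : Prop :=
  ∃ z v', Btw 1 z w ∧ (X.L (X.lev v) : ℤ) + m ≤ 20 * fd z w ∧ X.Reach v (w⁻¹ * z) v'

variable {X}

lemma Deep.mono {w : FreeGroup S} {v : V} (h : X.Deep w v 20) : X.Deep w v 0 := by
  obtain ⟨z, v', h1, h2, h3⟩ := h
  exact ⟨z, v', h1, by omega, h3⟩

lemma Deep.uniq {w : FreeGroup S} {v v' : V} (h : X.Deep w v 0) (h' : X.Deep w v' 0) : v = v' := by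
  have key : ∀ {v v' : V} {z z' : FreeGroup S} {a a' : V}, Btw 1 z w → Btw 1 z' w →
      fd z w ≤ fd z' w → (X.L (X.lev v) : ℤ) + 0 ≤ 20 * fd z w → X.Reach v (w⁻¹ * z) a →
      X.Reach v' (w⁻¹ * z') a' → v = v' := by
    intro v v' z z' a a' h1 h2 hle hL r1 r2
    have h3 : Btw w z z' := by
      have h4 := h1.symm.dist h2.symm (by rw [fd_comm w z, fd_comm w z']; exact hle)
      unfold Btw
      omega
    have h4 := h3.mul w⁻¹
    rw [inv_mul_cancel] at h4
    obtain ⟨b, hb⟩ := r2.pre h4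
    refine r1.sc hb (Or.inl ?_)
    rw [fd_comm, fd_def] at hL
    omega
  obtain ⟨z, a, h1, h2, h3⟩ := h
  obtain ⟨z', a', h1', h2', h3'⟩ := h'
  rcases le_total (fd z w) (fd z' w) with hle | hle
  · exact key h1 h1' hle h2 h3 h3'
  · exact (key h1' h1 hle h2' h3' h3).symm

lemma Deep.back {w : FreeGroup S} {v : V} (h : X.Deep w v 20) {a : S × Bool}
    (ha : (w * el a).norm + 1 = w.norm) :
    a = X.lt v (X.ty a.1) ∧ X.Deep (w * el a) (X.nb (X.ty a.1) v) 0 := by
  obtain ⟨z, v', h1, h2, h3⟩ := h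
  have d1 : fd w (w * el a) = 1 := by rw [fd_def, inv_mul_cancel_left, norm_el]; rfl
  have d1' := fd_comm w (w * el a)
  have hb : Btw 1 (w * el a) w := by
    unfold Btw
    rw [fd_one, fd_one]
    omega
  have hL := X.hL (X.lev v)
  have d2 := fd_comm w z
  have d3 := hb.symm.dist h1.symm (by omega)
  have h4 : Btw w (w * el a) z := by
    unfold Btw
    omega
  have h5 := h4.mul w⁻¹
  rw [inv_mul_cancel, inv_mul_cancel_left] at h5
  obtain ⟨b, hb'⟩ := h3.pre h5
  obtain ⟨l, -, e1, e2⟩ := hb'.red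
  rw [toWord_el] at e1
  have e3 : l = [X.ty a.1] := by
    rw [← X.wd_map v l, ← e1]; rfl
  subst e3
  have e4 : a = X.lt v (X.ty a.1) := by
    simpa [word] using e1
  have e5 : b = X.nb (X.ty a.1) v := e2
  subst e5
  refine ⟨e4, z, v', ?_, ?_, ?_⟩
  · unfold Btw at h1 hb ⊢
    have := fd_comm z (w * el a)
    omega
  · rw [X.lev_nb]
    have := fd_comm z (w * el a)
    omega
  · have := hb'.symm.trans h3
    rwa [← mul_assoc, ← mul_inv_rev] at this

variable (X)

lemma down_deep {w w' : FreeGroup S} (hw : X.Geod w) (hw' : X.Geod w') (he : X.pr w = X.pr w')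
    (hn : ((w * w'⁻¹).norm : ℤ) = w.norm + w'.norm) (h0 : w.norm ≠ 0) :
    ∃ v, X.Deep w v 20 ∧ X.Deep w' v 20 := by
  set h := w * w'⁻¹ with hh
  have hp : X.pr h = 1 := by rw [hh, map_mul, map_inv, he, mul_inv_cancel]
  obtain ⟨κ, hκ⟩ := X.pr_eq_one.1 hp
  have hne : (h, κ) ≠ 1 := by
    intro h1
    have h2 : h = 1 := congrArg Prod.fst h1
    rw [h2] at hn
    simp only [FreeGroup.norm_one] at hn
    omega
  obtain ⟨g, v0, p, q, k, hk, hpY, hqY, h1, h2, h3⟩ := X.green hκ hne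
  simp only at h1
  have hnn : w.norm = w'.norm := by
    unfold Geod at hw hw'
    rw [hw, hw', he]
  have f1 : fd 1 h = w.norm + w'.norm := by rw [fd_one, hn]
  have f2 : fd 1 w = w.norm := fd_one w
  have f3 : fd w h = w'.norm := by
    rw [fd_def, hh, inv_mul_cancel_left, norm_inv_eq]
  have hwh : h⁻¹ * w = w' := by rw [hh]; group
  have bw : Btw 1 w h := by unfold Btw; omega
  have t1 := fd_tri p q h
  have t2 := fd_tri 1 p h
  have t3 := fd_tri 1 p q
  have t4 := fd_tri 1 q h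
  have bp : Btw 1 p h := by unfold Btw; omega
  have bq : Btw 1 q h := by unfold Btw; omega
  have bp' := bp
  have bq' := bq
  unfold Btw at bp' bq'
  -- heights
  have ht1 : ∀ z, Btw 1 z h → fd 1 z ≤ fd 1 w → Btw 1 z w := by
    intro z hz hle
    have := hz.dist bw hle
    unfold Btw
    omega
  have ht2 : ∀ z, Btw 1 z h → fd 1 w ≤ fd 1 z → Btw 1 (h⁻¹ * z) w' := by
    intro z hz hle
    have h4 := bw.dist hz hle
    have h5 : Btw h z w := by
      unfold Btw at hz ⊢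
      have := fd_comm h z
      have := fd_comm z w
      have := fd_comm h w
      omega
    have h6 := h5.mul h⁻¹
    rwa [inv_mul_cancel, hwh] at h6
  have ht1' : ∀ z, Btw 1 z h → fd 1 z ≤ fd 1 w → (X.nQ (X.pr z) : ℤ) = fd 1 z :=
    fun z hz hle => Geod.pre X hw (ht1 z hz hle)
  have ht2' : ∀ z, Btw 1 z h → fd 1 w ≤ fd 1 z → (X.nQ (X.pr z) : ℤ) = fd z h := by
    intro z hz hle
    have h4 := Geod.pre X hw' (ht2 z hz hle)
    rw [map_mul, map_inv, hp, inv_one, one_mul] at h4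
    have h5 := fd_mul h 1 (h⁻¹ * z)
    rw [mul_one, mul_inv_cancel_left] at h5
    rw [h4, ← h5, fd_comm]
  have ek : X.pr (k.1⁻¹ * q) = X.pr q := by
    rw [map_mul, map_inv, X.pr_Hs hk, inv_one, one_mul]
  have l1 := X.nQ_lip p (k.1⁻¹ * q)
  have l2 := X.nQ_lip (k.1⁻¹ * q) p
  rw [ek] at l1 l2
  rw [fd_comm] at l2
  have hL := X.hL (X.lev v0)
  have c1 : fd 1 w < fd 1 q := by
    by_contra hcon
    push Not at hcon
    have a1 := ht1' q bq hcon
    have a2 := ht1' p bp (by omega)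
    omega
  have c2 : fd 1 p < fd 1 w := by
    by_contra hcon
    push Not at hcon
    have a1 := ht2' p bp hcon
    have a2 := ht2' q bq (by omega)
    omega
  have a1 := ht1' p bp c2.le
  have a2 := ht2' q bq c1.le
  have d1 := bp.dist bw c2.le
  have d2 := bw.dist bq c1.le
  have hwY : w ∈ X.Y g v0 := by
    apply X.Y_cvx g v0 p hpY q hqY
    unfold Btw
    omega
  obtain ⟨v, hv⟩ := hwY
  obtain ⟨vp, hvp⟩ := hpY
  obtain ⟨vq, hvq⟩ := hqY
  refine ⟨v, ⟨p, vp, ht1 p bp c2.le, ?_, ?_⟩, ⟨h⁻¹ * q, vq, ht2 q bq c1.le, ?_, ?_⟩⟩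
  · rw [hv.lev]; omega
  · have := hv.symm.trans hvp
    have e : (g⁻¹ * w)⁻¹ * (g⁻¹ * p) = w⁻¹ * p := by group
    rwa [e] at this
  · rw [hv.lev, ← hwh, fd_mul, fd_comm]; omega
  · have := hv.symm.trans hvq
    have e : (g⁻¹ * w)⁻¹ * (g⁻¹ * q) = w'⁻¹ * (h⁻¹ * q) := by rw [← hwh]; group
    rwa [e] at this

/-- Descending edges. -/
def Down (x : X.Q) (a : S × Bool) : Prop := X.nQ (x * X.pr (el a)) + 1 = X.nQ x

lemma down_or (x : X.Q) (a : S × Bool) : X.Down x a ∨ X.Down (x * X.pr (el a)) (bar a) := by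
  unfold Down
  have e : x * X.pr (el a) * X.pr (el (bar a)) = x := by
    rw [el_bar, map_inv, mul_inv_cancel_right]
  rw [e]
  have d1 : fd (X.om x) (X.om x * el a) = 1 := by
    rw [fd_def, inv_mul_cancel_left, norm_el]; rfl
  have l1 := X.nQ_lip (X.om x) (X.om x * el a)
  have l2 := X.nQ_lip (X.om x * el a) (X.om x)
  rw [fd_comm] at l2
  rw [map_mul, pr_om, d1] at l1 l2
  have p1 : ln (X.om (x * X.pr (el a))) = ln (X.om x * el a) :=
    X.ln_eq_of_pr (by rw [map_mul, pr_om, pr_om])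
  rw [ln_mul, ln_el, ln_norm, ln_norm] at p1
  have p2 : X.nQ (x * X.pr (el a)) ≠ X.nQ x := by
    intro h
    unfold nQ at h
    rw [h] at p1
    simp at p1
  omega

/-- Edges which are edges of a copy of the graph. -/
def T2 (x : X.Q) (a : S × Bool) : Prop :=
  ∃ v, X.Deep (X.om x) v 0 ∧ a = X.lt v (X.ty a.1) ∧
    X.Deep (X.om (x * X.pr (el a))) (X.nb (X.ty a.1) v) 0

lemma T2_symm {x : X.Q} {a : S × Bool} (h : X.T2 (x * X.pr (el a)) (bar a)) : X.T2 x a := by
  obtain ⟨v, h1, h2, h3⟩ := h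
  have e : x * X.pr (el a) * X.pr (el (bar a)) = x := by
    rw [el_bar, map_inv, mul_inv_cancel_right]
  rw [e] at h3
  have e2 : (bar a).1 = a.1 := rfl
  rw [e2] at h2 h3
  refine ⟨X.nb (X.ty a.1) v, h3, ?_, ?_⟩
  · rw [lt_nb', ← h2, bar_bar]
  · rw [X.nb_nb]; exact h1

lemma down_T2 {x : X.Q} {a a' : S × Bool} (h : X.Down x a) (h' : X.Down x a') (hne : a ≠ a') :
    X.T2 x a := by
  have key : ∀ a, X.Down x a → ∃ w, X.Geod w ∧ X.pr w = x ∧ w * el a = X.om (x * X.pr (el a)) ∧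
      (w * el a).norm + 1 = w.norm := by
    intro a h
    have e1 : X.pr (X.om (x * X.pr (el a)) * (el a)⁻¹) = x := by
      rw [map_mul, pr_om, map_inv, mul_inv_cancel_right]
    have e2 := X.nQ_le (X.om (x * X.pr (el a)) * (el a)⁻¹)
    rw [e1] at e2
    have e3 := FreeGroup.norm_mul_le (X.om (x * X.pr (el a))) (el a)⁻¹
    rw [norm_inv_eq, norm_el] at e3
    unfold Down nQ at h
    refine ⟨X.om (x * X.pr (el a)) * (el a)⁻¹, ?_, e1, inv_mul_cancel_right _ _, ?_⟩
    · unfold Geod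
      rw [e1]
      unfold nQ at *
      omega
    · rw [inv_mul_cancel_right]
      unfold nQ at *
      omega
  obtain ⟨w, g1, p1, e1, n1⟩ := key a h
  obtain ⟨w', g1', p1', e1', n1'⟩ := key a' h'
  obtain ⟨v, dv, dv'⟩ := X.down_deep g1 g1' (p1.trans p1'.symm) (norm_glue n1 n1' hne) (by omega)
  obtain ⟨b1, b2⟩ := dv.back n1
  rw [e1] at b2
  refine ⟨v, ?_, b1, b2⟩
  have h0 : (X.om x).norm ≠ 0 := by
    unfold Down nQ at h
    omega
  obtain ⟨b, hb⟩ := exists_last h0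
  by_cases hba : b = a
  · subst hba
    obtain ⟨v2, d1, d2⟩ := X.down_deep g1' (X.geod_om x) (by rw [p1', pr_om])
      (norm_glue n1' hb hne.symm) (by omega)
    rw [dv'.mono.uniq d1.mono]
    exact d2.mono
  · obtain ⟨v2, d1, d2⟩ := X.down_deep g1 (X.geod_om x) (by rw [p1, pr_om])
      (norm_glue n1 hb (Ne.symm hba)) (by omega)
    rw [dv.mono.uniq d1.mono]
    exact d2.mono

/-- The graph embeds in the Cayley graph. -/
theorem embed {v v' : V} {w : FreeGroup S} (h : X.Reach v w v') (h1 : X.pr w = 1) : v = v' := by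
  classical
  by_contra hne
  have hex : ∃ n, ∃ w, X.Reach v w v' ∧ w.norm = n := ⟨_, w, h, rfl⟩
  obtain ⟨u, hu, hn⟩ := Nat.find_spec hex
  have hmin : ∀ u', X.Reach v u' v' → u.norm ≤ u'.norm := fun u' hu' =>
    hn ▸ Nat.find_min' hex ⟨u', hu', rfl⟩
  have hu1 : X.pr u = 1 := by
    have := X.pr_reach (hu.trans h.symm)
    rwa [map_mul, map_inv, h1, inv_one, mul_one] at this
  obtain ⟨κ, hκ⟩ := X.pr_eq_one.1 hu1
  have hne1 : (u, κ) ≠ 1 := by
    intro h2
    have h3 : u = 1 := congrArg Prod.fst h2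
    rw [h3] at hu
    exact hne ((Reach.refl v).det hu)
  obtain ⟨g, v0, p, q, k, hk, hpY, hqY, f1, f2, f3⟩ := X.green hκ hne1
  simp only at f1
  have t1 := fd_tri p q u
  have t2 := fd_tri 1 p u
  have t3 := fd_tri 1 p q
  have t4 := fd_tri 1 q u
  have bp : Btw 1 p u := by unfold Btw; omega
  have bq : Btw 1 q u := by unfold Btw; omega
  obtain ⟨vp, hvp⟩ := hu.pre bp
  obtain ⟨vq, hvq⟩ := hu.pre bq
  have hL := X.hL (X.lev v0)
  have hs := X.same_of_overlap (g' := 1) (v' := v) hpY hqY ⟨vp, by simpa using hvp⟩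
    ⟨vq, by simpa using hvq⟩ (Or.inl (by omega))
  rw [X.Hs_eq hs] at hk
  have hk1 : X.Reach v k.1 v := by simpa using hk.1
  have h2 := hmin _ (hk1.symm.trans hu)
  have t5 := fd_tri 1 p (k.1⁻¹ * u)
  have t6 := fd_tri p (k.1⁻¹ * q) (k.1⁻¹ * u)
  rw [fd_mul] at t6
  rw [fd_one] at t5 f1
  omega

theorem NN_reach {v v' : V} {u : FreeGroup S} {κ : Kg} (h : X.Reach v u v') (hN : (u, κ) ∈ X.NN) :
    v = v' ∧ κ = X.kap (X.lev v) u := by
  have h1 : v = v' := X.embed h (X.pr_eq_one.2 ⟨κ, hN⟩)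
  subst h1
  refine ⟨rfl, ?_⟩
  have h2 := X.NN.mul_mem (X.NN.inv_mem (X.mem_NN_of_reach h)) hN
  have e : (u, X.kap (X.lev v) u)⁻¹ * (u, κ) = (1, (X.kap (X.lev v) u)⁻¹ * κ) := by
    ext <;> simp
  rw [e] at h2
  have h3 := X.NN_inter h2
  exact (inv_mul_eq_one.1 h3).symm

end Sys

end Pool.Agent.H818Z
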