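import Pool.Agent.H818Z.Low
import Pool.Agent.H818Z.Ana

/-!
The locally compact group.
-/

namespace Pool.Agent.H818Z

open Pool.Agent.H17R2 MeasureTheory
open FreeGroup hiding map_mul map_inv map_one

namespace Wr

variable {G M : Type} [Group G] {ρ : G →* Equiv.Perm M} {T : Type} [AddCommGroup T]

instance : TopologicalSpace (Wr ρ T) := ⊥
instance : DiscreteTopology (Wr ρ T) := ⟨rfl⟩
instance : IsTopologicalGroup (Wr ρ T) where
  continuous_mul := continuous_of_discreteTopology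
  continuous_inv := continuous_of_discreteTopology

end Wr

instance countable_free {S : Type} [Countable S] : Countable (FreeGroup S) := by
  have : Function.Surjective (FreeGroup.mk : List (S × Bool) → FreeGroup S) := by
    rintro ⟨l⟩
    exact ⟨l, rfl⟩
  exact this.countable

namespace Sys

variable {V J S : Type} (X : Sys V J S) [DecidableEq S]

/-- The normal subgroup. -/
noncomputable def NE : Subgroup (X.EE × Kg) where
  carrier := {x | x.1.b = 0 ∧ (x.1.g, x.2) ∈ X.NN}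
  mul_mem' := by
    rintro x y ⟨h1, h2⟩ ⟨h3, h4⟩
    refine ⟨?_, X.NN.mul_mem h2 h4⟩
    show x.1.b + sh _ y.1.b = 0
    rw [h1, h3, sh_zero, add_zero]
  one_mem' := ⟨rfl, X.NN.one_mem⟩
  inv_mem' := by
    rintro x ⟨h1, h2⟩
    refine ⟨?_, X.NN.inv_mem h2⟩
    show -sh _ x.1.b = 0
    rw [h1, sh_zero, neg_zero]

omit [DecidableEq S] in
lemma mem_NE {x : X.EE × Kg} : x ∈ X.NE ↔ x.1.b = 0 ∧ (x.1.g, x.2) ∈ X.NN := Iff.rfl

instance NE_normal : X.NE.Normal := by
  constructor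
  rintro x ⟨h1, h2⟩ f
  refine ⟨?_, X.NN_normal.conj_mem _ h2 (f.1.g, f.2)⟩
  have h3 : X.pr x.1.g = 1 := X.pr_eq_one.2 ⟨_, h2⟩
  show f.1.b + sh _ x.1.b + sh (rho X.Q J (X.pr (f.1.g * x.1.g)))
    (-sh (rho X.Q J (X.pr f.1.g⁻¹)) f.1.b) = 0
  rw [h1, sh_zero, add_zero, sh_neg, ← sh_mul, ← map_mul, ← map_mul, map_mul X.pr, map_mul X.pr,
    h3, mul_one, ← map_mul, mul_inv_cancel, map_one, map_one, sh_one, add_neg_cancel]

lemma NE_unique {e : X.EE} {κ κ' : Kg} (h : (e, κ) ∈ X.NE) (h' : (e, κ') ∈ X.NE) : κ = κ' := by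
  have h1 := X.NN.mul_mem (X.NN.inv_mem h.2) h'.2
  have e1 : ((e.g, κ) : FreeGroup S × Kg)⁻¹ * (e.g, κ') = (1, κ⁻¹ * κ') := by
    ext <;> simp
  rw [e1] at h1
  exact inv_mul_eq_one.1 (X.NN_inter h1)

instance NE_closed : IsClosed (X.NE : Set (X.EE × Kg)) := by
  rw [← isOpen_compl_iff, isOpen_iff_mem_nhds]
  rintro ⟨e, κ⟩ hx
  rw [nhds_prod_eq, nhds_discrete X.EE, Filter.pure_prod, Filter.mem_map]
  by_cases h : ∃ κ', (e, κ') ∈ X.NE
  · obtain ⟨κ', h⟩ := h
    have : κ ≠ κ' := by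
      rintro rfl
      exact hx h
    filter_upwards [isOpen_ne.mem_nhds this] with κ'' h'' h3
    exact h'' (X.NE_unique h3 h)
  · exact Filter.Eventually.of_forall (fun κ' h' => h ⟨κ', h'⟩)

/-- The locally compact group. -/
abbrev GG : Type := (X.EE × Kg) ⧸ X.NE

/-- The projection on the discrete group. -/
noncomputable def piG : X.GG →* X.PP :=
  QuotientGroup.lift X.NE (X.piE.comp (MonoidHom.fst _ _)) (by
    rintro x ⟨h1, h2⟩
    exact Wr.ext h1 (X.pr_eq_one.2 ⟨_, h2⟩))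

omit [DecidableEq S] in
lemma piG_mk (x : X.EE × Kg) : X.piG (x : X.GG) = X.piE x.1 := rfl

omit [DecidableEq S] in
lemma piG_surj : Function.Surjective X.piG := by
  intro y
  obtain ⟨u, hu⟩ := X.pr_surj y.g
  exact ⟨((⟨y.b, u⟩, 1) : X.EE × Kg), Wr.ext rfl hu⟩

/-- The compact subgroup. -/
noncomputable def inK (κ : Kg) : X.GG := ((1, κ) : X.EE × Kg)

lemma inK_inj : Function.Injective X.inK := by
  intro κ κ' h
  have h1 := QuotientGroup.eq.1 h
  have e1 : ((1, κ) : X.EE × Kg)⁻¹ * (1, κ') = (1, κ⁻¹ * κ') := by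
    ext <;> simp
  rw [e1] at h1
  exact inv_mul_eq_one.1 (X.NE_unique h1 X.NE.one_mem)

omit [DecidableEq S] in
lemma ker_eq : {g | X.piG g = 1} = Set.range X.inK := by
  ext g
  constructor
  · intro h
    obtain ⟨⟨e, κ⟩, rfl⟩ := QuotientGroup.mk_surjective g
    have h1 : e.b = 0 := congrArg Wr.b h
    have h2 : X.pr e.g = 1 := congrArg Wr.g h
    obtain ⟨κ', h3⟩ := X.pr_eq_one.1 h2
    refine ⟨κ * κ'⁻¹, QuotientGroup.eq.2 ?_⟩
    have e1 : ((1, κ * κ'⁻¹) : X.EE × Kg)⁻¹ * (e, κ) = (e, κ') := by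
      ext <;> simp
    rw [e1]
    exact ⟨h1, h3⟩
  · rintro ⟨κ, rfl⟩
    exact map_one X.piE

omit [DecidableEq S] in
lemma ker_compact : IsCompact {g | X.piG g = 1} := by
  rw [ker_eq]
  apply isCompact_range
  unfold inK
  fun_prop

omit [DecidableEq S] in
lemma ker_open : IsOpen {g | X.piG g = 1} := by
  rw [← (QuotientGroup.isQuotientMap_mk X.NE).isOpen_preimage]
  exact (isOpen_discrete {e : X.EE | X.piE e = 1}).preimage continuous_fst

omit [DecidableEq S] in
lemma ker_central (k : X.GG) (hk : X.piG k = 1) (g : X.GG) : k⁻¹ * g = g * k := by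
  have : k ∈ Set.range X.inK := by rw [← ker_eq]; exact hk
  obtain ⟨κ, rfl⟩ := this
  obtain ⟨⟨e, κ'⟩, rfl⟩ := QuotientGroup.mk_surjective g
  unfold inK
  rw [← QuotientGroup.mk_inv, ← QuotientGroup.mk_mul, ← QuotientGroup.mk_mul]
  congr 1
  have h : ∀ a b : ZMod 2, -a + b = b + a := by decide
  refine Prod.ext (by simp) ?_
  funext n
  exact h _ _

/-- The coordinates of the compact subgroup. -/
noncomputable def cf (n : ℕ) (k : X.GG) : ZMod 2 :=
  Multiplicative.toAdd (Function.invFun X.inK k) n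

lemma cf_inK (n m : ℕ) (κ : Kg) : X.cf n (X.inK κ) + X.cf m (X.inK κ) = cz n m κ := by
  unfold cf cz
  rw [Function.leftInverse_invFun X.inK_inj]

variable [Fintype S] [Fintype J]

instance : Countable X.Q := X.pr_surj.countable

instance : SecondCountableTopology Kg := inferInstanceAs (SecondCountableTopology (ℕ → ZMod 2))

instance : SecondCountableTopology X.GG := inferInstance

noncomputable instance : MeasurableSpace X.GG := borel _
instance : BorelSpace X.GG := ⟨rfl⟩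

/-- The group elements of the test operator. -/
noncomputable def genG (i : II S) : X.GG := ((X.gen i, 1) : X.EE × Kg)

theorem lowG (x0 : V) (m : ℕ) (hfin : {v | X.lev v = X.lev x0}.Finite) (hm : m ≠ X.lev x0) :
    ∃ r : X.GG → ℝ, (∃ ξ : X.GG → ℂ, MemLp ξ 2 (Measure.haar : Measure X.GG) ∧
      ∀ x, (r x : ℂ) = cof ξ x) ∧ (∀ x, |r x| ≤ 1) ∧ r 1 = 1 ∧
      (∀ g k, X.piG k = 1 → r (g * k) = sg2 (X.cf (X.lev x0) k + X.cf m k) * r g) ∧
      ∑ i, X.coef i * r (X.genG i) = Fintype.card J := by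
  obtain ⟨ξ, A, h1, h2, h3, h4⟩ := X.low x0 m hfin hm
  set n := X.lev x0 with hn
  have hinv : ∀ x y : X.EE × Kg, QuotientGroup.leftRel X.NE x y →
      ξ x.1 * sg2 (cz n m x.2) = ξ y.1 * sg2 (cz n m y.2) := by
    rintro ⟨e, κ⟩ ⟨e', κ'⟩ h
    rw [QuotientGroup.leftRel_apply] at h
    obtain ⟨h5, h6⟩ := h
    have h7 := h2 e _ _ h6
    have e1 : e * ⟨0, (e⁻¹ * e').g⟩ = e' := by
      have : (⟨0, (e⁻¹ * e').g⟩ : X.EE) = e⁻¹ * e' := Wr.ext (Eq.symm h5) rfl
      rw [this, mul_inv_cancel_left]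
    have h8 : ξ e' * sg2 (cz n m (κ⁻¹ * κ')) = ξ e := by
      rw [← e1]
      exact h7
    simp only
    rw [← h8, cz_mul, cz_inv, sg2_add]
    linear_combination (ξ e' * sg2 (cz n m κ')) * sg2_sq (cz n m κ)
  set ζ : X.GG → ℝ := Quotient.lift (fun x : X.EE × Kg => ξ x.1 * sg2 (cz n m x.2)) hinv with hζ
  have hζ1 : ∀ x : X.EE × Kg, ζ (x : X.GG) = ξ x.1 * sg2 (cz n m x.2) := fun x => rfl
  refine test_vec X.piG X.piG_surj X.ker_compact X.ker_open X.genG X.coef _
    (fun k => sg2 (X.cf n k + X.cf m k)) ζ ?_ ?_ A h1 ?_ ?_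
  · rw [(QuotientGroup.isQuotientMap_mk X.NE).continuous_iff]
    have c1 : Continuous ξ := continuous_of_discreteTopology
    have c2 : Continuous sg2 := continuous_of_discreteTopology
    have c3 : Continuous (cz n m) := by
      unfold cz
      exact ((continuous_apply n).comp continuous_toAdd).add
        ((continuous_apply m).comp continuous_toAdd)
    exact (c1.comp continuous_fst).mul (c2.comp (c3.comp continuous_snd))
  · intro g k hk
    have : k ∈ Set.range X.inK := by rw [← ker_eq]; exact hk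
    obtain ⟨κ, rfl⟩ := this
    obtain ⟨⟨e, κ'⟩, rfl⟩ := QuotientGroup.mk_surjective g
    rw [cf_inK]
    unfold inK
    rw [← QuotientGroup.mk_mul, hζ1, hζ1]
    simp only [Prod.mk_mul_mk, mul_one, cz_mul, sg2_add]
    ring
  · intro g hg
    obtain ⟨⟨e, κ⟩, rfl⟩ := QuotientGroup.mk_surjective g
    rw [hζ1, h3 e hg, zero_mul]
  · intro g hg
    obtain ⟨⟨e, κ⟩, rfl⟩ := QuotientGroup.mk_surjective g
    obtain ⟨h5, h6⟩ := h4 e hg
    constructor
    · rw [hζ1, mul_pow, h5, pow_two, sg2_sq, mul_one]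
    · rw [← h6]
      apply Finset.sum_congr rfl
      intro i _
      unfold genG
      rw [← QuotientGroup.mk_mul, hζ1, hζ1]
      simp only [Prod.mk_mul_mk, mul_one]
      linear_combination (X.coef i * ξ e * ξ (e * X.gen i)) * sg2_sq (cz n m κ)

end Sys

end Pool.Agent.H818Z
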