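import Pool.Agent.H818Z.Wreath

/-!
The test vectors in the twisted regular representations.
-/

namespace Pool.Agent.H818Z

open Pool.Agent.H17R2
open FreeGroup hiding map_mul map_inv map_one

/-- The sum of two coordinates. -/
def cz (n m : ℕ) (κ : Kg) : ZMod 2 := Multiplicative.toAdd κ n + Multiplicative.toAdd κ m

lemma cz_mul (n m : ℕ) (κ κ' : Kg) : cz n m (κ * κ') = cz n m κ + cz n m κ' := by
  simp only [cz, toAdd_mul, Pi.add_apply]
  ring

lemma cz_inv (n m : ℕ) (κ : Kg) : cz n m κ⁻¹ = cz n m κ := by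
  have h : ∀ a b : ZMod 2, -a + -b = a + b := by decide
  simp only [cz, toAdd_inv, Pi.neg_apply]
  exact h _ _

namespace Sys

variable {V J S : Type} (X : Sys V J S) [DecidableEq S] (x0 : V) (m : ℕ)

omit [DecidableEq S] in
lemma cz_kap {n : ℕ} (hm : m ≠ n) (u : FreeGroup S) : cz n m (X.kap n u) = X.sg u := by
  simp [cz, kap, Pi.single_eq_of_ne hm]

/-- The elements of the group which are read from the base vertex. -/
def OnC (q : X.Q) : Prop := ∃ v w, X.Reach x0 w v ∧ X.pr w = q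

open Classical in
/-- The vertex attached to an element of the group. -/
noncomputable def vt (q : X.Q) : V := if h : X.OnC x0 q then h.choose else x0

lemma vt_eq {w : FreeGroup S} {v : V} (h : X.Reach x0 w v) : X.vt x0 (X.pr w) = v := by
  have h1 : X.OnC x0 (X.pr w) := ⟨v, w, h, rfl⟩
  unfold vt
  rw [dif_pos h1]
  obtain ⟨w', h2, h3⟩ := h1.choose_spec
  refine X.embed (h2.symm.trans h) ?_
  rw [map_mul, map_inv, h3, inv_mul_cancel]

lemma fin_OnC (hfin : {v | X.lev v = X.lev x0}.Finite) : {q | X.OnC x0 q}.Finite := by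
  refine Set.Finite.of_injOn (f := X.vt x0) ?_ ?_ hfin
  · rintro _ ⟨v, w, h, rfl⟩
    show X.lev _ = _
    rw [X.vt_eq x0 h]
    exact h.lev
  · rintro _ ⟨v, w, h, rfl⟩ _ ⟨v', w', h', rfl⟩ e
    rw [X.vt_eq x0 h, X.vt_eq x0 h'] at e
    subst e
    have := X.pr_reach (h.symm.trans h')
    rw [map_mul, map_inv, inv_mul_eq_one] at this
    exact this

open Classical in
/-- The sign function. -/
noncomputable def val (u : FreeGroup S) : ℝ :=
  if h : ∃ p : FreeGroup S × Kg, (∃ v, X.Reach x0 p.1 v) ∧ (p.1⁻¹ * u, p.2) ∈ X.NN then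
    sg2 (X.sg h.choose.1 + cz (X.lev x0) m h.choose.2) else 0

lemma val_eq (hm : m ≠ X.lev x0) {w u : FreeGroup S} {v : V} {κ : Kg} (h : X.Reach x0 w v)
    (hN : (w⁻¹ * u, κ) ∈ X.NN) : X.val x0 m u = sg2 (X.sg w + cz (X.lev x0) m κ) := by
  have h1 : ∃ p : FreeGroup S × Kg, (∃ v, X.Reach x0 p.1 v) ∧ (p.1⁻¹ * u, p.2) ∈ X.NN :=
    ⟨(w, κ), ⟨v, h⟩, hN⟩
  unfold val
  rw [dif_pos h1]
  obtain ⟨⟨v', h2⟩, h3⟩ := h1.choose_spec
  set p := h1.choose
  have h4 := X.NN.mul_mem hN (X.NN.inv_mem h3)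
  have e : (w⁻¹ * u, κ) * (p.1⁻¹ * u, p.2)⁻¹ = (w⁻¹ * p.1, κ * p.2⁻¹) := by
    ext <;> simp [mul_assoc]
  rw [e] at h4
  have h5 := (X.NN_reach (h.symm.trans h2) h4).2
  have h6 := congrArg (cz (X.lev x0) m) h5
  rw [h.lev, X.cz_kap m hm, cz_mul, cz_inv, sg_mul, sg_inv] at h6
  have h7 : ∀ a b c d : ZMod 2, a + b = c + d → d + b = c + a := by decide
  rw [h7 _ _ _ _ h6]

omit [DecidableEq S] in
lemma val_zero {u : FreeGroup S} (h : ¬ X.OnC x0 (X.pr u)) : X.val x0 m u = 0 := by
  unfold val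
  rw [dif_neg]
  rintro ⟨p, ⟨v, h1⟩, h2⟩
  apply h
  refine ⟨v, p.1, h1, ?_⟩
  have := X.pr_eq_one.2 ⟨_, h2⟩
  rw [map_mul, map_inv, inv_mul_eq_one] at this
  exact this

omit [DecidableEq S] in
lemma OnC.ex {u : FreeGroup S} (h : X.OnC x0 (X.pr u)) :
    ∃ v w κ, X.Reach x0 w v ∧ X.pr w = X.pr u ∧ (w⁻¹ * u, κ) ∈ X.NN := by
  obtain ⟨v, w, h1, h2⟩ := h
  have : X.pr (w⁻¹ * u) = 1 := by rw [map_mul, map_inv, h2, inv_mul_cancel]
  obtain ⟨κ, h3⟩ := X.pr_eq_one.1 this
  exact ⟨v, w, κ, h1, h2, h3⟩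

lemma val_inv (hm : m ≠ X.lev x0) (u : FreeGroup S) {r : FreeGroup S} {κ : Kg}
    (hN : (r, κ) ∈ X.NN) : X.val x0 m (u * r) * sg2 (cz (X.lev x0) m κ) = X.val x0 m u := by
  by_cases h : X.OnC x0 (X.pr u)
  · obtain ⟨v, w, κ', h1, -, h3⟩ := OnC.ex X x0 h
    have h4 := X.NN.mul_mem h3 hN
    have e : (w⁻¹ * u, κ') * (r, κ) = (w⁻¹ * (u * r), κ' * κ) := by
      ext <;> simp [mul_assoc]
    rw [e] at h4
    rw [X.val_eq x0 m hm h1 h3, X.val_eq x0 m hm h1 h4, cz_mul, ← add_assoc, sg2_add, mul_assoc,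
      sg2_sq, mul_one]
  · have h' : ¬ X.OnC x0 (X.pr (u * r)) := by
      rw [map_mul, X.pr_eq_one.2 ⟨κ, hN⟩, mul_one]
      exact h
    rw [X.val_zero x0 m h, X.val_zero x0 m h', zero_mul]

variable [Fintype S] [Fintype J]

open Classical in
theorem low (hfin : {v | X.lev v = X.lev x0}.Finite) (hm : m ≠ X.lev x0) :
    ∃ (ξ : X.EE → ℝ) (A : Finset X.PP), A.Nonempty ∧
      (∀ (e : X.EE) r κ, (r, κ) ∈ X.NN → ξ (e * ⟨0, r⟩) * sg2 (cz (X.lev x0) m κ) = ξ e) ∧
      (∀ e, X.piE e ∉ A → ξ e = 0) ∧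
      ∀ e, X.piE e ∈ A → ξ e ^ 2 = 1 ∧
        ∑ i, X.coef i * (ξ e * ξ (e * X.gen i)) = Fintype.card J := by
  set CQ : Finset X.Q := (X.fin_OnC x0 hfin).toFinset with hCQ
  have mCQ : ∀ q, q ∈ CQ ↔ X.OnC x0 q := fun q => Set.Finite.mem_toFinset _
  set Z : Finset (X.Q × J) := CQ ×ˢ Finset.univ with hZ
  have mZ : ∀ q j, X.OnC x0 q → (q, j) ∈ Z := fun q j h =>
    Finset.mem_product.2 ⟨(mCQ q).2 h, Finset.mem_univ _⟩
  set c : Z → TT S := fun z => code (X.lt (X.vt x0 z.1.1) z.1.2) with hc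
  have hc1 : ∀ q j, X.OnC x0 q → ext0 Z c (q, j) = code (X.lt (X.vt x0 q) j) := by
    intro q j h
    unfold ext0
    rw [dif_pos (mZ q j h)]
  set Lam : (X.Q × J →₀ TT S) → ℝ := fun b => if b.support ⊆ Z then chi Z c b else 0 with hLam
  set A : Finset X.PP := ((Z.finsupp fun _ => Finset.univ) ×ˢ CQ).image (fun p => ⟨p.1, p.2⟩)
    with hA
  have mA : ∀ y : X.PP, y ∈ A ↔ y.b.support ⊆ Z ∧ X.OnC x0 y.g := by
    intro y
    rw [hA, Finset.mem_image]
    constructor
    · rintro ⟨p, hp, rfl⟩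
      rw [Finset.mem_product, Finset.mem_finsupp_iff] at hp
      exact ⟨hp.1.1, (mCQ _).1 hp.2⟩
    · rintro ⟨h1, h2⟩
      refine ⟨(y.b, y.g), ?_, rfl⟩
      rw [Finset.mem_product, Finset.mem_finsupp_iff]
      exact ⟨⟨h1, fun _ _ => Finset.mem_univ _⟩, (mCQ _).2 h2⟩
  have chi_sq : ∀ b, chi Z c b * chi Z c b = 1 := by
    intro b
    unfold chi
    rw [← Finset.prod_mul_distrib]
    exact Finset.prod_eq_one (fun z _ => ch_sq _ _)
  refine ⟨fun e => Lam e.b * X.val x0 m e.g, A, ⟨1, (mA 1).2 ⟨?_, ?_⟩⟩, ?_, ?_, ?_⟩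
  · simp [Wr.one_b]
  · exact ⟨x0, 1, Reach.refl x0, map_one _⟩
  · intro e r κ hN
    simp only [Wr.mul_b, Wr.mul_g, sh_zero, add_zero]
    rw [mul_assoc, X.val_inv x0 m hm _ hN]
  · intro e he
    rw [mA, not_and_or] at he
    rcases he with he | he
    · have : Lam e.b = 0 := if_neg he
      simp only [this, zero_mul]
    · have : X.val x0 m e.g = 0 := X.val_zero x0 m he
      simp only [this, mul_zero]
  · intro e he
    obtain ⟨h1, h2⟩ := (mA _).1 he
    have h1' : e.b.support ⊆ Z := h1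
    have h2' : X.OnC x0 (X.pr e.g) := h2
    obtain ⟨v, w, κ, h3, h4, h5⟩ := OnC.ex X x0 h2'
    have hL : Lam e.b = chi Z c e.b := if_pos h1'
    have hv : X.val x0 m e.g = sg2 (X.sg w + cz (X.lev x0) m κ) := X.val_eq x0 m hm h3 h5
    have hvt : X.vt x0 (X.pr e.g) = v := by rw [← h4, X.vt_eq x0 h3]
    constructor
    · simp only [hL, hv]
      rw [mul_pow, pow_two, pow_two, chi_sq, sg2_sq, one_mul]
    · rw [Fintype.sum_prod_type]
      have key : ∀ a : S × Bool, ∑ t : TT S × TT S, X.coef (a, t) * (Lam e.b * X.val x0 m e.g *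
          (Lam (e * X.gen (a, t)).b * X.val x0 m (e * X.gen (a, t)).g)) =
          if a = X.lt v (X.ty a.1) then 1 else 0 := by
        intro a
        simp only [mul_gen_E]
        by_cases hq : X.OnC x0 (X.pr (e.g * el a))
        · have hq' : X.OnC x0 (X.pr e.g * X.pr (el a)) := by rwa [map_mul] at hq
          have e2 : ∀ t : TT S × TT S, X.coef (a, t) * (Lam e.b * X.val x0 m e.g *
              (Lam (e.b + X.tau (X.pr e.g) (a, t)) * X.val x0 m (e.g * el a))) =
              (X.coef (a, t) * (ch (code (X.lt v (X.ty a.1))) t.1 *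
                ch (code (X.lt (X.vt x0 (X.pr e.g * X.pr (el a))) (X.ty a.1))) t.2)) *
                (X.val x0 m e.g * X.val x0 m (e.g * el a)) := by
            intro t
            have hs : (e.b + X.tau (X.pr e.g) (a, t)).support ⊆ Z := by
              refine Finsupp.support_add.trans (Finset.union_subset h1' ?_)
              refine Finsupp.support_add.trans (Finset.union_subset ?_ ?_)
              · exact (Finsupp.support_single_subset).trans
                  (Finset.singleton_subset_iff.2 (mZ _ _ h2'))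
              · exact (Finsupp.support_single_subset).trans
                  (Finset.singleton_subset_iff.2 (mZ _ _ hq'))
            have hL2 : Lam (e.b + X.tau (X.pr e.g) (a, t)) =
                chi Z c (e.b + X.tau (X.pr e.g) (a, t)) := if_pos hs
            rw [hL2, hL, chi_add]
            unfold tau
            rw [chi_add, chi_single Z c (mZ _ _ h2'), chi_single Z c (mZ _ _ hq'), hc1 _ _ h2',
              hc1 _ _ hq', hvt]
            have := chi_sq e.b
            simp only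
            linear_combination (X.coef (a, t) * (ch (code (X.lt v (X.ty a.1))) t.1 *
                ch (code (X.lt (X.vt x0 (X.pr e.g * X.pr (el a))) (X.ty a.1))) t.2)) *
                (X.val x0 m e.g * X.val x0 m (e.g * el a)) * this
          simp only [e2]
          rw [← Finset.sum_mul, sum_coef]
          by_cases ha : a = X.lt v (X.ty a.1)
          · have h6 : X.Reach x0 (w * el a) (X.nb (X.ty a.1) v) := by
              have := h3.trans (Reach.step (X := X) v (X.ty a.1))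
              rw [← ha] at this
              exact this
            have h7 : X.vt x0 (X.pr e.g * X.pr (el a)) = X.nb (X.ty a.1) v := by
              rw [← h4, ← map_mul, X.vt_eq x0 h6]
            have h8 : ((w * el a)⁻¹ * (e.g * el a), κ) ∈ X.NN := by
              have := X.NN_normal.conj_mem _ h5 ((el a)⁻¹, 1)
              have e3 : (((el a)⁻¹, 1) : FreeGroup S × Kg) * (w⁻¹ * e.g, κ) * ((el a)⁻¹, 1)⁻¹ =
                  ((w * el a)⁻¹ * (e.g * el a), κ) := by
                ext <;> simp [mul_assoc]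
              rwa [e3] at this
            rw [if_pos ha, if_pos ⟨by rw [← ha], by rw [h7, lt_nb', ← ha]⟩, hv,
              X.val_eq x0 m hm h6 h8, sg_mul, el, sg_letter, ← sg2_add, ← sg2_add]
            have h9 : ∀ a b c : ZMod 2, a + (b + c + (b + a + c)) = 0 := by decide
            rw [h9, sg2_zero]
          · rw [if_neg ha, if_neg (fun h => ha (code_inj h.1).symm), zero_mul]
        · have ha : ¬ a = X.lt v (X.ty a.1) := by
            intro ha
            apply hq
            have := h3.trans (Reach.step (X := X) v (X.ty a.1))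
            rw [← ha] at this
            exact ⟨_, _, this, by rw [map_mul, map_mul, h4]; rfl⟩
          rw [if_neg ha, X.val_zero x0 m hq]
          simp
      simp only [key]
      rw [Finset.sum_boole]
      congr 1
      symm
      rw [← Finset.card_univ]
      apply Finset.card_bij (fun j _ => X.lt v j)
      · intro j _
        simp [X.ty_lt]
      · intro j _ j' _ h
        rw [← X.ty_lt v j, h, X.ty_lt]
      · intro a ha
        exact ⟨X.ty a.1, Finset.mem_univ _, (Finset.mem_filter.1 ha).2.symm⟩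

end Sys

end Pool.Agent.H818Z
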