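import Mathlib

/-!
A spectral bound for signed graphs from the density of unfrustrated edges; characters.
-/

namespace Pool.Agent.H818Z

open Finset

lemma coarea {Q E : Type} [DecidableEq Q] (src tgt : E → Q) (P : Finset E) (k : ℝ)
    (hk : ∀ B : Finset Q, ((P.filter (fun e => src e ∈ B ∧ tgt e ∈ B)).card : ℝ) ≤ k * B.card)
    (A : Finset Q) : ∀ h : Q → ℝ, (∀ x ∈ A, 0 ≤ h x) →
      ∑ e ∈ P.filter (fun e => src e ∈ A ∧ tgt e ∈ A), min (h (src e)) (h (tgt e)) ≤
        k * ∑ x ∈ A, h x := by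
  induction A using Finset.strongInduction with
  | H A ih =>
    intro h hh
    rcases A.eq_empty_or_nonempty with rfl | hne
    · simp
    obtain ⟨x0, hx0, hmin⟩ := A.exists_min_image h hne
    have h1 := ih (A.erase x0) (Finset.erase_ssubset hx0) (fun x => h x - h x0)
      (fun x hx => sub_nonneg.2 (hmin x (Finset.mem_of_mem_erase hx)))
    have h2 : ∑ e ∈ P.filter (fun e => src e ∈ A ∧ tgt e ∈ A), min (h (src e)) (h (tgt e)) =
        ∑ e ∈ P.filter (fun e => src e ∈ A ∧ tgt e ∈ A),
          min (h (src e) - h x0) (h (tgt e) - h x0) +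
          (P.filter (fun e => src e ∈ A ∧ tgt e ∈ A)).card * h x0 := by
      rw [← nsmul_eq_mul, ← Finset.sum_const, ← Finset.sum_add_distrib]
      apply Finset.sum_congr rfl
      intro e _
      rw [min_sub_sub_right]; ring
    have h3 : ∑ e ∈ P.filter (fun e => src e ∈ A ∧ tgt e ∈ A),
          min (h (src e) - h x0) (h (tgt e) - h x0) =
        ∑ e ∈ P.filter (fun e => src e ∈ A.erase x0 ∧ tgt e ∈ A.erase x0),
          min (h (src e) - h x0) (h (tgt e) - h x0) := by
      symm
      apply Finset.sum_subset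
      · intro e he
        rw [Finset.mem_filter] at he ⊢
        exact ⟨he.1, Finset.mem_of_mem_erase he.2.1, Finset.mem_of_mem_erase he.2.2⟩
      · intro e he hne
        rw [Finset.mem_filter] at he hne
        have a1 := sub_nonneg.2 (hmin _ he.2.1)
        have a2 := sub_nonneg.2 (hmin _ he.2.2)
        by_cases c1 : src e = x0
        · rw [c1, sub_self]; exact min_eq_left a2
        · by_cases c2 : tgt e = x0
          · rw [c2, sub_self]; exact min_eq_right a1
          · exact absurd ⟨he.1, Finset.mem_erase.2 ⟨c1, he.2.1⟩, Finset.mem_erase.2 ⟨c2, he.2.2⟩⟩ hne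
    have h4 : ∑ x ∈ A.erase x0, (h x - h x0) = ∑ x ∈ A, h x - A.card * h x0 := by
      rw [Finset.sum_erase _ (by simp), Finset.sum_sub_distrib, Finset.sum_const, nsmul_eq_mul]
    have h5 := mul_le_mul_of_nonneg_right (hk A) (hh x0 hx0)
    rw [h2, h3]
    rw [h4] at h1
    nlinarith

/-- The sign. -/
def sg2 (a : ZMod 2) : ℝ := if a = 0 then 1 else -1

lemma sg2_add (a b : ZMod 2) : sg2 (a + b) = sg2 a * sg2 b := by
  have h : ∀ a b : ZMod 2, a + b = 0 ↔ (a = 0 ↔ b = 0) := by decide
  unfold sg2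
  by_cases ha : a = 0 <;> by_cases hb : b = 0 <;> simp [h, ha, hb]

lemma sg2_zero : sg2 0 = 1 := by simp [sg2]

lemma sg2_one : sg2 1 = -1 := by simp [sg2]

lemma sg2_sq (a : ZMod 2) : sg2 a * sg2 a = 1 := by
  unfold sg2; split_ifs <;> norm_num

open Classical in
theorem spectral {Q L : Type} [Fintype L] (act : Q → L → Q) (br : L → L)
    (hact : ∀ x a, act (act x a) (br a) = x) (hbr : ∀ a, br (br a) = a) (s : L → ZMod 2)
    (on : Q → L → Prop) (hon : ∀ x a, on x a → on (act x a) (br a)) (D k : ℕ)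
    (hD : ∀ x, (Finset.univ.filter (fun a => on x a)).card ≤ D)
    (hk : ∀ (A : Finset Q) (τ : Q → ZMod 2), ((A ×ˢ (Finset.univ : Finset L)).filter
      (fun p => act p.1 p.2 ∈ A ∧ s p.2 + τ p.1 + τ (act p.1 p.2) = 0)).card ≤ k * A.card)
    (A : Finset Q) (g : Q → ℝ) (hg : ∀ x, x ∉ A → g x = 0) :
    ∑ x ∈ A, ∑ a, (if on x a then sg2 (s a) * (g x * g (act x a)) else 0) ≤
      (9 / 40 * k + 4 / 5 * D) * ∑ x ∈ A, g x ^ 2 := by
  set τ : Q → ZMod 2 := fun x => if g x < 0 then 1 else 0 with hτ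
  have hgτ : ∀ x, g x = sg2 (τ x) * |g x| := by
    intro x
    simp only [hτ]
    split_ifs with h
    · rw [sg2_one, abs_of_neg h]; ring
    · rw [sg2_zero, abs_of_nonneg (not_lt.1 h)]; ring
  set U := (A ×ˢ (Finset.univ : Finset L)).filter
      (fun p => act p.1 p.2 ∈ A ∧ s p.2 + τ p.1 + τ (act p.1 p.2) = 0) with hU
  set O := (A ×ˢ (Finset.univ : Finset L)).filter (fun p => on p.1 p.2) with hO
  have hO1 : ∑ p ∈ O, g p.1 ^ 2 ≤ D * ∑ x ∈ A, g x ^ 2 := by
    rw [hO, Finset.sum_filter, Finset.sum_product, Finset.mul_sum]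
    apply Finset.sum_le_sum
    intro x _
    rw [← Finset.sum_filter]
    simp only [Finset.sum_const, nsmul_eq_mul]
    apply mul_le_mul_of_nonneg_right _ (sq_nonneg _)
    exact_mod_cast hD x
  have hO2 : ∑ p ∈ O, g (act p.1 p.2) ^ 2 ≤ ∑ p ∈ O, g p.1 ^ 2 := by
    have e1 : ∑ p ∈ O, g (act p.1 p.2) ^ 2 =
        ∑ p ∈ O.filter (fun p => act p.1 p.2 ∈ A), g (act p.1 p.2) ^ 2 := by
      symm
      apply Finset.sum_subset (Finset.filter_subset _ _)
      intro p hp hn
      have : act p.1 p.2 ∉ A := fun h => hn (Finset.mem_filter.2 ⟨hp, h⟩)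
      rw [hg _ this]; simp
    have e2 : ∑ p ∈ O.filter (fun p => act p.1 p.2 ∈ A), g (act p.1 p.2) ^ 2 =
        ∑ p ∈ (O.filter (fun p => act p.1 p.2 ∈ A)).image (fun p => (act p.1 p.2, br p.2)),
          g p.1 ^ 2 := by
      rw [Finset.sum_image]
      rintro ⟨x, a⟩ _ ⟨x', a'⟩ _ h
      have q1 : act x a = act x' a' := congrArg Prod.fst h
      have q2 : br a = br a' := congrArg Prod.snd h
      have q3 : a = a' := by rw [← hbr a, q2, hbr]
      have q4 : x = x' := by rw [← hact x a, q1, q2, hact]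
      rw [q3, q4]
    rw [e1, e2]
    apply Finset.sum_le_sum_of_subset_of_nonneg
    · intro p hp
      obtain ⟨q, hq, rfl⟩ := Finset.mem_image.1 hp
      have hq1 := Finset.mem_filter.1 hq
      have hq2 := Finset.mem_filter.1 hq1.1
      exact Finset.mem_filter.2 ⟨Finset.mem_product.2 ⟨hq1.2, Finset.mem_univ _⟩, hon _ _ hq2.2⟩
    · intro p _ _
      exact sq_nonneg _
  have hco := coarea (fun p : Q × L => p.1) (fun p => act p.1 p.2) U k (by
    intro B
    have h1 := hk B τ
    have h2 : (U.filter (fun e => e.1 ∈ B ∧ act e.1 e.2 ∈ B)).card ≤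
        ((B ×ˢ (Finset.univ : Finset L)).filter
          (fun p => act p.1 p.2 ∈ B ∧ s p.2 + τ p.1 + τ (act p.1 p.2) = 0)).card := by
      apply Finset.card_le_card
      intro p hp
      have hp1 := Finset.mem_filter.1 hp
      have hp2 := Finset.mem_filter.1 hp1.1
      exact Finset.mem_filter.2 ⟨Finset.mem_product.2 ⟨hp1.2.1, Finset.mem_univ _⟩, hp1.2.2, hp2.2.2⟩
    exact_mod_cast h2.trans h1) A (fun x => g x ^ 2) (fun x _ => sq_nonneg _)
  have hUU : U.filter (fun e => e.1 ∈ A ∧ act e.1 e.2 ∈ A) = U := by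
    apply Finset.filter_true_of_mem
    intro p hp
    have hp2 := Finset.mem_filter.1 hp
    exact ⟨(Finset.mem_product.1 hp2.1).1, hp2.2.1⟩
  rw [hUU] at hco
  have hterm : ∀ p ∈ A ×ˢ (Finset.univ : Finset L),
      (if on p.1 p.2 then sg2 (s p.2) * (g p.1 * g (act p.1 p.2)) else 0) ≤
      9 / 40 * (if act p.1 p.2 ∈ A ∧ s p.2 + τ p.1 + τ (act p.1 p.2) = 0 then
        min (g p.1 ^ 2) (g (act p.1 p.2) ^ 2) else 0) +
      2 / 5 * (if on p.1 p.2 then g p.1 ^ 2 else 0) +
      2 / 5 * (if on p.1 p.2 then g (act p.1 p.2) ^ 2 else 0) := by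
    rintro ⟨x, a⟩ _
    simp only
    have m0 : 0 ≤ min (g x ^ 2) (g (act x a) ^ 2) := le_min (sq_nonneg _) (sq_nonneg _)
    by_cases h1 : on x a
    · simp only [if_pos h1]
      have e : sg2 (s a) * (g x * g (act x a)) =
          sg2 (s a + τ x + τ (act x a)) * (|g x| * |g (act x a)|) := by
        rw [sg2_add, sg2_add]
        conv_lhs => rw [hgτ x, hgτ (act x a)]
        ring
      have n1 := abs_nonneg (g x)
      have n2 := abs_nonneg (g (act x a))
      have n3 := mul_nonneg n1 n2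
      have s1 := sq_abs (g x)
      have s2 := sq_abs (g (act x a))
      by_cases h2 : act x a ∈ A ∧ s a + τ x + τ (act x a) = 0
      · rw [if_pos h2, e, h2.2, sg2_zero]
        rcases le_total (g x ^ 2) (g (act x a) ^ 2) with h3 | h3
        · rw [min_eq_left h3]
          nlinarith [sq_nonneg (5 * |g x| - 4 * |g (act x a)|)]
        · rw [min_eq_right h3]
          nlinarith [sq_nonneg (4 * |g x| - 5 * |g (act x a)|)]
      · rw [if_neg h2]
        by_cases h3 : act x a ∈ A
        · have h4 : s a + τ x + τ (act x a) ≠ 0 := fun h => h2 ⟨h3, h⟩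
          rw [e, sg2, if_neg h4]
          nlinarith [sq_nonneg (g x), sq_nonneg (g (act x a))]
        · rw [hg _ h3]
          nlinarith [sq_nonneg (g x)]
    · simp only [if_neg h1]
      split_ifs <;> nlinarith
  have hsum := Finset.sum_le_sum hterm
  rw [Finset.sum_add_distrib, Finset.sum_add_distrib, ← Finset.mul_sum, ← Finset.mul_sum,
    ← Finset.mul_sum, ← Finset.sum_filter, ← Finset.sum_filter, ← Finset.sum_filter,
    ← Finset.sum_filter, ← hU, ← hO] at hsum
  rw [← Finset.sum_product' (s := A) (t := Finset.univ)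
    (f := fun x a => if on x a then sg2 (s a) * (g x * g (act x a)) else 0), ← Finset.sum_filter,
    ← hO]
  nlinarith

/-- The pairing of two vectors over the field with two elements. -/
def ch {A : Type} [Fintype A] (c t : A → ZMod 2) : ℝ := sg2 (∑ a, c a * t a)

lemma ch_comm {A : Type} [Fintype A] (c t : A → ZMod 2) : ch c t = ch t c := by
  unfold ch
  congr 1
  exact Finset.sum_congr rfl (fun a _ => mul_comm _ _)

lemma ch_add {A : Type} [Fintype A] (c t t' : A → ZMod 2) : ch c (t + t') = ch c t * ch c t' := by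
  unfold ch
  rw [← sg2_add, ← Finset.sum_add_distrib]
  congr 1
  exact Finset.sum_congr rfl (fun a _ => by rw [Pi.add_apply, mul_add])

lemma ch_zero {A : Type} [Fintype A] (c : A → ZMod 2) : ch c 0 = 1 := by
  simp [ch, sg2_zero]

lemma ch_sq {A : Type} [Fintype A] (c t : A → ZMod 2) : ch c t * ch c t = 1 := sg2_sq _

lemma sum_ch {A : Type} [Fintype A] [DecidableEq A] (c : A → ZMod 2) :
    ∑ t, ch c t = if c = 0 then (Fintype.card (A → ZMod 2) : ℝ) else 0 := by
  split_ifs with h
  · subst h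
    simp [ch_comm (0 : A → ZMod 2), ch_zero]
  · obtain ⟨a, ha⟩ : ∃ a, c a ≠ 0 := by
      by_contra hcon
      push Not at hcon
      exact h (funext hcon)
    have h1 : ch c (Pi.single a 1) = -1 := by
      unfold ch
      rw [Finset.sum_eq_single a]
      · simp [sg2, ha]
      · intro b _ hb
        simp [Pi.single_eq_of_ne hb]
      · simp
    have h2 : ∑ t, ch c t = ∑ t, ch c (t + Pi.single a 1) :=
      (Equiv.sum_comp (Equiv.addRight (Pi.single a 1)) (fun t => ch c t)).symm
    simp only [ch_add, h1] at h2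
    rw [← Finset.sum_mul] at h2
    linarith

lemma add_eq_zero_iff2 {A : Type} (c c' : A → ZMod 2) : c + c' = 0 ↔ c = c' := by
  have h : ∀ a b : ZMod 2, a + b = 0 ↔ a = b := by decide
  constructor
  · intro h1
    funext a
    exact (h _ _).1 (congrFun h1 a)
  · rintro rfl
    funext a
    exact (h _ _).2 rfl

lemma sum_ch_mul {A : Type} [Fintype A] [DecidableEq A] (c c' : A → ZMod 2) :
    ∑ t, ch c t * ch c' t = if c = c' then (Fintype.card (A → ZMod 2) : ℝ) else 0 := by
  have h : ∀ t, ch c t * ch c' t = ch (c + c') t := by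
    intro t
    rw [ch_comm (c + c'), ch_add, ch_comm t, ch_comm t]
  simp only [h, sum_ch, add_eq_zero_iff2]

end Pool.Agent.H818Z
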