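import Pool.Agent.H818Z.Gate
import Pool.Agent.H818Z.Mill
import Pool.Agent.H818Z.GDefs

/-!
Labelled graphs with small cancellation, and the Greendlinger lemma for them.
-/

namespace Pool.Agent.H818Z

open Pool.Agent.H17R2 FreeGroup

lemma walk_append {V J : Type} (nb : J → V → V) (v : V) (l l' : List J) :
    walk nb v (l ++ l') = walk nb (walk nb v l) l' := by
  induction l generalizing v with
  | nil => rfl
  | cons j l ih => exact ih _

/-- The word read along a walk. -/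
def word {V J S : Type} (nb : J → V → V) (lt : V → J → S × Bool) : V → List J → List (S × Bool)
  | _, [] => []
  | v, j :: l => lt v j :: word nb lt (nb j v) l

/-- A labelled graph with small cancellation. -/
structure Sys (V J S : Type) where
  make ::
  nb : J → V → V
  lt : V → J → S × Bool
  ty : S → J
  lev : V → ℕ
  par : V → Bool
  L : ℕ → ℕ
  sgn : S → ZMod 2
  j0 : J
  j1 : J
  hj : j0 ≠ j1
  nb_nb : ∀ j v, nb j (nb j v) = v
  lt_nb : ∀ j v, lt (nb j v) j = ((lt v j).1, !(lt v j).2)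
  ty_lt : ∀ v j, ty (lt v j).1 = j
  lt_par : ∀ v j, (lt v j).2 = par v
  lev_nb : ∀ j v, lev (nb j v) = lev v
  hL : ∀ n, 20 ≤ L n
  girth : ∀ v l, NB l → l ≠ [] → walk nb v l = v → L (lev v) ≤ l.length
  sc : ∀ v v' l, NB l → word nb lt v l = word nb lt v' l →
    (L (lev v) ≤ 20 * l.length ∨ L (lev v') ≤ 20 * l.length) → v = v'

/-- The compact group. -/
abbrev Kg : Type := Multiplicative (ℕ → ZMod 2)

namespace Sys

variable {V J S : Type} (X : Sys V J S)

/-- the word of a walk -/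
abbrev wd (v : V) (l : List J) : List (S × Bool) := word X.nb X.lt v l

/-- the end of a walk -/
abbrev wk (v : V) (l : List J) : V := walk X.nb v l

lemma wd_length (v : V) (l : List J) : (X.wd v l).length = l.length := by
  induction l generalizing v with
  | nil => rfl
  | cons j l ih => simp [word, ih]

lemma wd_append (v : V) (l l' : List J) : X.wd v (l ++ l') = X.wd v l ++ X.wd (X.wk v l) l' := by
  induction l generalizing v with
  | nil => rfl
  | cons j l ih => simp [word, walk, ih]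

lemma wd_map (v : V) (l : List J) : (X.wd v l).map (fun a => X.ty a.1) = l := by
  induction l generalizing v with
  | nil => rfl
  | cons j l ih => simp [word, ih, X.ty_lt]

lemma wd_inj {v v' : V} {l l' : List J} (h : X.wd v l = X.wd v' l') : l = l' := by
  rw [← X.wd_map v l, h, X.wd_map]

lemma lev_wk (v : V) (l : List J) : X.lev (X.wk v l) = X.lev v := by
  induction l generalizing v with
  | nil => rfl
  | cons j l ih => exact (ih _).trans (X.lev_nb j v)

lemma wd_reduced {l : List J} (h : NB l) (v : V) : FreeGroup.IsReduced (X.wd v l) := by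
  unfold FreeGroup.IsReduced
  induction l generalizing v with
  | nil => exact List.IsChain.nil
  | cons j l ih =>
    cases l with
    | nil => exact List.IsChain.singleton _
    | cons j' l =>
      have h' : j ≠ j' ∧ NB (j' :: l) := List.isChain_cons_cons.1 h
      refine List.isChain_cons_cons.2 ⟨?_, ih h'.2 _⟩
      intro h1
      exfalso
      apply h'.1
      rw [← X.ty_lt v j, h1, X.ty_lt]

/-- `u` is read along a walk from `v` to `v'`. -/
def Reach (v : V) (u : FreeGroup S) (v' : V) : Prop := ∃ l, u = mk (X.wd v l) ∧ v' = X.wk v l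

lemma mk_lt_nb (v : V) (j : J) :
    (mk [X.lt (X.nb j v) j] : FreeGroup S) = (mk [X.lt v j])⁻¹ := by
  rw [X.lt_nb, inv_mk]; rfl

variable {X}

lemma Reach.refl (v : V) : X.Reach v 1 v := ⟨[], rfl, rfl⟩

lemma Reach.step (v : V) (j : J) : X.Reach v (mk [X.lt v j]) (X.nb j v) := ⟨[j], rfl, rfl⟩

lemma Reach.trans {v v' v'' : V} {u u' : FreeGroup S} (h : X.Reach v u v') (h' : X.Reach v' u' v'') :
    X.Reach v (u * u') v'' := by
  obtain ⟨l, rfl, rfl⟩ := h
  obtain ⟨l', rfl, rfl⟩ := h'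
  exact ⟨l ++ l', by rw [wd_append, mul_mk], by simp only [wk]; rw [walk_append]⟩

lemma Reach.symm {v v' : V} {u : FreeGroup S} (h : X.Reach v u v') : X.Reach v' u⁻¹ v := by
  obtain ⟨l, rfl, rfl⟩ := h
  induction l generalizing v with
  | nil => exact Reach.refl v
  | cons j l ih =>
    have h1 := ih (v := X.nb j v)
    have h2 := Reach.step (X := X) (X.nb j v) j
    rw [X.nb_nb, mk_lt_nb] at h2
    have h3 := h1.trans h2
    have e : (mk (X.wd v (j :: l)) : FreeGroup S) = mk [X.lt v j] * mk (X.wd (X.nb j v) l) := by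
      rw [mul_mk]; rfl
    rw [e, mul_inv_rev]
    exact h3

lemma Reach.lev {v v' : V} {u : FreeGroup S} (h : X.Reach v u v') : X.lev v' = X.lev v := by
  obtain ⟨l, -, rfl⟩ := h
  exact X.lev_wk v l

variable [DecidableEq S]

lemma Reach.red {v v' : V} {u : FreeGroup S} (h : X.Reach v u v') :
    ∃ l, NB l ∧ u.toWord = X.wd v l ∧ v' = X.wk v l := by
  have key : ∃ l, NB l ∧ u = mk (X.wd v l) ∧ v' = X.wk v l := by
    obtain ⟨l, rfl, rfl⟩ := h
    induction l generalizing v with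
    | nil => exact ⟨[], List.IsChain.nil, rfl, rfl⟩
    | cons j l ih =>
      obtain ⟨l', h1, h2, h3⟩ := ih (v := X.nb j v)
      have e : (mk (X.wd v (j :: l)) : FreeGroup S) = mk [X.lt v j] * mk (X.wd (X.nb j v) l) := by
        rw [mul_mk]; rfl
      cases l' with
      | nil =>
        refine ⟨[j], List.IsChain.singleton _, ?_, h3⟩
        rw [e, h2]
        rw [mul_mk]; rfl
      | cons j' l'' =>
        by_cases hj : j = j'
        · subst hj
          refine ⟨l'', (List.isChain_cons.1 h1).2, ?_, ?_⟩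
          · rw [e, h2]
            have e2 : (mk (X.wd (X.nb j v) (j :: l'')) : FreeGroup S) =
                mk [X.lt (X.nb j v) j] * mk (X.wd (X.nb j (X.nb j v)) l'') := by
              rw [mul_mk]; rfl
            rw [e2, mk_lt_nb, X.nb_nb, mul_inv_cancel_left]
          · have : X.wk v (j :: l) = X.wk (X.nb j v) l := rfl
            rw [this, h3]
            show X.wk (X.nb j (X.nb j v)) l'' = _
            rw [X.nb_nb]
        · refine ⟨j :: j' :: l'', List.isChain_cons_cons.2 ⟨hj, h1⟩, ?_, h3⟩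
          rw [e, h2, mul_mk]; rfl
  obtain ⟨l, h1, h2, h3⟩ := key
  refine ⟨l, h1, ?_, h3⟩
  rw [h2, toWord_mk, (X.wd_reduced h1 v).reduce_eq]

lemma Reach.det {v v' v'' : V} {u : FreeGroup S} (h : X.Reach v u v') (h' : X.Reach v u v'') :
    v' = v'' := by
  obtain ⟨l, -, h1, h2⟩ := h.red
  obtain ⟨l', -, h1', h2'⟩ := h'.red
  have : l = l' := X.wd_inj (h1.symm.trans h1')
  rw [h2, h2', this]

lemma Reach.pre {v v' : V} {u z : FreeGroup S} (h : X.Reach v u v') (hz : Btw 1 z u) :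
    ∃ v'', X.Reach v z v'' := by
  obtain ⟨l, -, h1, -⟩ := h.red
  obtain ⟨b, hb⟩ := hz.pref
  set n := z.toWord.length with hn
  have h2 : X.wd v l = X.wd v (l.take n) ++ X.wd (X.wk v (l.take n)) (l.drop n) := by
    rw [← wd_append, List.take_append_drop]
  have h3 : n ≤ l.length := by
    rw [← X.wd_length v l, ← h1, hb]; simp [hn]
  have h4 : z.toWord = X.wd v (l.take n) := by
    rw [h1, h2] at hb
    refine (List.append_inj_left hb ?_).symm
    rw [wd_length, List.length_take, min_eq_left h3]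
  exact ⟨_, l.take n, by rw [← h4, mk_toWord], rfl⟩

lemma Reach.girth {v : V} {u : FreeGroup S} (h : X.Reach v u v) (hu : u ≠ 1) :
    (X.L (X.lev v) : ℤ) ≤ u.norm := by
  obtain ⟨l, h0, h1, h2⟩ := h.red
  have hl : l ≠ [] := by
    rintro rfl
    apply hu
    rw [← mk_toWord (x := u), h1]; rfl
  have := X.girth v l h0 hl h2.symm
  rw [FreeGroup.norm, h1, wd_length]
  exact_mod_cast this

lemma Reach.sc {v v' w w' : V} {u : FreeGroup S} (h : X.Reach v u w) (h' : X.Reach v' u w')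
    (hL : (X.L (X.lev v) : ℤ) ≤ 20 * u.norm ∨ (X.L (X.lev v') : ℤ) ≤ 20 * u.norm) : v = v' := by
  obtain ⟨l, h0, h1, -⟩ := h.red
  obtain ⟨l', -, h1', -⟩ := h'.red
  have e : l = l' := X.wd_inj (h1.symm.trans h1')
  subst e
  have e2 : u.norm = l.length := by rw [FreeGroup.norm, h1, wd_length]
  rw [e2] at hL
  refine X.sc v v' l h0 (h1.symm.trans h1') ?_
  rcases hL with hL | hL
  · left; exact_mod_cast hL
  · right; exact_mod_cast hL

variable (X)

lemma exists_long (v : V) (n : ℕ) : ∃ u v', X.Reach v u v' ∧ u.norm = n := by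
  have key : ∀ n : ℕ, ∀ b : Bool, ∃ l : List J, NB l ∧ l.length = n ∧
      ∀ j ∈ l.head?, j = if b then X.j0 else X.j1 := by
    intro n
    induction n with
    | zero => intro b; exact ⟨[], List.IsChain.nil, rfl, by simp⟩
    | succ n ih =>
      intro b
      obtain ⟨l, h1, h2, h3⟩ := ih (!b)
      refine ⟨(if b then X.j0 else X.j1) :: l, ?_, by simp [h2], by simp⟩
      refine List.isChain_cons.2 ⟨?_, h1⟩
      intro j hj
      rw [h3 j hj]
      have := X.hj
      cases b <;> simp [this, this.symm]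
  obtain ⟨l, h1, h2, -⟩ := key n true
  refine ⟨mk (X.wd v l), _, ⟨l, rfl, rfl⟩, ?_⟩
  rw [norm_mk_red (X.wd_reduced h1 v), wd_length, h2]

/-- The subtree of the words which can be read from `v`, translated by `g`. -/
def Y (g : FreeGroup S) (v : V) : Set (FreeGroup S) := {p | ∃ v', X.Reach v (g⁻¹ * p) v'}

omit [DecidableEq S] in
lemma Y_ne (g : FreeGroup S) (v : V) : (X.Y g v).Nonempty :=
  ⟨g, v, by simpa using Reach.refl v⟩

lemma Y_cvx (g : FreeGroup S) (v : V) : Cvx (X.Y g v) := by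
  rintro p ⟨v1, h1⟩ q ⟨v2, h2⟩ z hz
  have h3 := h1.symm.trans h2
  have e : (g⁻¹ * p)⁻¹ * (g⁻¹ * q) = p⁻¹ * q := by group
  rw [e] at h3
  have h4 := hz.mul p⁻¹
  rw [inv_mul_cancel] at h4
  obtain ⟨v3, h5⟩ := h3.pre h4
  have h6 := h1.trans h5
  have e2 : g⁻¹ * p * (p⁻¹ * z) = g⁻¹ * z := by group
  rw [e2] at h6
  exact ⟨v3, h6⟩

omit [DecidableEq S] in
lemma Y_mul (f g : FreeGroup S) (v : V) (p : FreeGroup S) :
    f * p ∈ X.Y (f * g) v ↔ p ∈ X.Y g v := by
  have e : (f * g)⁻¹ * (f * p) = g⁻¹ * p := by group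
  unfold Y
  simp only [Set.mem_ofPred_eq, e]

omit [DecidableEq S] in
lemma Y_eq {g g' : FreeGroup S} {v v' : V} (h : X.Reach v (g⁻¹ * g') v') : X.Y g v = X.Y g' v' := by
  ext p
  constructor
  · rintro ⟨w, hw⟩
    have h1 := h.symm.trans hw
    have e : (g⁻¹ * g')⁻¹ * (g⁻¹ * p) = g'⁻¹ * p := by group
    rw [e] at h1
    exact ⟨w, h1⟩
  · rintro ⟨w, hw⟩
    have h1 := h.trans hw
    have e : g⁻¹ * g' * (g'⁻¹ * p) = g⁻¹ * p := by group
    rw [e] at h1
    exact ⟨w, h1⟩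

/-- The sign of an element of the free group. -/
noncomputable def sg (u : FreeGroup S) : ZMod 2 :=
  Multiplicative.toAdd (FreeGroup.lift (fun s => Multiplicative.ofAdd (X.sgn s)) u)

omit [DecidableEq S] in
lemma sg_mul (u u' : FreeGroup S) : X.sg (u * u') = X.sg u + X.sg u' := by
  simp [sg]

omit [DecidableEq S] in
lemma sg_one : X.sg 1 = 0 := by simp [sg]

omit [DecidableEq S] in
lemma sg_inv (u : FreeGroup S) : X.sg u⁻¹ = X.sg u := by
  have h := X.sg_mul u u⁻¹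
  rw [mul_inv_cancel, sg_one] at h
  have h2 : ∀ a b : ZMod 2, 0 = a + b → b = a := by decide
  exact h2 _ _ h

omit [DecidableEq S] in
lemma sg_letter (a : S × Bool) : X.sg (mk [a]) = X.sgn a.1 := by
  obtain ⟨s, b⟩ := a
  cases b
  · have : (mk [(s, false)] : FreeGroup S) = (of s)⁻¹ := by rw [of, inv_mk]; rfl
    rw [this, sg_inv]; simp [sg]
  · have : (mk [(s, true)] : FreeGroup S) = of s := rfl
    rw [this]; simp [sg]

/-- The element of the compact group attached to a closed path at the level `n`. -/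
noncomputable def kap (n : ℕ) (u : FreeGroup S) : Kg := Multiplicative.ofAdd (Pi.single n (X.sg u))

omit [DecidableEq S] in
lemma kap_mul (n : ℕ) (u u' : FreeGroup S) : X.kap n (u * u') = X.kap n u * X.kap n u' := by
  unfold kap
  rw [sg_mul, Pi.single_add, ofAdd_add]

omit [DecidableEq S] in
lemma kap_one (n : ℕ) : X.kap n 1 = 1 := by
  unfold kap
  rw [sg_one, Pi.single_zero]; rfl

omit [DecidableEq S] in
lemma kap_inv (n : ℕ) (u : FreeGroup S) : X.kap n u⁻¹ = (X.kap n u)⁻¹ := by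
  rw [eq_inv_iff_mul_eq_one, ← kap_mul, inv_mul_cancel, kap_one]

omit [DecidableEq S] in
lemma kap_conj (n : ℕ) (g u : FreeGroup S) : X.kap n (g * u * g⁻¹) = X.kap n u := by
  rw [kap_mul, kap_mul, kap_inv, mul_comm (X.kap n g), mul_inv_cancel_right]

/-- The subgroup attached to a subtree. -/
noncomputable def Hs (g : FreeGroup S) (v : V) : Subgroup (FreeGroup S × Kg) where
  carrier := {x | X.Reach v (g⁻¹ * x.1 * g) v ∧ x.2 = X.kap (X.lev v) x.1}
  mul_mem' := by
    rintro x y ⟨h1, h2⟩ ⟨h3, h4⟩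
    refine ⟨?_, ?_⟩
    · have := h1.trans h3
      have e : g⁻¹ * x.1 * g * (g⁻¹ * y.1 * g) = g⁻¹ * (x * y).1 * g := by
        rw [Prod.fst_mul]; group
      rwa [e] at this
    · rw [Prod.snd_mul, Prod.fst_mul, kap_mul, h2, h4]
  one_mem' := ⟨by simpa using Reach.refl v, by simp [kap_one]⟩
  inv_mem' := by
    rintro x ⟨h1, h2⟩
    refine ⟨?_, ?_⟩
    · have := h1.symm
      have e : (g⁻¹ * x.1 * g)⁻¹ = g⁻¹ * (x⁻¹).1 * g := by
        rw [Prod.fst_inv]; group
      rwa [e] at this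
    · rw [Prod.snd_inv, Prod.fst_inv, kap_inv, h2]

omit [DecidableEq S] in
lemma mem_Hs {g : FreeGroup S} {v : V} {x : FreeGroup S × Kg} :
    x ∈ X.Hs g v ↔ X.Reach v (g⁻¹ * x.1 * g) v ∧ x.2 = X.kap (X.lev v) x.1 := Iff.rfl

omit [DecidableEq S] in
lemma Hs_eq {g g' : FreeGroup S} {v v' : V} (h : X.Reach v (g⁻¹ * g') v') :
    X.Hs g v = X.Hs g' v' := by
  ext x
  rw [mem_Hs, mem_Hs, h.lev]
  constructor
  · rintro ⟨h1, h2⟩
    refine ⟨?_, h2⟩
    have := (h.symm.trans h1).trans h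
    have e : (g⁻¹ * g')⁻¹ * (g⁻¹ * x.1 * g) * (g⁻¹ * g') = g'⁻¹ * x.1 * g' := by group
    rwa [e] at this
  · rintro ⟨h1, h2⟩
    refine ⟨?_, h2⟩
    have := (h.trans h1).trans h.symm
    have e : (g⁻¹ * g') * (g'⁻¹ * x.1 * g') * (g⁻¹ * g')⁻¹ = g⁻¹ * x.1 * g := by group
    rwa [e] at this

omit [DecidableEq S] in
lemma Hs_conj (f : FreeGroup S × Kg) {g : FreeGroup S} {v : V} {x : FreeGroup S × Kg}
    (hx : x ∈ X.Hs g v) : f * x * f⁻¹ ∈ X.Hs (f.1 * g) v := by
  obtain ⟨h1, h2⟩ := hx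
  refine ⟨?_, ?_⟩
  · have e : (f.1 * g)⁻¹ * (f * x * f⁻¹).1 * (f.1 * g) = g⁻¹ * x.1 * g := by
      rw [Prod.fst_mul, Prod.fst_mul, Prod.fst_inv]; group
    rw [e]; exact h1
  · rw [Prod.fst_mul, Prod.fst_mul, Prod.fst_inv, kap_conj, Prod.snd_mul, Prod.snd_mul,
      Prod.snd_inv, mul_comm f.2, mul_inv_cancel_right, h2]

omit [DecidableEq S] in
lemma Hs_Y {g : FreeGroup S} {v : V} {x : FreeGroup S × Kg} (hx : x ∈ X.Hs g v) :
    X.Y (x.1 * g) v = X.Y g v := by
  symm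
  apply Y_eq
  rw [← mul_assoc]
  exact hx.1

end Sys

/-- The index set of the family of subtrees. -/
structure Idx (S V : Type) where
  g : FreeGroup S
  v : V

/-- The action on the free group. -/
instance actF (S : Type) : MulAction (FreeGroup S × Kg) (FreeGroup S) where
  smul f p := f.1 * p
  one_smul p := one_mul p
  mul_smul f f' p := mul_assoc f.1 f'.1 p

instance (S V : Type) : MulAction (FreeGroup S × Kg) (Idx S V) where
  smul f i := ⟨f.1 * i.g, i.v⟩
  one_smul i := by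
    show Idx.mk (1 * i.g) i.v = i
    rw [one_mul]
  mul_smul f f' i := by
    show Idx.mk (f.1 * f'.1 * i.g) i.v = Idx.mk (f.1 * (f'.1 * i.g)) i.v
    rw [mul_assoc]

namespace Sys

variable {V J S : Type} (X : Sys V J S) [DecidableEq S]

lemma gate_Y_mul (f g : FreeGroup S) (v : V) (p : FreeGroup S) :
    gate (X.Y (f * g) v) (f * p) = f * gate (X.Y g v) p :=
  gate_mul (X.Y_cvx g v) (X.Y_ne g v) (X.Y_cvx _ _) f (X.Y_mul f g v) p

lemma same_of_overlap {g g' : FreeGroup S} {v v' : V} {a b : FreeGroup S} (ha : a ∈ X.Y g v)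
    (hb : b ∈ X.Y g v) (ha' : a ∈ X.Y g' v') (hb' : b ∈ X.Y g' v')
    (hL : (X.L (X.lev v) : ℤ) ≤ 20 * fd a b ∨ (X.L (X.lev v') : ℤ) ≤ 20 * fd a b) :
    X.Reach v (g⁻¹ * g') v' := by
  obtain ⟨w, hw⟩ := ha
  obtain ⟨z, hz⟩ := hb
  obtain ⟨w', hw'⟩ := ha'
  obtain ⟨z', hz'⟩ := hb'
  have h1 := hw.symm.trans hz
  have h2 := hw'.symm.trans hz'
  have e1 : (g⁻¹ * a)⁻¹ * (g⁻¹ * b) = a⁻¹ * b := by group
  have e2 : (g'⁻¹ * a)⁻¹ * (g'⁻¹ * b) = a⁻¹ * b := by group
  rw [e1] at h1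
  rw [e2] at h2
  have h3 : w = w' := h1.sc h2 (by rw [hw.lev, hw'.lev]; exact hL)
  subst h3
  have h4 := hw.trans hw'.symm
  have e3 : g⁻¹ * a * (g'⁻¹ * a)⁻¹ = g⁻¹ * g' := by group
  rwa [e3] at h4

lemma small_or_same (g g' : FreeGroup S) (v v' : V) (h : ¬ X.Reach v (g⁻¹ * g') v')
    {y y' : FreeGroup S} (hy : y ∈ X.Y g' v') (hy' : y' ∈ X.Y g' v') :
    20 * fd (gate (X.Y g v) y) (gate (X.Y g v) y') < X.L (X.lev v) := by
  by_cases he : gate (X.Y g v) y = gate (X.Y g v) y'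
  · rw [he, fd_self]
    have := X.hL (X.lev v)
    omega
  · obtain ⟨h1, h2⟩ := gate_mem_other (X.Y_cvx g v) (X.Y_ne g v) (X.Y_cvx g' v') hy hy' he
    by_contra hcon
    push Not at hcon
    exact h (X.same_of_overlap (gate_mem (X.Y_cvx g v) (X.Y_ne g v) y)
      (gate_mem (X.Y_cvx g v) (X.Y_ne g v) y') h1 h2 (Or.inl hcon))

/-- The abstract family attached to a labelled graph. -/
noncomputable def toFam : Fam (FreeGroup S × Kg) (FreeGroup S) (Idx S V) where
  d := fun p q => fd (α := S) p q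
  D := fun i p q => fd (gate (X.Y i.g i.v) p) (gate (X.Y i.g i.v) q)
  L := fun i => X.L (X.lev i.v)
  H := fun i => X.Hs i.g i.v
  K := 20
  v0 := (1 : FreeGroup S)
  hK := le_rfl
  d_self := fun p => fd_self _
  d_smul := fun g p q => fd_mul g.1 p q
  d_zero := fun q hq => (fd_zero _ _ (le_antisymm hq (fd_nonneg _ _))).symm
  d_step := fun n q h => fd_step n q h
  D_self := fun i p => fd_self _
  D_comm := fun i p q => fd_comm _ _
  D_tri := fun i p q r => fd_tri _ _ _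
  D_smul := by
    intro f i p q
    show fd (gate (X.Y (f.1 * i.g) i.v) (f.1 * p))
      (gate (X.Y (f.1 * i.g) i.v) (f.1 * q)) = _
    rw [gate_Y_mul, gate_Y_mul, fd_mul]
  D_lip := fun i p q => gate_lip (X.Y_cvx _ _) (X.Y_ne _ _) p q
  D_unb := by
    intro i
    obtain ⟨u, v', h1, h2⟩ := X.exists_long i.v (X.L (X.lev i.v))
    refine ⟨i.g, i.g * u, ?_⟩
    have m1 : i.g ∈ X.Y i.g i.v := ⟨i.v, by simpa using Reach.refl i.v⟩
    have m2 : i.g * u ∈ X.Y i.g i.v := ⟨v', by simpa using h1⟩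
    rw [gate_self (X.Y_cvx _ _) m1, gate_self (X.Y_cvx _ _) m2, fd_def, inv_mul_cancel_left, h2]
    omega
  L_smul := fun g i => rfl
  H_smul := fun g i h hh => X.Hs_conj g hh
  hKL := fun i => by have := X.hL (X.lev i.v); omega
  htau := by
    intro i h hh h1 p
    show (X.L (X.lev i.v) : ℤ) ≤ fd (gate (X.Y i.g i.v) p)
      (gate (X.Y i.g i.v) (h.1 * p))
    have e := X.gate_Y_mul h.1 i.g i.v p
    rw [X.Hs_Y hh] at e
    rw [e]
    obtain ⟨w, hw⟩ := gate_mem (X.Y_cvx i.g i.v) (X.Y_ne i.g i.v) p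
    set c := gate (X.Y i.g i.v) p
    have h2 := (hw.symm.trans hh.1).trans hw
    have e2 : (i.g⁻¹ * c)⁻¹ * (i.g⁻¹ * h.1 * i.g) * (i.g⁻¹ * c) = c⁻¹ * (h.1 * c) := by group
    rw [e2] at h2
    have h3 : c⁻¹ * (h.1 * c) ≠ 1 := by
      intro h4
      have h5 : h.1 = 1 := by
        have : h.1 = c * (c⁻¹ * (h.1 * c)) * c⁻¹ := by group
        rw [this, h4]; simp
      apply h1
      refine Prod.ext h5 ?_
      rw [hh.2, h5, kap_one]; rfl
    have h4 := h2.girth h3
    rw [hw.lev] at h4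
    exact h4
  hinv := by
    intro i h hh p q
    show fd (gate (X.Y i.g i.v) (h.1 * p))
      (gate (X.Y i.g i.v) (h.1 * q)) = _
    have e := X.gate_Y_mul h.1 i.g i.v p
    have e' := X.gate_Y_mul h.1 i.g i.v q
    rw [X.Hs_Y hh] at e e'
    rw [e, e', fd_mul]
  dich := by
    intro i j
    by_cases h : X.Reach i.v (i.g⁻¹ * j.g) j.v
    · left
      refine ⟨X.Hs_eq h, by rw [h.lev], fun p q => ?_⟩
      rw [X.Y_eq h]
    · right
      have h' : ¬ X.Reach j.v (j.g⁻¹ * i.g) i.v := by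
        intro h2
        apply h
        have := h2.symm
        rwa [mul_inv_rev, inv_inv] at this
      refine ⟨{p | gate (X.Y i.g i.v) p = gate (X.Y i.g i.v) (gate (X.Y j.g j.v) p)},
        {p | gate (X.Y j.g j.v) p = gate (X.Y j.g j.v) (gate (X.Y i.g i.v) p)}, ?_, ?_, ?_⟩
      · intro p
        exact gate_behrstock (X.Y_cvx _ _) (X.Y_ne _ _) (X.Y_cvx _ _) (X.Y_ne _ _) p
      · intro a ha a' ha'
        rw [Set.mem_ofPred_eq] at ha ha'
        rw [ha, ha']
        exact X.small_or_same _ _ _ _ h (gate_mem (X.Y_cvx _ _) (X.Y_ne _ _) _)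
          (gate_mem (X.Y_cvx _ _) (X.Y_ne _ _) _)
      · intro a ha a' ha'
        rw [Set.mem_ofPred_eq] at ha ha'
        rw [ha, ha']
        exact X.small_or_same _ _ _ _ h' (gate_mem (X.Y_cvx _ _) (X.Y_ne _ _) _)
          (gate_mem (X.Y_cvx _ _) (X.Y_ne _ _) _)

/-- The normal subgroup generated by the relators. -/
noncomputable def NN : Subgroup (FreeGroup S × Kg) := ⨆ i : Idx S V, X.Hs i.g i.v

omit [DecidableEq S] in
lemma Hs_le (g : FreeGroup S) (v : V) : X.Hs g v ≤ X.NN :=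
  le_iSup (fun i : Idx S V => X.Hs i.g i.v) ⟨g, v⟩

omit [DecidableEq S] in
instance NN_normal : X.NN.Normal := by
  constructor
  intro x hx f
  unfold NN at hx
  induction hx using Subgroup.iSup_induction' with
  | hp i x hx => exact X.Hs_le _ _ (X.Hs_conj f hx)
  | h1 => simp
  | hmul x y _ _ hx hy =>
    have e : f * (x * y) * f⁻¹ = (f * x * f⁻¹) * (f * y * f⁻¹) := by group
    rw [e]
    exact X.NN.mul_mem hx hy

omit [DecidableEq S] in
lemma mem_NN_of_reach {v : V} {u : FreeGroup S} (h : X.Reach v u v) :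
    (u, X.kap (X.lev v) u) ∈ X.NN :=
  X.Hs_le 1 v ⟨by simpa using h, rfl⟩

/-- The Greendlinger lemma. -/
theorem green {h : FreeGroup S × Kg} (hh : h ∈ X.NN) (h1 : h ≠ 1) :
    ∃ g v p q, ∃ k ∈ X.Hs g v, p ∈ X.Y g v ∧ q ∈ X.Y g v ∧
      fd 1 h.1 = fd 1 p + fd p q + fd q h.1 ∧ 14 * (X.L (X.lev v) : ℤ) ≤ 20 * fd p q ∧
      20 * fd p (k.1⁻¹ * q) ≤ 6 * (X.L (X.lev v) : ℤ) := by
  obtain ⟨i, k, hk, hk1, hD⟩ := X.toFam.windmill h hh h1
  have hτ := X.toFam.htau i k hk hk1 (k⁻¹ • h • X.toFam.v0)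
  have htri := X.toFam.D_tri i (k⁻¹ • h • X.toFam.v0) X.toFam.v0 (k • k⁻¹ • h • X.toFam.v0)
  rw [smul_inv_smul] at hτ htri
  have e0 : (h • X.toFam.v0 : FreeGroup S) = h.1 := mul_one h.1
  have e1 : (k⁻¹ • h • X.toFam.v0 : FreeGroup S) = (k.1⁻¹ * h.1 : FreeGroup S) := by
    rw [e0]; rfl
  rw [e1] at hD hτ htri
  rw [e0] at hτ htri
  change (20 : ℤ) * fd (gate (X.Y i.g i.v) (k.1⁻¹ * h.1)) (gate (X.Y i.g i.v) 1) ≤
    6 * (X.L (X.lev i.v) : ℤ) at hD
  change (X.L (X.lev i.v) : ℤ) ≤ fd (gate (X.Y i.g i.v) (k.1⁻¹ * h.1))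
    (gate (X.Y i.g i.v) h.1) at hτ
  change fd (gate (X.Y i.g i.v) (k.1⁻¹ * h.1)) (gate (X.Y i.g i.v) h.1) ≤
    fd (gate (X.Y i.g i.v) (k.1⁻¹ * h.1)) (gate (X.Y i.g i.v) 1) +
    fd (gate (X.Y i.g i.v) 1) (gate (X.Y i.g i.v) h.1) at htri
  have hk' : k⁻¹ ∈ X.Hs i.g i.v := (X.Hs i.g i.v).inv_mem hk
  have e := X.gate_Y_mul (k⁻¹).1 i.g i.v h.1
  rw [X.Hs_Y hk', Prod.fst_inv] at e
  have hL := X.hL (X.lev i.v)
  have hne : gate (X.Y i.g i.v) 1 ≠ gate (X.Y i.g i.v) h.1 := by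
    intro h2
    rw [← h2, fd_self] at htri
    rw [← h2] at hτ
    omega
  refine ⟨i.g, i.v, gate (X.Y i.g i.v) 1, gate (X.Y i.g i.v) h.1, k, hk,
    gate_mem (X.Y_cvx _ _) (X.Y_ne _ _) _, gate_mem (X.Y_cvx _ _) (X.Y_ne _ _) _,
    gate_d_eq (X.Y_cvx _ _) (X.Y_ne _ _) _ _ hne, by omega, ?_⟩
  rw [← e, fd_comm]
  exact hD

theorem NN_inter {κ : Kg} (h : ((1 : FreeGroup S), κ) ∈ X.NN) : κ = 1 := by
  by_contra hne
  obtain ⟨g, v, p, q, k, -, -, -, h1, h2, -⟩ := X.green h (fun h3 => hne (congrArg Prod.snd h3))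
  have hL := X.hL (X.lev v)
  rw [fd_self] at h1
  have := fd_nonneg 1 p
  have := fd_nonneg q 1
  simp only at h1
  omega

end Sys

end Pool.Agent.H818Z
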