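import Pool.Agent.H818Z.Dens
import Pool.Agent.H818Z.Spec

/-!
The wreath product, and the upper bound for the test operator in its regular representation.
-/

namespace Pool.Agent.H818Z

open Pool.Agent.H17R2
open FreeGroup hiding map_mul map_inv map_one

/-- Moving finitely supported functions along a permutation. -/
noncomputable def sh {M T : Type} [AddCommGroup T] (π : Equiv.Perm M) (b : M →₀ T) : M →₀ T :=
  Finsupp.equivMapDomain π b

section
variable {M T : Type} [AddCommGroup T]

lemma sh_apply (π : Equiv.Perm M) (b : M →₀ T) (m : M) : sh π b m = b (π.symm m) := rfl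

lemma sh_add (π : Equiv.Perm M) (b b' : M →₀ T) : sh π (b + b') = sh π b + sh π b' := by
  ext m; simp [sh_apply]

lemma sh_neg (π : Equiv.Perm M) (b : M →₀ T) : sh π (-b) = -sh π b := by
  ext m; simp [sh_apply]

lemma sh_zero (π : Equiv.Perm M) : sh π (0 : M →₀ T) = 0 := by
  ext m; simp [sh_apply]

lemma sh_one (b : M →₀ T) : sh 1 b = b := by
  ext m; rfl

lemma sh_mul (π π' : Equiv.Perm M) (b : M →₀ T) : sh (π * π') b = sh π (sh π' b) := by
  ext m; rfl

lemma sh_single (π : Equiv.Perm M) (m : M) (t : T) :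
    sh π (Finsupp.single m t) = Finsupp.single (π m) t := Finsupp.equivMapDomain_single π m t

end

/-- The wreath product. -/
@[ext]
structure Wr {G M : Type} [Group G] (ρ : G →* Equiv.Perm M) (T : Type) [AddCommGroup T] where
  b : M →₀ T
  g : G

namespace Wr

variable {G M : Type} [Group G] {ρ : G →* Equiv.Perm M} {T : Type} [AddCommGroup T]

noncomputable instance : Mul (Wr ρ T) := ⟨fun x y => ⟨x.b + sh (ρ x.g) y.b, x.g * y.g⟩⟩
noncomputable instance : One (Wr ρ T) := ⟨⟨0, 1⟩⟩
noncomputable instance : Inv (Wr ρ T) := ⟨fun x => ⟨-sh (ρ x.g⁻¹) x.b, x.g⁻¹⟩⟩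

lemma mul_b (x y : Wr ρ T) : (x * y).b = x.b + sh (ρ x.g) y.b := rfl
lemma mul_g (x y : Wr ρ T) : (x * y).g = x.g * y.g := rfl
lemma one_b : (1 : Wr ρ T).b = 0 := rfl
lemma one_g : (1 : Wr ρ T).g = 1 := rfl
lemma inv_b (x : Wr ρ T) : (x⁻¹).b = -sh (ρ x.g⁻¹) x.b := rfl
lemma inv_g (x : Wr ρ T) : (x⁻¹).g = x.g⁻¹ := rfl

noncomputable instance : Group (Wr ρ T) where
  mul_assoc x y z := by
    apply Wr.ext
    · simp only [mul_b, mul_g, map_mul, sh_add, sh_mul, add_assoc]
    · simp only [mul_g, mul_assoc]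
  one_mul x := by
    apply Wr.ext
    · simp only [mul_b, one_b, one_g, map_one, sh_one, zero_add]
    · simp only [mul_g, one_g, one_mul]
  mul_one x := by
    apply Wr.ext
    · simp only [mul_b, one_b, sh_zero, add_zero]
    · simp only [mul_g, one_g, mul_one]
  inv_mul_cancel x := by
    apply Wr.ext
    · simp only [mul_b, inv_b, inv_g, one_b, neg_add_cancel]
    · simp only [mul_g, inv_g, one_g, inv_mul_cancel]

instance [Countable G] [Countable M] [Countable T] : Countable (Wr ρ T) :=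
  Function.Injective.countable (f := fun x : Wr ρ T => (x.b, x.g))
    (fun _ _ h => Wr.ext (congrArg Prod.fst h) (congrArg Prod.snd h))

end Wr

/-- The action of a group on the sites. -/
def rho (Q J : Type) [Group Q] : Q →* Equiv.Perm (Q × J) where
  toFun x := Equiv.prodCongr (Equiv.mulLeft x) (Equiv.refl J)
  map_one' := by ext p <;> simp
  map_mul' x y := by ext p <;> simp [mul_assoc]

lemma rho_apply {Q J : Type} [Group Q] (x y : Q) (j : J) : rho Q J x (y, j) = (x * y, j) := rfl

/-- The lamp group. -/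
abbrev TT (S : Type) : Type := S × Bool → ZMod 2

/-- The code of a letter. -/
def code {S : Type} [DecidableEq S] (a : S × Bool) : TT S := Pi.single a 1

lemma code_inj {S : Type} [DecidableEq S] {a a' : S × Bool} (h : code a = code a') : a = a' := by
  by_contra hne
  have := congrFun h a
  simp [code, Pi.single_eq_of_ne hne] at this

section Fourier

variable {M A : Type} [Fintype A] [DecidableEq A] [DecidableEq M] (Z : Finset M)

/-- The character of a colouring. -/
noncomputable def chi (c : Z → A → ZMod 2) (b : M →₀ (A → ZMod 2)) : ℝ := ∏ z : Z, ch (c z) (b z)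

/-- The extension of a colouring. -/
def ext0 (c : Z → A → ZMod 2) (z : M) : A → ZMod 2 := if h : z ∈ Z then c ⟨z, h⟩ else 0

omit [DecidableEq A] [DecidableEq M] in
lemma chi_add (c : Z → A → ZMod 2) (b b' : M →₀ (A → ZMod 2)) :
    chi Z c (b + b') = chi Z c b * chi Z c b' := by
  unfold chi
  rw [← Finset.prod_mul_distrib]
  exact Finset.prod_congr rfl (fun z _ => by rw [Finsupp.add_apply, ch_add])

omit [DecidableEq A] in
lemma chi_single (c : Z → A → ZMod 2) {z : M} (hz : z ∈ Z) (t : A → ZMod 2) :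
    chi Z c (Finsupp.single z t) = ch (ext0 Z c z) t := by
  unfold chi
  rw [Finset.prod_eq_single ⟨z, hz⟩]
  · simp [ext0, hz]
  · intro w _ hw
    have : (w : M) ≠ z := fun h => hw (Subtype.ext h)
    rw [Finsupp.single_eq_of_ne this, ch_zero]
  · simp

lemma sum_chi (b : M →₀ (A → ZMod 2)) (hb : b.support ⊆ Z) :
    ∑ c, chi Z c b = if b = 0 then (Fintype.card (A → ZMod 2) : ℝ) ^ Z.card else 0 := by
  unfold chi
  have h1 := Finset.prod_univ_sum (fun _ : Z => (Finset.univ : Finset (A → ZMod 2)))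
    (fun z c => ch c (b z))
  rw [Fintype.piFinset_univ] at h1
  rw [← h1]
  simp only [ch_comm _ (b _), sum_ch]
  split_ifs with h
  · subst h
    simp
  · obtain ⟨z, hz⟩ := Finsupp.support_nonempty_iff.2 h
    apply Finset.prod_eq_zero (Finset.mem_univ ⟨z, hb hz⟩)
    rw [if_neg (Finsupp.mem_support_iff.1 hz)]

omit [Fintype A] [DecidableEq A] [DecidableEq M] in
lemma add3_eq_zero (b b' τ : M →₀ (A → ZMod 2)) : b + b' + τ = 0 ↔ b' = b + τ := by
  have h : ∀ x y z : ZMod 2, x + y + z = 0 ↔ y = x + z := by decide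
  constructor
  · intro h1
    ext m a
    exact (h _ _ _).1 (congrFun (DFunLike.congr_fun h1 m) a)
  · intro h1
    ext m a
    exact (h _ _ _).2 (congrFun (DFunLike.congr_fun h1 m) a)

end Fourier

namespace Sys

variable {V J S : Type} (X : Sys V J S) [DecidableEq S]

/-- The wreath product over the small cancellation group. -/
abbrev PP : Type := Wr (rho X.Q J) (TT S)

/-- The wreath product over the free group. -/
abbrev EE : Type := Wr ((rho X.Q J).comp X.pr) (TT S)

/-- The projection. -/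
noncomputable def piE : X.EE →* X.PP where
  toFun e := ⟨e.b, X.pr e.g⟩
  map_one' := Wr.ext rfl (map_one X.pr)
  map_mul' x y := Wr.ext rfl (map_mul X.pr x.g y.g)

/-- The index set of the test operator. -/
abbrev II (S : Type) : Type := (S × Bool) × TT S × TT S

/-- The group elements of the test operator. -/
noncomputable def gen (i : II S) : X.EE :=
  ⟨Finsupp.single (1, X.ty i.1.1) i.2.1 + Finsupp.single (X.pr (el i.1), X.ty i.1.1) i.2.2, el i.1⟩

/-- The lamps which are changed. -/
noncomputable def tau (x : X.Q) (i : II S) : X.Q × J →₀ TT S :=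
  Finsupp.single (x, X.ty i.1.1) i.2.1 + Finsupp.single (x * X.pr (el i.1), X.ty i.1.1) i.2.2

omit [DecidableEq S] in
lemma mul_gen_P (y : X.PP) (i : II S) :
    y * X.piE (X.gen i) = ⟨y.b + X.tau y.g i, y.g * X.pr (el i.1)⟩ := by
  apply Wr.ext
  · show y.b + sh (rho X.Q J y.g) (_ + _) = _
    rw [sh_add, sh_single, sh_single, rho_apply, rho_apply, mul_one]
    rfl
  · rfl

omit [DecidableEq S] in
lemma mul_gen_E (y : X.EE) (i : II S) :
    y * X.gen i = ⟨y.b + X.tau (X.pr y.g) i, y.g * el i.1⟩ := by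
  apply Wr.ext
  · show y.b + sh (rho X.Q J (X.pr y.g)) (_ + _) = _
    rw [sh_add, sh_single, sh_single, rho_apply, rho_apply, mul_one]
    rfl
  · rfl

variable [Fintype S]

/-- The coefficients of the test operator. -/
noncomputable def coef (i : II S) : ℝ :=
  sg2 (X.sgn i.1.1) * ch (code i.1) i.2.1 * ch (code (bar i.1)) i.2.2 /
    (Fintype.card (TT S) : ℝ) ^ 2

lemma sum_coef (a : S × Bool) (c c' : TT S) :
    ∑ t : TT S × TT S, X.coef (a, t) * (ch c t.1 * ch c' t.2) =
      if c = code a ∧ c' = code (bar a) then sg2 (X.sgn a.1) else 0 := by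
  have hT : (Fintype.card (TT S) : ℝ) ≠ 0 := by
    exact_mod_cast Fintype.card_ne_zero
  have h1 : ∑ t : TT S × TT S, X.coef (a, t) * (ch c t.1 * ch c' t.2) =
      sg2 (X.sgn a.1) / (Fintype.card (TT S) : ℝ) ^ 2 *
        ((∑ t, ch c t * ch (code a) t) * (∑ t, ch c' t * ch (code (bar a)) t)) := by
    rw [Finset.sum_mul_sum, ← Finset.sum_product', Finset.univ_product_univ, Finset.mul_sum]
    apply Finset.sum_congr rfl
    intro t _
    unfold coef
    ring
  rw [h1, sum_ch_mul, sum_ch_mul]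
  by_cases h2 : c = code a <;> by_cases h3 : c' = code (bar a) <;> simp [h2, h3]
  field_simp

open Classical in
theorem upper [Nonempty V] [Fintype J] (κ : ℕ)
    (hd : ∀ (W : Finset V) (τ : V → ZMod 2), (∀ v ∈ W, ∀ v' ∈ W, X.lev v = X.lev v') →
      ((W ×ˢ (Finset.univ : Finset J)).filter (fun p => X.nb p.2 p.1 ∈ W ∧
        X.sgn (X.lt p.1 p.2).1 + τ p.1 + τ (X.nb p.2 p.1) = 0)).card ≤ κ * W.card)
    (A : Finset X.PP) (ζ : X.PP → ℝ) (hζ : ∀ y, y ∉ A → ζ y = 0) :
    ∑ i, X.coef i * ∑ y ∈ A, ζ y * ζ (y * X.piE (X.gen i)) ≤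
      (9 / 40 * ((2 + κ : ℕ) : ℝ) + 4 / 5 * Fintype.card J) * ∑ y ∈ A, ζ y ^ 2 := by
  set XA : Finset X.Q := A.image (fun y => y.g) with hXA
  set X' : Finset X.Q := XA ∪ (XA ×ˢ (Finset.univ : Finset (S × Bool))).image
    (fun p => p.1 * X.pr (el p.2)) with hX'
  set Z : Finset (X.Q × J) := A.biUnion (fun y => y.b.support) ∪ X' ×ˢ Finset.univ with hZ
  have hZ1 : ∀ y ∈ A, y.b.support ⊆ Z := fun y hy =>
    (Finset.subset_biUnion_of_mem (fun y : X.PP => y.b.support) hy).trans Finset.subset_union_left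
  have hZ2 : ∀ x ∈ XA, ∀ j, (x, j) ∈ Z := fun x hx j =>
    Finset.mem_union_right _ (Finset.mem_product.2 ⟨Finset.mem_union_left _ hx, Finset.mem_univ _⟩)
  have hZ3 : ∀ x ∈ XA, ∀ a j, (x * X.pr (el a), j) ∈ Z := fun x hx a j =>
    Finset.mem_union_right _ (Finset.mem_product.2 ⟨Finset.mem_union_right _
      (Finset.mem_image.2 ⟨(x, a), Finset.mem_product.2 ⟨hx, Finset.mem_univ _⟩, rfl⟩),
      Finset.mem_univ _⟩)
  have hZ4 : ∀ x ∈ XA, ∀ i, (X.tau x i).support ⊆ Z := by
    intro x hx i
    refine Finsupp.support_add.trans (Finset.union_subset ?_ ?_)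
    · exact (Finsupp.support_single_subset).trans (Finset.singleton_subset_iff.2 (hZ2 x hx _))
    · exact (Finsupp.support_single_subset).trans (Finset.singleton_subset_iff.2 (hZ3 x hx _ _))
  set N : ℝ := (Fintype.card (TT S) : ℝ) ^ Z.card with hN
  have hN0 : 0 < N := by
    apply pow_pos
    exact_mod_cast Fintype.card_pos
  set F : (Z → TT S) → X.Q → ℝ := fun c x =>
    ∑ y ∈ A, if y.g = x then chi Z c y.b * ζ y else 0 with hF
  have hF0 : ∀ c x, x ∉ XA → F c x = 0 := by
    intro c x hx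
    apply Finset.sum_eq_zero
    intro y hy
    rw [if_neg]
    rintro rfl
    exact hx (Finset.mem_image_of_mem _ hy)
  have hF1 : ∀ c (H : X.Q → ℝ), ∑ x ∈ XA, F c x * H x = ∑ y ∈ A, chi Z c y.b * ζ y * H y.g := by
    intro c H
    simp only [hF, Finset.sum_mul]
    rw [Finset.sum_comm]
    apply Finset.sum_congr rfl
    intro y hy
    rw [Finset.sum_eq_single y.g]
    · simp
    · intro x _ hx
      rw [if_neg (Ne.symm hx), zero_mul]
    · intro h
      exact absurd (Finset.mem_image_of_mem (fun y : X.PP => y.g) hy) h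
  -- the basic identity
  have key : ∀ (q : X.Q) (τ : X.Q → (X.Q × J →₀ TT S)), (∀ x ∈ XA, (τ x).support ⊆ Z) →
      ∑ c, ∑ x ∈ XA, F c x * (F c (x * q) * chi Z c (τ x)) =
        N * ∑ y ∈ A, ζ y * ζ ⟨y.b + τ y.g, y.g * q⟩ := by
    intro q τ hτ
    simp only [hF1]
    rw [Finset.sum_comm, Finset.mul_sum]
    apply Finset.sum_congr rfl
    intro y hy
    have e1 : ∀ c, chi Z c y.b * ζ y * (F c (y.g * q) * chi Z c (τ y.g)) =
        ∑ y' ∈ A, (if y'.g = y.g * q then ζ y * ζ y' else 0) * chi Z c (y.b + y'.b + τ y.g) := by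
      intro c
      simp only [hF, Finset.sum_mul, Finset.mul_sum]
      apply Finset.sum_congr rfl
      intro y' _
      rw [chi_add, chi_add]
      split_ifs <;> ring
    simp only [e1]
    rw [Finset.sum_comm]
    have e2 : ∀ y' ∈ A, ∑ c, (if y'.g = y.g * q then ζ y * ζ y' else 0) *
        chi Z c (y.b + y'.b + τ y.g) =
        if y' = ⟨y.b + τ y.g, y.g * q⟩ then N * (ζ y * ζ y') else 0 := by
      intro y' hy'
      rw [← Finset.mul_sum, sum_chi]
      · by_cases c1 : y'.g = y.g * q <;> by_cases c2 : y'.b = y.b + τ y.g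
        · rw [if_pos c1, if_pos ((add3_eq_zero _ _ _).2 c2), if_pos (Wr.ext c2 c1)]
          ring
        · have n : ¬ (y' = ⟨y.b + τ y.g, y.g * q⟩) := fun h => c2 (by rw [h])
          have n2 : ¬ (y.b + y'.b + τ y.g = 0) := fun h => c2 ((add3_eq_zero _ _ _).1 h)
          rw [if_neg n, if_neg n2, mul_zero]
        · have n : ¬ (y' = ⟨y.b + τ y.g, y.g * q⟩) := fun h => c1 (by rw [h])
          rw [if_neg n, if_neg c1, zero_mul]
        · have n : ¬ (y' = ⟨y.b + τ y.g, y.g * q⟩) := fun h => c1 (by rw [h])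
          rw [if_neg n, if_neg c1, zero_mul]
      · refine Finsupp.support_add.trans (Finset.union_subset ?_
          (hτ _ (Finset.mem_image_of_mem (fun y : X.PP => y.g) hy)))
        exact Finsupp.support_add.trans (Finset.union_subset (hZ1 y hy) (hZ1 y' hy'))
    rw [Finset.sum_congr rfl e2, Finset.sum_ite_eq']
    split_ifs with h
    · rfl
    · rw [hζ _ h]; ring
  have k0 : ∑ c, ∑ x ∈ XA, F c x ^ 2 = N * ∑ y ∈ A, ζ y ^ 2 := by
    have := key 1 (fun _ => 0) (by simp)
    simp only [mul_one, add_zero] at this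
    have e : ∀ c : Z → TT S, chi Z c 0 = 1 := by
      intro c; simp [chi, ch_zero]
    simp only [e, mul_one] at this
    simp only [pow_two]
    exact this
  have k1 : N * ∑ i, X.coef i * ∑ y ∈ A, ζ y * ζ (y * X.piE (X.gen i)) =
      ∑ c, ∑ x ∈ XA, ∑ a, (if ext0 Z c (x, X.ty a.1) = code a ∧
        ext0 Z c (x * X.pr (el a), X.ty a.1) = code (bar a) then
        sg2 (X.sgn a.1) * (F c x * F c (x * X.pr (el a))) else 0) := by
    have e1 : ∀ i, N * (X.coef i * ∑ y ∈ A, ζ y * ζ (y * X.piE (X.gen i))) =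
        ∑ c, ∑ x ∈ XA, X.coef i * (F c x * (F c (x * X.pr (el i.1)) * chi Z c (X.tau x i))) := by
      intro i
      simp only [mul_gen_P]
      rw [mul_left_comm, ← key (X.pr (el i.1)) (fun x => X.tau x i) (fun x hx => hZ4 x hx i),
        Finset.mul_sum]
      simp only [Finset.mul_sum]
    rw [Finset.mul_sum]
    simp only [e1]
    rw [Finset.sum_comm]
    apply Finset.sum_congr rfl
    intro c _
    rw [Finset.sum_comm]
    apply Finset.sum_congr rfl
    intro x hx
    rw [Fintype.sum_prod_type]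
    apply Finset.sum_congr rfl
    intro a _
    have e2 : ∀ t : TT S × TT S, X.coef (a, t) * (F c x * (F c (x * X.pr (el a)) *
        chi Z c (X.tau x (a, t)))) = (X.coef (a, t) * (ch (ext0 Z c (x, X.ty a.1)) t.1 *
          ch (ext0 Z c (x * X.pr (el a), X.ty a.1)) t.2)) * (F c x * F c (x * X.pr (el a))) := by
      intro t
      unfold tau
      rw [chi_add, chi_single Z c (hZ2 x hx _), chi_single Z c (hZ3 x hx _ _)]
      ring
    simp only [e2]
    rw [← Finset.sum_mul, sum_coef]
    split_ifs <;> ring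
  have k2 : ∀ c : Z → TT S, ∑ x ∈ XA, ∑ a, (if ext0 Z c (x, X.ty a.1) = code a ∧
        ext0 Z c (x * X.pr (el a), X.ty a.1) = code (bar a) then
        sg2 (X.sgn a.1) * (F c x * F c (x * X.pr (el a))) else 0) ≤
      (9 / 40 * ((2 + κ : ℕ) : ℝ) + 4 / 5 * Fintype.card J) * ∑ x ∈ XA, F c x ^ 2 := by
    intro c
    have hact : ∀ (x : X.Q) (a : S × Bool), x * X.pr (el a) * X.pr (el (bar a)) = x := by
      intro x a
      rw [el_bar, map_inv, mul_inv_cancel_right]
    have := spectral (fun (x : X.Q) (a : S × Bool) => x * X.pr (el a)) bar hact bar_bar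
      (fun a => X.sgn a.1) (fun x a => ext0 Z c (x, X.ty a.1) = code a ∧
        ext0 Z c (x * X.pr (el a), X.ty a.1) = code (bar a)) ?_ (Fintype.card J) (2 + κ) ?_ ?_ XA
        (F c) (hF0 c)
    · convert this
    · rintro x a ⟨h1, h2⟩
      refine ⟨h2, ?_⟩
      rw [hact, bar_bar]
      exact h1
    · intro x
      rw [← Finset.card_univ]
      apply Finset.card_le_card_of_injOn (fun a => X.ty a.1)
      · intro a _
        exact Finset.mem_univ _
      · intro a ha a' ha' h
        simp only [Finset.coe_filter, Finset.mem_univ, true_and, Set.mem_ofPred_eq] at ha ha'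
        have h1 := ha.1
        have h2 := ha'.1
        simp only at h
        rw [h] at h1
        exact code_inj (h1.symm.trans h2)
    · intro B τ
      convert X.dens κ hd B τ
  have k3 := Finset.sum_le_sum (fun c (_ : c ∈ (Finset.univ : Finset (Z → TT S))) => k2 c)
  rw [← k1, ← Finset.mul_sum, k0, mul_left_comm] at k3
  exact le_of_mul_le_mul_left k3 hN0

end Sys

end Pool.Agent.H818Z
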